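import Pool.Agent.K3G.Defs

set_option autoImplicit false

namespace Pool.Agent.K3G

variable {d0 d1 d2 : ℝ}

namespace A1Aux

variable {N M : ℝ}

theorem small1 (h : Big N M) {e : ℝ} (he : e ≤ -(1 / 24)) : N ^ e ≤ 1 / 1000 := by
  have h1 := h.small he
  have h2 := h.pos e
  have hM := h.M_pos
  nlinarith

theorem le_one (h : Big N M) {e : ℝ} (he : e ≤ 0) : N ^ e ≤ 1 :=
  Real.rpow_le_one_of_one_le_of_nonpos h.2.1.le he

/-- the values on the second line, positive -/
theorem gpos (h : Big N M) {u v w A t : ℝ} (hu : 1 / 24 ≤ u) (hv : u + 1 / 24 ≤ v) (hw : w ≤ 0)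
    (hA : |A| ≤ M + 1) (ht : |t| ≤ M) : 0 < -N ^ u + N ^ v + A * N ^ w + t := by
  have h1 := h.big hu
  have h4 := h.pos u
  have h5 := h.pos w
  have h6 := le_one h hw
  have hM := h.M_pos
  have h7 : -(M + 1) ≤ A * N ^ w := by
    have h8 : |A * N ^ w| ≤ (M + 1) * 1 := by
      rw [abs_mul, abs_of_pos h5]
      exact mul_le_mul hA h6 h5.le (by linarith)
    have := neg_abs_le (A * N ^ w)
    linarith
  have h9 := neg_abs_le t
  have h10 := h.gap hv
  nlinarith

/-- the values on the second line, negative -/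
theorem gneg (h : Big N M) {u v w A t : ℝ} (hu : 1 / 24 ≤ u) (hv : v ≤ u - 1 / 24) (hw : w ≤ 0)
    (hA : |A| ≤ M + 1) (ht : |t| ≤ M) : -N ^ u + N ^ v + A * N ^ w + t < 0 := by
  have h1 := h.big hu
  have h4 := h.pos u
  have h4' := h.pos v
  have h5 := h.pos w
  have h6 := le_one h hw
  have hM := h.M_pos
  have h7 : A * N ^ w ≤ M + 1 := by
    have h8 : |A * N ^ w| ≤ (M + 1) * 1 := by
      rw [abs_mul, abs_of_pos h5]
      exact mul_le_mul hA h6 h5.le (by linarith)
    have := le_abs_self (A * N ^ w)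
    linarith
  have h9 := le_abs_self t
  have h10 := h.gap (x := v) (y := u) (by linarith)
  nlinarith

/-- the form of the separation -/
theorem sp_of {a b c p q r : ℝ} (A₀ A₁ A₂ B : ℝ)
    (ha : (a ≠ p ∧ a ≠ q ∧ 0 < A₀ + A₁ * N ^ (a - M) + A₂ * N ^ (-a - M) + B * a) ∨
      ((a = p ∨ a = q) ∧ A₀ + A₁ * N ^ (a - M) + A₂ * N ^ (-a - M) + B * a = 0))
    (hb : (b ≠ p ∧ b ≠ q ∧ 0 < A₀ + A₁ * N ^ (b - M) + A₂ * N ^ (-b - M) + B * b) ∨
      ((b = p ∨ b = q) ∧ A₀ + A₁ * N ^ (b - M) + A₂ * N ^ (-b - M) + B * b = 0))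
    (hc : (c ≠ r ∧ 0 < A₁ + A₂ * N ^ (c - M) + A₀ * N ^ (-c - M) + B * c) ∨
      (c = r ∧ A₁ + A₂ * N ^ (c - M) + A₀ * N ^ (-c - M) + B * c = 0))
    (hp : p ≠ a → p ≠ b → A₀ + A₁ * N ^ (p - M) + A₂ * N ^ (-p - M) + B * p < 0)
    (hq : q ≠ a → q ≠ b → A₀ + A₁ * N ^ (q - M) + A₂ * N ^ (-q - M) + B * q < 0)
    (hr : r ≠ c → A₁ + A₂ * N ^ (r - M) + A₀ * N ^ (-r - M) + B * r < 0) :
    Sp N M {((0 : ℕ), a), (0, b), (1, c)} {((0 : ℕ), p), (0, q), (1, r)} := by
  refine ⟨A₀, A₁, A₂, B, ?_, ?_, ?_⟩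
  · intro v hv hvT
    simp only [Set.mem_insert_iff, Set.mem_singleton_iff] at hv hvT
    rcases hv with rfl | rfl | rfl
    · rw [val_zero]
      rcases ha with ⟨_, _, h⟩ | ⟨h, _⟩
      · exact h
      · exfalso
        rcases h with rfl | rfl <;> simp at hvT
    · rw [val_zero]
      rcases hb with ⟨_, _, h⟩ | ⟨h, _⟩
      · exact h
      · exfalso
        rcases h with rfl | rfl <;> simp at hvT
    · rw [val_one]
      rcases hc with ⟨_, h⟩ | ⟨rfl, _⟩
      · exact h
      · exfalso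
        simp at hvT
  · intro v hv hvT
    simp only [Set.mem_insert_iff, Set.mem_singleton_iff, not_or] at hv hvT
    rcases hv with rfl | rfl | rfl
    · rw [val_zero]
      exact hp (fun h => hvT.1 (by rw [h])) (fun h => hvT.2.1 (by rw [h]))
    · rw [val_zero]
      exact hq (fun h => hvT.1 (by rw [h])) (fun h => hvT.2.1 (by rw [h]))
    · rw [val_one]
      exact hr (fun h => hvT.2.2 (by rw [h]))
  · intro v hv hvT
    simp only [Set.mem_insert_iff, Set.mem_singleton_iff] at hv hvT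
    rcases hv with rfl | rfl | rfl
    · rw [val_zero]
      rcases ha with ⟨h1, h2, _⟩ | ⟨_, h⟩
      · exfalso
        rcases hvT with h | h | h
        · exact h1 (Prod.ext_iff.1 h).2
        · exact h2 (Prod.ext_iff.1 h).2
        · exact absurd (Prod.ext_iff.1 h).1 (by norm_num)
      · exact h
    · rw [val_zero]
      rcases hb with ⟨h1, h2, _⟩ | ⟨_, h⟩
      · exfalso
        rcases hvT with h | h | h
        · exact h1 (Prod.ext_iff.1 h).2
        · exact h2 (Prod.ext_iff.1 h).2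
        · exact absurd (Prod.ext_iff.1 h).1 (by norm_num)
      · exact h
    · rw [val_one]
      rcases hc with ⟨h1, _⟩ | ⟨_, h⟩
      · exfalso
        rcases hvT with h | h | h
        · exact absurd (Prod.ext_iff.1 h).1 (by norm_num)
        · exact absurd (Prod.ext_iff.1 h).1 (by norm_num)
        · exact h1 (Prod.ext_iff.1 h).2
      · exact h

/-- `a < b ≤ p < q` -/
theorem pat12 {a b c p q r : ℝ} (hB : Big N M) (ha : G d0 d1 M a) (hb : G d0 d1 M b) (hc : G d1 d2 M c)
    (hp : G d0 d1 M p) (hq : G d0 d1 M q) (hr : G d1 d2 M r) (hab : a < b) (hpq : p < q)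
    (h1 : a + b + c = M - 1 / 2) (h2 : p + q + r = M - 1 / 2) (hbp : b ≤ p) :
    Sp N M {((0 : ℕ), a), (0, b), (1, c)} {((0 : ℕ), p), (0, q), (1, r)} := by
  have hrc : r + 1 ≤ c := hr.gap hc (by linarith)
  have gq := hq.hi
  have gc := hc.hi
  have gc' := hc.lo
  have gr := hr.lo
  -- the zero of the first function
  obtain ⟨t0, ht1, ht2, ht3⟩ : ∃ t0 : ℝ, b ≤ t0 ∧ t0 ≤ p ∧
      ((b = p ∧ t0 = p) ∨ (b < p ∧ b < t0 ∧ t0 < p ∧ t0 = p - 1 / 2)) := by
    rcases hbp.eq_or_lt with h | h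
    · exact ⟨p, hbp, le_rfl, Or.inl ⟨h, rfl⟩⟩
    · have := hb.gap hp h
      exact ⟨p - 1 / 2, by linarith, by linarith, Or.inr ⟨h, by linarith, by linarith, rfl⟩⟩
  have ht4 : p - 1 / 2 ≤ t0 := by rcases ht3 with ⟨_, h⟩ | ⟨_, _, _, h⟩ <;> linarith
  obtain ⟨ρ, hρ⟩ : ∃ ρ : ℝ, ρ = r + 1 / 2 := ⟨_, rfl⟩
  -- the first function
  have f : ∀ t : ℝ, (N ^ (t0 - M) - N ^ (-ρ - t0)) + -1 * N ^ (t - M) +
      N ^ (M - ρ) * N ^ (-t - M) + 0 * t =
      (N ^ (t0 - M) - N ^ (t - M)) + (N ^ (-ρ - t) - N ^ (-ρ - t0)) := by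
    intro t
    have e1 : N ^ (M - ρ) * N ^ (-t - M) = N ^ (-ρ - t) := by
      rw [← hB.add]; congr 1; ring
    rw [e1]; ring
  have fpos : ∀ t : ℝ, t < t0 → 0 < (N ^ (t0 - M) - N ^ (t - M)) +
      (N ^ (-ρ - t) - N ^ (-ρ - t0)) := by
    intro t ht
    have e1 := hB.strict (x := t - M) (y := t0 - M) (by linarith)
    have e2 := hB.strict (x := -ρ - t0) (y := -ρ - t) (by linarith)
    linarith
  have fneg : ∀ t : ℝ, t0 < t → (N ^ (t0 - M) - N ^ (t - M)) +
      (N ^ (-ρ - t) - N ^ (-ρ - t0)) < 0 := by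
    intro t ht
    have e1 := hB.strict (x := t0 - M) (y := t - M) (by linarith)
    have e2 := hB.strict (x := -ρ - t) (y := -ρ - t0) (by linarith)
    linarith
  -- the second function
  have g : ∀ t : ℝ, -1 + N ^ (M - ρ) * N ^ (t - M) +
      (N ^ (t0 - M) - N ^ (-ρ - t0)) * N ^ (-t - M) + 0 * t =
      -1 + N ^ (t - ρ) + N ^ (t0 - M - t - M) - N ^ (-ρ - t0 - t - M) := by
    intro t
    have e1 : N ^ (M - ρ) * N ^ (t - M) = N ^ (t - ρ) := by
      rw [← hB.add]; congr 1; ring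
    have e2 : N ^ (t0 - M) * N ^ (-t - M) = N ^ (t0 - M - t - M) := by
      rw [← hB.add]; congr 1; ring
    have e3 : N ^ (-ρ - t0) * N ^ (-t - M) = N ^ (-ρ - t0 - t - M) := by
      rw [← hB.add]; congr 1; ring
    rw [sub_mul, e1, e2, e3]; ring
  have hM := hB.M_pos
  refine sp_of (N ^ (t0 - M) - N ^ (-ρ - t0)) (-1) (N ^ (M - ρ)) 0 ?_ ?_ ?_ ?_ ?_ ?_
  · refine Or.inl ⟨by intro h; linarith, by intro h; linarith, ?_⟩
    rw [f]; exact fpos a (by linarith)
  · rcases ht3 with ⟨h, h'⟩ | ⟨h, h', _, _⟩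
    · refine Or.inr ⟨Or.inl h, ?_⟩
      rw [f, h, h']; ring
    · refine Or.inl ⟨h.ne, by intro h3; linarith, ?_⟩
      rw [f]; exact fpos b h'
  · refine Or.inl ⟨by intro h; linarith, ?_⟩
    rw [g]
    have e1 := hB.big (x := c - ρ) (by linarith)
    have e2 := hB.pos (t0 - M - c - M)
    have e3 := le_one hB (e := -ρ - t0 - c - M) (by linarith)
    linarith
  · intro _ hpb
    rcases ht3 with ⟨h, h'⟩ | ⟨h, h', h'', _⟩
    · exact absurd h.symm hpb
    · rw [f]; exact fneg p h''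
  · intro _ _
    rw [f]; exact fneg q (by linarith)
  · intro _
    rw [g]
    have e1 := small1 hB (e := r - ρ) (by linarith)
    have e2 := small1 hB (e := t0 - M - r - M) (by linarith)
    have e3 := hB.pos (-ρ - t0 - r - M)
    linarith

/-- the general plane, `B = 1`, and its values -/
theorem gen {a b c p q r : ℝ} (hB : Big N M) (A t1 t2 : ℝ)
    (hu : 1 / 24 ≤ M - t2) (hA : |A| ≤ M + 1) (hc : G d1 d2 M c) (hr : G d1 d2 M r)
    (hcr : c ≠ r) (hgc : M - t2 + 1 / 24 ≤ t1 + c) (hgr : t1 + r ≤ M - t2 - 1 / 24)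
    (ha : (a ≠ p ∧ a ≠ q ∧ 0 < A + a - N ^ (a - t2) + N ^ (t1 - a)) ∨
      ((a = p ∨ a = q) ∧ A + a - N ^ (a - t2) + N ^ (t1 - a) = 0))
    (hb : (b ≠ p ∧ b ≠ q ∧ 0 < A + b - N ^ (b - t2) + N ^ (t1 - b)) ∨
      ((b = p ∨ b = q) ∧ A + b - N ^ (b - t2) + N ^ (t1 - b) = 0))
    (hp : p ≠ a → p ≠ b → A + p - N ^ (p - t2) + N ^ (t1 - p) < 0)
    (hq : q ≠ a → q ≠ b → A + q - N ^ (q - t2) + N ^ (t1 - q) < 0) :
    Sp N M {((0 : ℕ), a), (0, b), (1, c)} {((0 : ℕ), p), (0, q), (1, r)} := by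
  have f : ∀ t : ℝ, A + -N ^ (M - t2) * N ^ (t - M) + N ^ (t1 + M) * N ^ (-t - M) + 1 * t =
      A + t - N ^ (t - t2) + N ^ (t1 - t) := by
    intro t
    have e1 : N ^ (M - t2) * N ^ (t - M) = N ^ (t - t2) := by
      rw [← hB.add]; congr 1; ring
    have e2 : N ^ (t1 + M) * N ^ (-t - M) = N ^ (t1 - t) := by
      rw [← hB.add]; congr 1; ring
    rw [neg_mul, e1, e2]; ring
  have g : ∀ t : ℝ, -N ^ (M - t2) + N ^ (t1 + M) * N ^ (t - M) + A * N ^ (-t - M) + 1 * t =
      -N ^ (M - t2) + N ^ (t1 + t) + A * N ^ (-t - M) + t := by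
    intro t
    have e1 : N ^ (t1 + M) * N ^ (t - M) = N ^ (t1 + t) := by
      rw [← hB.add]; congr 1; ring
    rw [e1]; ring
  have c1 := hc.lo
  have c2 := hc.hi
  have r1 := hr.lo
  have r2 := hr.hi
  refine sp_of A (-N ^ (M - t2)) (N ^ (t1 + M)) 1 ?_ ?_ ?_ ?_ ?_ ?_
  · rw [f]; exact ha
  · rw [f]; exact hb
  · refine Or.inl ⟨hcr, ?_⟩
    rw [g]
    exact gpos hB hu hgc (by linarith) hA (abs_le.2 ⟨by linarith, by linarith⟩)
  · rw [f]; exact hp
  · rw [f]; exact hq
  · intro _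
    rw [g]
    exact gneg hB hu hgr (by linarith) hA (abs_le.2 ⟨by linarith, by linarith⟩)

end A1Aux

open A1Aux in
/-- the patterns with `a < p`, or `a = p` and `b < q` -/
theorem A1Aux.core {N M a b c p q r : ℝ} (hB : Big N M) (ha : G d0 d1 M a) (hb : G d0 d1 M b) (hc : G d1 d2 M c)
    (hp : G d0 d1 M p) (hq : G d0 d1 M q) (hr : G d1 d2 M r) (hab : a < b) (hpq : p < q)
    (h1 : a + b + c = M - 1 / 2) (h2 : p + q + r = M - 1 / 2)
    (hap : a < p ∨ (a = p ∧ b < q)) :
    Sp N M {((0 : ℕ), a), (0, b), (1, c)} {((0 : ℕ), p), (0, q), (1, r)} := by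
  have hM := hB.M_pos
  have a1 := ha.lo
  have a2 := ha.hi
  have b1 := hb.lo
  have b2 := hb.hi
  have c1 := hc.lo
  have c2 := hc.hi
  have p1 := hp.lo
  have p2 := hp.hi
  have q1 := hq.lo
  have q2 := hq.hi
  have r1 := hr.lo
  have r2 := hr.hi
  have gab := ha.gap hb hab
  have gpq := hp.gap hq hpq
  rcases hap with hap | ⟨hap, hbq⟩
  swap
  · -- `a = p < b < q`
    subst hap
    have gbq := hb.gap hq hbq
    have hrc : r + 1 ≤ c := hr.gap hc (by linarith)
    have s1 := small1 hB (e := a - (q - 1 / 12)) (by linarith)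
    have s1' := hB.pos (a - (q - 1 / 12))
    have s2 := small1 hB (e := a - 1 / 12 - a) (by linarith)
    have s2' := hB.pos (a - 1 / 12 - a)
    have s3 := small1 hB (e := b - (q - 1 / 12)) (by linarith)
    have s4 := hB.pos (a - 1 / 12 - b)
    have s5 := hB.big (x := q - (q - 1 / 12)) (by linarith)
    have s6 := small1 hB (e := a - 1 / 12 - q) (by linarith)
    refine gen hB (-a + N ^ (a - (q - 1 / 12)) - N ^ (a - 1 / 12 - a)) (a - 1 / 12) (q - 1 / 12)
      (by linarith) (abs_le.2 ⟨by linarith, by linarith⟩) hc hr (by intro h; linarith)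
      (by linarith) (by linarith) (Or.inr ⟨Or.inl rfl, by ring⟩)
      (Or.inl ⟨hab.ne', hbq.ne, by linarith⟩) (fun h _ => absurd rfl h) (fun _ _ => by linarith)
  have gap := ha.gap hp hap
  rcases le_or_gt b p with hbp | hbp
  · exact pat12 hB ha hb hc hp hq hr hab hpq h1 h2 hbp
  have gpb := hp.gap hb hbp
  rcases lt_trichotomy b q with hbq | hbq | hbq
  · -- `a < p < b < q`
    have gbq := hb.gap hq hbq
    have hrc : r + 1 ≤ c := hr.gap hc (by linarith)
    have s1 := small1 hB (e := a - (q - 1 / 12)) (by linarith)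
    have s2 := hB.big (x := p - 1 / 12 - a) (by linarith)
    have s3 := hB.pos (p - (q - 1 / 12))
    have s4 := small1 hB (e := p - 1 / 12 - p) (by linarith)
    have s5 := small1 hB (e := b - (q - 1 / 12)) (by linarith)
    have s6 := hB.pos (p - 1 / 12 - b)
    have s7 := hB.big (x := q - (q - 1 / 12)) (by linarith)
    have s8 := small1 hB (e := p - 1 / 12 - q) (by linarith)
    refine gen hB (-(b - 1 / 2)) (p - 1 / 12) (q - 1 / 12)
      (by linarith) (abs_le.2 ⟨by linarith, by linarith⟩) hc hr (by intro h; linarith)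
      (by linarith) (by linarith) (Or.inl ⟨hap.ne, by intro h; linarith, by linarith⟩)
      (Or.inl ⟨hbp.ne', hbq.ne, by linarith⟩) (fun _ _ => by linarith) (fun _ _ => by linarith)
  · -- `a < p < b = q`
    subst hbq
    have hrc : r + 1 ≤ c := hr.gap hc (by linarith)
    have s1 := small1 hB (e := a - (b + 1 / 12)) (by linarith)
    have s2 := hB.big (x := p - 1 / 12 - a) (by linarith)
    have s3 := hB.pos (p - (b + 1 / 12))
    have s4 := small1 hB (e := p - 1 / 12 - p) (by linarith)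
    have s5 := small1 hB (e := b - (b + 1 / 12)) (by linarith)
    have s5' := hB.pos (b - (b + 1 / 12))
    have s6 := hB.pos (p - 1 / 12 - b)
    have s6' := small1 hB (e := p - 1 / 12 - b) (by linarith)
    refine gen hB (-b + N ^ (b - (b + 1 / 12)) - N ^ (p - 1 / 12 - b)) (p - 1 / 12) (b + 1 / 12)
      (by linarith) (abs_le.2 ⟨by linarith, by linarith⟩) hc hr (by intro h; linarith)
      (by linarith) (by linarith) (Or.inl ⟨hap.ne, hab.ne, by linarith⟩)
      (Or.inr ⟨Or.inr rfl, by ring⟩) (fun _ _ => by linarith) (fun _ h => absurd rfl h)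
  · -- `a < p < q < b`
    have gqb := hq.gap hb hbq
    rcases lt_trichotomy r c with hrc | hrc | hrc
    · have hrc' := hr.gap hc hrc
      have s1 := small1 hB (e := a - (b + 1 / 12)) (by linarith)
      have s2 := hB.big (x := a + 1 / 2 - a) (by linarith)
      have s3 := hB.pos (p - (b + 1 / 12))
      have s4 := small1 hB (e := a + 1 / 2 - p) (by linarith)
      have s5 := hB.pos (q - (b + 1 / 12))
      have s6 := small1 hB (e := a + 1 / 2 - q) (by linarith)
      have s7 := small1 hB (e := b - (b + 1 / 12)) (by linarith)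
      have s8 := hB.pos (a + 1 / 2 - b)
      refine gen hB (-(b - 1 / 2)) (a + 1 / 2) (b + 1 / 12)
        (by linarith) (abs_le.2 ⟨by linarith, by linarith⟩) hc hr hrc.ne'
        (by linarith) (by linarith) (Or.inl ⟨hap.ne, by intro h; linarith, by linarith⟩)
        (Or.inl ⟨by intro h; linarith, hbq.ne', by linarith⟩) (fun _ _ => by linarith)
        (fun _ _ => by linarith)
    · -- `c = r`
      subst hrc
      obtain ⟨X, hX⟩ : ∃ X : ℝ, X = r + N ^ (a + 1 / 4 + r) - (b - 1 / 2) * N ^ (-r - M) :=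
        ⟨_, rfl⟩
      have hw : N ^ (-r - M) ≤ 1 := le_one hB (by linarith)
      have hw0 := hB.pos (-r - M)
      -- the error term on the first line
      have err : ∀ t : ℝ, t ≤ b → |X * N ^ (t - M)| ≤ 1 / 100 := by
        intro t ht
        have e1 : N ^ (a + 1 / 4 + r) * N ^ (t - M) = N ^ (a + 1 / 4 + r + t - M) := by
          rw [← hB.add]; congr 1; ring
        have e2 := small1 hB (e := a + 1 / 4 + r + t - M) (by linarith)
        have e2' := hB.pos (a + 1 / 4 + r + t - M)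
        have e3 := hB.small (x := t - M) (by linarith)
        have e3' := hB.pos (t - M)
        have e4 : |r + -((b - 1 / 2) * N ^ (-r - M))| ≤ 2 * (M + 1) := by
          have e5 : |(b - 1 / 2) * N ^ (-r - M)| ≤ (M + 1) * 1 := by
            rw [abs_mul, abs_of_pos hw0]
            exact mul_le_mul (abs_le.2 ⟨by linarith, by linarith⟩) hw hw0.le (by linarith)
          have e6 : |r| ≤ M + 1 := abs_le.2 ⟨by linarith, by linarith⟩
          have e7 := abs_add_le r (-((b - 1 / 2) * N ^ (-r - M)))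
          rw [abs_neg] at e7
          linarith
        have e8 : X * N ^ (t - M) = (r + -((b - 1 / 2) * N ^ (-r - M))) * N ^ (t - M) +
            N ^ (a + 1 / 4 + r + t - M) := by
          rw [← e1, hX]; ring
        have e9 : |(r + -((b - 1 / 2) * N ^ (-r - M))) * N ^ (t - M)| ≤
            2 * (M + 1) * N ^ (t - M) := by
          rw [abs_mul, abs_of_pos e3']
          exact mul_le_mul_of_nonneg_right e4 e3'.le
        rw [e8]
        have e10 := abs_add_le ((r + -((b - 1 / 2) * N ^ (-r - M))) * N ^ (t - M))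
          (N ^ (a + 1 / 4 + r + t - M))
        rw [abs_of_pos e2'] at e10
        nlinarith
      have f : ∀ t : ℝ, -(b - 1 / 2) + -X * N ^ (t - M) + N ^ (a + 1 / 4 + M) * N ^ (-t - M) +
          1 * t = t - (b - 1 / 2) - X * N ^ (t - M) + N ^ (a + 1 / 4 - t) := by
        intro t
        have e2 : N ^ (a + 1 / 4 + M) * N ^ (-t - M) = N ^ (a + 1 / 4 - t) := by
          rw [← hB.add]; congr 1; ring
        rw [e2]; ring
      have ea := abs_le.1 (err a (by linarith))
      have eb := abs_le.1 (err b le_rfl)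
      have ep := abs_le.1 (err p (by linarith))
      have eq := abs_le.1 (err q (by linarith))
      have s1 := hB.big (x := a + 1 / 4 - a) (by linarith)
      have s2 := small1 hB (e := a + 1 / 4 - p) (by linarith)
      have s3 := small1 hB (e := a + 1 / 4 - q) (by linarith)
      have s4 := hB.pos (a + 1 / 4 - b)
      refine sp_of (-(b - 1 / 2)) (-X) (N ^ (a + 1 / 4 + M)) 1 ?_ ?_ ?_ ?_ ?_ ?_
      · refine Or.inl ⟨hap.ne, by intro h; linarith, ?_⟩
        rw [f]; linarith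
      · refine Or.inl ⟨by intro h; linarith, hbq.ne', ?_⟩
        rw [f]; linarith
      · refine Or.inr ⟨rfl, ?_⟩
        have e1 : N ^ (a + 1 / 4 + M) * N ^ (r - M) = N ^ (a + 1 / 4 + r) := by
          rw [← hB.add]; congr 1; ring
        rw [e1, hX]; ring
      · intro _ _
        rw [f]; linarith
      · intro _ _
        rw [f]; linarith
      · intro h
        exact absurd rfl h
    · -- `c < r`: the plane for the exchanged lines
      have hcr' := hc.gap hr hrc
      obtain ⟨t1, ht1⟩ : ∃ t1 : ℝ, t1 = a - 1 / 12 := ⟨_, rfl⟩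
      obtain ⟨t2, ht2⟩ : ∃ t2 : ℝ, t2 = b - 1 / 12 := ⟨_, rfl⟩
      have f : ∀ t : ℝ, (a + 1 / 2) + N ^ (M - t2) * N ^ (t - M) +
          -N ^ (t1 + M) * N ^ (-t - M) + -1 * t =
          (a + 1 / 2) - t + N ^ (t - t2) - N ^ (t1 - t) := by
        intro t
        have e1 : N ^ (M - t2) * N ^ (t - M) = N ^ (t - t2) := by
          rw [← hB.add]; congr 1; ring
        have e2 : N ^ (t1 + M) * N ^ (-t - M) = N ^ (t1 - t) := by
          rw [← hB.add]; congr 1; ring
        rw [neg_mul, e1, e2]; ring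
      have g : ∀ t : ℝ, N ^ (M - t2) + -N ^ (t1 + M) * N ^ (t - M) +
          (a + 1 / 2) * N ^ (-t - M) + -1 * t =
          -(-N ^ (M - t2) + N ^ (t1 + t) + -(a + 1 / 2) * N ^ (-t - M) + t) := by
        intro t
        have e1 : N ^ (t1 + M) * N ^ (t - M) = N ^ (t1 + t) := by
          rw [← hB.add]; congr 1; ring
        rw [neg_mul, e1]; ring
      have s1 := hB.pos (a - t2)
      have s2 := small1 hB (e := t1 - a) (by linarith)
      have s3 := small1 hB (e := p - t2) (by linarith)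
      have s4 := hB.pos (t1 - p)
      have s5 := small1 hB (e := q - t2) (by linarith)
      have s6 := hB.pos (t1 - q)
      have s7 := hB.big (x := b - t2) (by linarith)
      have s8 := small1 hB (e := t1 - b) (by linarith)
      have hA : |(-(a + 1 / 2) : ℝ)| ≤ M + 1 := abs_le.2 ⟨by linarith, by linarith⟩
      refine sp_of (a + 1 / 2) (N ^ (M - t2)) (-N ^ (t1 + M)) (-1) ?_ ?_ ?_ ?_ ?_ ?_
      · refine Or.inl ⟨hap.ne, by intro h; linarith, ?_⟩
        rw [f]; linarith
      · refine Or.inl ⟨by intro h; linarith, hbq.ne', ?_⟩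
        rw [f]; linarith
      · refine Or.inl ⟨hrc.ne, ?_⟩
        rw [g]
        have := gneg hB (u := M - t2) (v := t1 + c) (w := -c - M) (A := -(a + 1 / 2)) (t := c)
          (by linarith) (by linarith) (by linarith) hA (abs_le.2 ⟨by linarith, by linarith⟩)
        linarith
      · intro _ _
        rw [f]; linarith
      · intro _ _
        rw [f]; linarith
      · intro _
        rw [g]
        have := gpos hB (u := M - t2) (v := t1 + r) (w := -r - M) (A := -(a + 1 / 2)) (t := r)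
          (by linarith) (by linarith) (by linarith) hA (abs_le.2 ⟨by linarith, by linarith⟩)
        linarith

/-- case A1 (00|1, 00|1) -/
theorem caseA1 {N M a b c p q r : ℝ} (hB : Big N M) (ha : G d0 d1 M a) (hb : G d0 d1 M b) (hc : G d1 d2 M c)
    (hp : G d0 d1 M p) (hq : G d0 d1 M q) (hr : G d1 d2 M r) (hab : a < b) (hpq : p < q)
    (h1 : a + b + c = M - 1 / 2) (h2 : p + q + r = M - 1 / 2) (hne : ¬ (a = p ∧ b = q)) :
    Sp N M {((0 : ℕ), a), (0, b), (1, c)} {((0 : ℕ), p), (0, q), (1, r)} := by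
  rcases lt_trichotomy a p with h | h | h
  · exact A1Aux.core hB ha hb hc hp hq hr hab hpq h1 h2 (Or.inl h)
  · rcases lt_trichotomy b q with h' | h' | h'
    · exact A1Aux.core hB ha hb hc hp hq hr hab hpq h1 h2 (Or.inr ⟨h, h'⟩)
    · exact absurd ⟨h, h'⟩ hne
    · exact (A1Aux.core hB hp hq hr ha hb hc hpq hab h2 h1 (Or.inr ⟨h.symm, h'⟩)).symm
  · exact (A1Aux.core hB hp hq hr ha hb hc hpq hab h2 h1 (Or.inl h)).symm

end Pool.Agent.K3G
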