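import Pool.Agent.K3G.Defs

set_option autoImplicit false

namespace Pool.Agent.K3G

variable {d0 d1 d2 : ℝ}

variable {N M : ℝ}

private theorem bigK (h : Big N M) {e : ℝ} (he : 1 / 24 ≤ e) : 1000 * (M + 1) ≤ N ^ e :=
  h.2.2.trans (Real.rpow_le_rpow_of_exponent_le h.2.1.le he)

private theorem smallK (h : Big N M) {e : ℝ} (he : e ≤ -(1 / 24)) :
    N ^ e ≤ 1 / (1000 * (M + 1)) := by
  have h1 := bigK h (e := -e) (by linarith)
  have hN : 0 < N := by linarith [h.2.1]
  rw [show e = -(-e) by ring, Real.rpow_neg hN.le, ← one_div]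
  exact one_div_le_one_div_of_le (by linarith [h.1]) h1

private theorem small1 (h : Big N M) {e : ℝ} (he : e ≤ -(1 / 24)) : N ^ e ≤ 1 / 1500 := by
  refine (smallK h he).trans (one_div_le_one_div_of_le (by norm_num) ?_)
  linarith [h.1]

private theorem le1 (h : Big N M) {e : ℝ} (he : e ≤ 0) : N ^ e ≤ 1 :=
  Real.rpow_le_one_of_one_le_of_nonpos h.2.1.le he

private theorem pos (h : Big N M) (e : ℝ) : 0 < N ^ e :=
  Real.rpow_pos_of_pos (by linarith [h.2.1]) e

private theorem mulp (h : Big N M) (x y z : ℝ) (hz : x + y = z) : N ^ x * N ^ y = N ^ z := by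
  rw [← hz, Real.rpow_add (by linarith [h.2.1])]

private theorem kapp (h : Big N M) {κ e : ℝ} (he : e ≤ 0) (hκ : |κ| ≤ M + 1) :
    -(M + 1) ≤ κ * N ^ e ∧ κ * N ^ e ≤ M + 1 := by
  rw [← abs_le, abs_mul, abs_of_pos (pos h e)]
  calc |κ| * N ^ e ≤ |κ| * 1 := mul_le_mul_of_nonneg_left (le1 h he) (abs_nonneg _)
    _ ≤ M + 1 := by linarith

/-! ### rule 1 -/

private theorem r1_f (h : Big N M) (a b κ t : ℝ) :
    κ + N ^ (M - b + 1 / 12) * N ^ (t - M) + -N ^ (M + a - 1 / 12) * N ^ (-t - M) + -1 * t =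
      κ - t + N ^ (t - b + 1 / 12) - N ^ (a - t - 1 / 12) := by
  have h1 := mulp h (M - b + 1 / 12) (t - M) (t - b + 1 / 12) (by ring)
  have h2 := mulp h (M + a - 1 / 12) (-t - M) (a - t - 1 / 12) (by ring)
  linear_combination h1 - h2

private theorem r1_g (h : Big N M) (a b κ t : ℝ) :
    -N ^ (M + a - 1 / 12) + κ * N ^ (t - M) + N ^ (M - b + 1 / 12) * N ^ (-t - M) + -1 * t =
      -N ^ (M + a - 1 / 12) - t + κ * N ^ (t - M) + N ^ (-b - t + 1 / 12) := by
  have h1 := mulp h (M - b + 1 / 12) (-t - M) (-b - t + 1 / 12) (by ring)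
  linear_combination h1

/-- `f b > 0` -/
private theorem r1_b (h : Big N M) {a b κ : ℝ} (hab : a + 1 ≤ b) (hb : b ≤ M)
    (hκ : |κ| ≤ M + 1) : 0 < κ - b + N ^ (b - b + 1 / 12) - N ^ (a - b - 1 / 12) := by
  have h1 := bigK h (e := b - b + 1 / 12) (by linarith)
  have h2 := le1 h (e := a - b - 1 / 12) (by linarith)
  have h3 := (abs_le.1 hκ).1
  linarith [h.1]

private theorem r1_lo (h : Big N M) {a b κ t : ℝ} (hta : t + 1 ≤ a) (hab : a + 1 ≤ b)
    (ht : -M ≤ t) (hκ : |κ| ≤ M + 1) :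
    κ - t + N ^ (t - b + 1 / 12) - N ^ (a - t - 1 / 12) < 0 := by
  have h1 := bigK h (e := a - t - 1 / 12) (by linarith)
  have h2 := le1 h (e := t - b + 1 / 12) (by linarith)
  have h3 := (abs_le.1 hκ).2
  linarith [h.1]

private theorem r1_mid (h : Big N M) {a b κ t : ℝ} (hta : a + 1 ≤ t) (htb : t + 1 ≤ b)
    (hκ : κ ≤ a + 1 / 2) :
    κ - t + N ^ (t - b + 1 / 12) - N ^ (a - t - 1 / 12) < 0 := by
  have h1 := pos h (a - t - 1 / 12)
  have h2 := small1 h (e := t - b + 1 / 12) (by linarith)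
  linarith

private theorem r1_c (h : Big N M) {a b c κ : ℝ} (ha : 1 / 6 - M ≤ a) (hs : a + b + c = -M - 1 / 2)
    (hc : c ≤ M) (hκ : |κ| ≤ M + 1) :
    0 < -N ^ (M + a - 1 / 12) - c + κ * N ^ (c - M) + N ^ (-b - c + 1 / 12) := by
  have h1 := bigK h (e := M + a - 1 / 12) (by linarith)
  have h2 := mulp h (M + a - 1 / 12) (2 / 3) (-b - c + 1 / 12) (by linarith)
  have h3 := bigK h (e := 2 / 3) (by norm_num)
  have h4 := kapp h (e := c - M) (by linarith) hκ
  have h5 : N ^ (M + a - 1 / 12) * 1500 ≤ N ^ (M + a - 1 / 12) * N ^ (2 / 3 : ℝ) :=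
    mul_le_mul_of_nonneg_left (by linarith [h.1]) (pos h _).le
  linarith [h.1, h4.1]

private theorem r1_r (h : Big N M) {a b p q r κ : ℝ} (ha : 1 / 6 - M ≤ a)
    (hs : p + q + r = -M - 1 / 2) (hpq : p + q + 1 ≤ a + b)
    (hr : r ≤ M) (hr' : -M ≤ r) (hκ : |κ| ≤ M + 1) :
    -N ^ (M + a - 1 / 12) - r + κ * N ^ (r - M) + N ^ (-b - r + 1 / 12) < 0 := by
  have h1 := bigK h (e := M + a - 1 / 12) (by linarith)
  have h2 := mulp h (M + a - 1 / 12) (p + q - a - b + 2 / 3) (-b - r + 1 / 12) (by linarith)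
  have h3 := small1 h (e := p + q - a - b + 2 / 3) (by linarith)
  have h4 := kapp h (e := r - M) (by linarith) hκ
  have h5 : N ^ (M + a - 1 / 12) * N ^ (p + q - a - b + 2 / 3) ≤
      N ^ (M + a - 1 / 12) * (1 / 1500) :=
    mul_le_mul_of_nonneg_left h3 (pos h _).le
  linarith [h.1, h4.2]

/-! ### rule 2 -/

private theorem r2_f (h : Big N M) (p q κ t : ℝ) :
    -κ + -N ^ (M - q - 5 / 12) * N ^ (t - M) + N ^ (M + p + 5 / 12) * N ^ (-t - M) + 1 * t =
      t - κ - N ^ (t - q - 5 / 12) + N ^ (p - t + 5 / 12) := by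
  have h1 := mulp h (M - q - 5 / 12) (t - M) (t - q - 5 / 12) (by ring)
  have h2 := mulp h (M + p + 5 / 12) (-t - M) (p - t + 5 / 12) (by ring)
  linear_combination h2 - h1

private theorem r2_g (h : Big N M) (p q κ t : ℝ) :
    N ^ (M + p + 5 / 12) + -κ * N ^ (t - M) + -N ^ (M - q - 5 / 12) * N ^ (-t - M) + 1 * t =
      N ^ (M + p + 5 / 12) + t - κ * N ^ (t - M) - N ^ (-q - t - 5 / 12) := by
  have h1 := mulp h (M - q - 5 / 12) (-t - M) (-q - t - 5 / 12) (by ring)
  linear_combination -h1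

private theorem r2_p (h : Big N M) {p q κ : ℝ} (hpq : p + 1 ≤ q) (hp : -M ≤ p)
    (hκ : |κ| ≤ M + 1) : 0 < p - κ - N ^ (p - q - 5 / 12) + N ^ (p - p + 5 / 12) := by
  have h1 := bigK h (e := p - p + 5 / 12) (by linarith)
  have h2 := le1 h (e := p - q - 5 / 12) (by linarith)
  have h3 := (abs_le.1 hκ).2
  linarith [h.1]

private theorem r2_mid (h : Big N M) {p q κ t : ℝ} (htp : p + 1 ≤ t) (htq : t + 1 ≤ q)
    (hκ : q - 1 / 2 ≤ κ) :
    t - κ - N ^ (t - q - 5 / 12) + N ^ (p - t + 5 / 12) < 0 := by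
  have h1 := pos h (t - q - 5 / 12)
  have h2 := small1 h (e := p - t + 5 / 12) (by linarith)
  linarith

private theorem r2_hi (h : Big N M) {p q κ t : ℝ} (htq : q + 1 ≤ t) (hpq : p + 1 ≤ q)
    (ht : t ≤ M) (hκ : |κ| ≤ M + 1) :
    t - κ - N ^ (t - q - 5 / 12) + N ^ (p - t + 5 / 12) < 0 := by
  have h1 := bigK h (e := t - q - 5 / 12) (by linarith)
  have h2 := le1 h (e := p - t + 5 / 12) (by linarith)
  have h3 := (abs_le.1 hκ).1
  linarith [h.1]

private theorem r2_r (h : Big N M) {p q r κ : ℝ} (hp : 1 / 6 - M ≤ p)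
    (hs : p + q + r = -M - 1 / 2) (hr : r ≤ M) (hr' : -M ≤ r) (hκ : |κ| ≤ M + 1) :
    0 < N ^ (M + p + 5 / 12) + r - κ * N ^ (r - M) - N ^ (-q - r - 5 / 12) := by
  have h1 := bigK h (e := M + p + 5 / 12) (by linarith)
  have h2 := mulp h (M + p + 5 / 12) (-(1 / 3)) (-q - r - 5 / 12) (by linarith)
  have h3 := small1 h (e := -(1 / 3)) (by norm_num)
  have h4 := kapp h (e := r - M) (by linarith) hκ
  have h5 : N ^ (M + p + 5 / 12) * N ^ (-(1 / 3) : ℝ) ≤ N ^ (M + p + 5 / 12) * (1 / 1500) :=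
    mul_le_mul_of_nonneg_left h3 (pos h _).le
  linarith [h.1, h4.2]

private theorem r2_c (h : Big N M) {a b c p q κ : ℝ} (hp : 1 / 6 - M ≤ p)
    (hs : a + b + c = -M - 1 / 2) (hpq : p + q + 1 ≤ a + b)
    (hc : c ≤ M) (hκ : |κ| ≤ M + 1) :
    N ^ (M + p + 5 / 12) + c - κ * N ^ (c - M) - N ^ (-q - c - 5 / 12) < 0 := by
  have h1 := bigK h (e := M + p + 5 / 12) (by linarith)
  have h2 := mulp h (M + p + 5 / 12) (a + b - p - q - 1 / 3) (-q - c - 5 / 12) (by linarith)
  have h3 := bigK h (e := a + b - p - q - 1 / 3) (by linarith)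
  have h4 := kapp h (e := c - M) (by linarith) hκ
  have h5 : N ^ (M + p + 5 / 12) * 1500 ≤ N ^ (M + p + 5 / 12) * N ^ (a + b - p - q - 1 / 3) :=
    mul_le_mul_of_nonneg_left (by linarith [h.1]) (pos h _).le
  linarith [h.1, h4.1]

/-! ### rule 3 -/

private theorem r3 (h : Big N M) {a b c : ℝ} (ha : 1 / 6 - M ≤ a) (hab : a + 2 ≤ b) (hb : b ≤ M)
    (hs : a + b + c = -M - 1 / 2) (hc : c ≤ M) (hc' : -M ≤ c) :
    ∃ A1 A2 : ℝ, A2 + -(b - 1 / 2) * N ^ (c - M) + A1 * N ^ (-c - M) + 1 * c = 0 ∧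
      0 < -(b - 1 / 2) + A1 * N ^ (a - M) + A2 * N ^ (-a - M) + 1 * a ∧
      0 < -(b - 1 / 2) + A1 * N ^ (b - M) + A2 * N ^ (-b - M) + 1 * b ∧
      ∀ t, a + 1 ≤ t → t + 1 ≤ b →
        -(b - 1 / 2) + A1 * N ^ (t - M) + A2 * N ^ (-t - M) + 1 * t < 0 := by
  obtain ⟨W, hW⟩ : ∃ W : ℝ, W = N ^ (M + a + 1 / 4) + c - (b - 1 / 2) * N ^ (c - M) := ⟨_, rfl⟩
  have hG := bigK h (e := M + a + 1 / 4) (by linarith)
  have hκ : |b - 1 / 2| ≤ M + 1 := by rw [abs_le]; constructor <;> linarith [h.1]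
  have h4 := kapp h (e := c - M) (by linarith) hκ
  have hW0 : 0 < W := by rw [hW]; linarith [h.1, h4.2]
  have hW2 : W ≤ N ^ (M + a + 1 / 4) * 2 := by rw [hW]; linarith [h.1, h4.1]
  have key : ∀ t, t ≤ b → 0 ≤ N ^ (c + M) * W * N ^ (t - M) ∧
      N ^ (c + M) * W * N ^ (t - M) ≤ 1 / 750 := by
    intro t ht
    have e1 : N ^ (c + M) * W * N ^ (t - M) = N ^ (c + t) * W := by
      have := mulp h (c + M) (t - M) (c + t) (by ring)
      linear_combination W * this
    rw [e1]
    refine ⟨mul_nonneg (pos h _).le hW0.le, ?_⟩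
    calc N ^ (c + t) * W ≤ N ^ (c + t) * (N ^ (M + a + 1 / 4) * 2) :=
          mul_le_mul_of_nonneg_left hW2 (pos h _).le
      _ = N ^ (t - b - 1 / 4) * 2 := by
          have := mulp h (c + t) (M + a + 1 / 4) (t - b - 1 / 4) (by linarith)
          linear_combination 2 * this
      _ ≤ 1 / 750 := by
          have := small1 h (e := t - b - 1 / 4) (by linarith)
          linarith
  have hf2 : ∀ t, N ^ (M + a + 1 / 4) * N ^ (-t - M) = N ^ (a - t + 1 / 4) := fun t =>
    mulp h _ _ _ (by ring)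
  refine ⟨-(N ^ (c + M) * W), N ^ (M + a + 1 / 4), ?_, ?_, ?_, ?_⟩
  · have h5 := mulp h (c + M) (-c - M) 0 (by ring)
    rw [Real.rpow_zero] at h5
    rw [hW]
    linear_combination -(N ^ (M + a + 1 / 4) + c - (b - 1 / 2) * N ^ (c - M)) * h5
  · have h5 := key a (by linarith)
    have h6 := hf2 a
    have h7 := bigK h (e := a - a + 1 / 4) (by linarith)
    have h8 := (abs_le.1 hκ).2
    rw [h6]
    linarith [h.1, h5.2]
  · have h5 := key b le_rfl
    have h6 := pos h (a - b + 1 / 4)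
    rw [hf2 b]
    linarith [h5.2]
  · intro t ht1 ht2
    have h5 := key t (by linarith)
    have h6 := small1 h (e := a - t + 1 / 4) (by linarith)
    rw [hf2 t]
    linarith [h5.1]

/-! ### assembly -/

private theorem mkA (A0 A1 A2 B : ℝ) {a b c p q r : ℝ}
    (ha : (a ≠ p ∧ a ≠ q ∧ 0 < A0 + A1 * N ^ (a - M) + A2 * N ^ (-a - M) + B * a) ∨
      ((a = p ∨ a = q) ∧ A0 + A1 * N ^ (a - M) + A2 * N ^ (-a - M) + B * a = 0))
    (hb : (b ≠ p ∧ b ≠ q ∧ 0 < A0 + A1 * N ^ (b - M) + A2 * N ^ (-b - M) + B * b) ∨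
      ((b = p ∨ b = q) ∧ A0 + A1 * N ^ (b - M) + A2 * N ^ (-b - M) + B * b = 0))
    (hc : (c ≠ r ∧ 0 < A2 + A0 * N ^ (c - M) + A1 * N ^ (-c - M) + B * c) ∨
      (c = r ∧ A2 + A0 * N ^ (c - M) + A1 * N ^ (-c - M) + B * c = 0))
    (hp : A0 + A1 * N ^ (p - M) + A2 * N ^ (-p - M) + B * p < 0 ∨ p = a ∨ p = b)
    (hq : A0 + A1 * N ^ (q - M) + A2 * N ^ (-q - M) + B * q < 0 ∨ q = a ∨ q = b)
    (hr : A2 + A0 * N ^ (r - M) + A1 * N ^ (-r - M) + B * r < 0 ∨ r = c) :
    Sp N M {(0, a), (0, b), (2, c)} {(0, p), (0, q), (2, r)} := by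
  refine ⟨A0, A1, A2, B, ?_, ?_, ?_⟩
  · intro v hv hv'
    simp only [Set.mem_insert_iff, Set.mem_singleton_iff] at hv hv'
    push Not at hv'
    rcases hv with rfl | rfl | rfl
    · rcases ha with ⟨_, _, h⟩ | ⟨h | h, _⟩
      · simpa [val] using h
      · exact absurd (by rw [h]) hv'.1
      · exact absurd (by rw [h]) hv'.2.1
    · rcases hb with ⟨_, _, h⟩ | ⟨h | h, _⟩
      · simpa [val] using h
      · exact absurd (by rw [h]) hv'.1
      · exact absurd (by rw [h]) hv'.2.1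
    · rcases hc with ⟨_, h⟩ | ⟨h, _⟩
      · simpa [val] using h
      · exact absurd (by rw [h]) hv'.2.2
  · intro v hv hv'
    simp only [Set.mem_insert_iff, Set.mem_singleton_iff] at hv hv'
    push Not at hv'
    rcases hv with rfl | rfl | rfl
    · rcases hp with h | h | h
      · simpa [val] using h
      · exact absurd (by rw [h]) hv'.1
      · exact absurd (by rw [h]) hv'.2.1
    · rcases hq with h | h | h
      · simpa [val] using h
      · exact absurd (by rw [h]) hv'.1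
      · exact absurd (by rw [h]) hv'.2.1
    · rcases hr with h | h
      · simpa [val] using h
      · exact absurd (by rw [h]) hv'.2.2
  · intro v hv hv'
    simp only [Set.mem_insert_iff, Set.mem_singleton_iff] at hv hv'
    rcases hv with rfl | rfl | rfl
    · rcases ha with ⟨h1, h2, _⟩ | ⟨_, h⟩
      · simp [h1, h2] at hv'
      · simpa [val] using h
    · rcases hb with ⟨h1, h2, _⟩ | ⟨_, h⟩
      · simp [h1, h2] at hv'
      · simpa [val] using h
    · rcases hc with ⟨h1, _⟩ | ⟨_, h⟩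
      · simp [h1] at hv'
      · simpa [val] using h

/-- the case `c < r` -/
private theorem lt_case (h : Big N M) {a b c p q r : ℝ} (ga : G d0 d1 M a) (gb : G d0 d1 M b) (gc : G d2 d0 M c)
    (gp : G d0 d1 M p) (gq : G d0 d1 M q) (gr : G d2 d0 M r) (hab : a < b) (hpq : p < q)
    (hs : a + b + c = -M - 1 / 2) (hs' : p + q + r = -M - 1 / 2) (hcr : c < r) :
    Sp N M {(0, a), (0, b), (2, c)} {(0, p), (0, q), (2, r)} := by
  have hM := h.1
  have la := ga.lo
  have lb := gb.lo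
  have lc := gc.lo
  have lp := gp.lo
  have lq := gq.lo
  have lr := gr.lo
  have ua := ga.hi
  have ub := gb.hi
  have uc := gc.hi
  have up := gp.hi
  have uq := gq.hi
  have ur := gr.hi
  have hab1 := ga.gap gb hab
  have hpq1 := gp.gap gq hpq
  have hcr1 := gc.gap gr hcr
  have hsum : p + q + 1 ≤ a + b := by linarith
  rcases lt_or_ge q b with hqb | hqb
  · -- rule 1
    have hqb1 := gq.gap gb hqb
    by_cases hap : a = p ∨ a = q
    · obtain ⟨κ, hκ⟩ : ∃ κ : ℝ, κ = a - N ^ (a - b + 1 / 12) + N ^ (-(1 / 12) : ℝ) := ⟨_, rfl⟩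
      have k1 := small1 h (e := a - b + 1 / 12) (by linarith)
      have k2 := pos h (a - b + 1 / 12)
      have k3 := small1 h (e := -(1 / 12)) (by norm_num)
      have k4 := pos h (-(1 / 12))
      have hκ1 : |κ| ≤ M + 1 := by rw [abs_le]; constructor <;> linarith
      have hκ2 : κ ≤ a + 1 / 2 := by linarith
      have hf : ∀ t, G d0 d1 M t → t + 1 ≤ b → t ≠ a →
          κ - t + N ^ (t - b + 1 / 12) - N ^ (a - t - 1 / 12) < 0 := by
        intro t gt htb hta
        rcases lt_or_gt_of_ne hta with h1 | h1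
        · exact r1_lo h (gt.gap ga h1) hab1 (by linarith [gt.lo]) hκ1
        · exact r1_mid h (ga.gap gt h1) htb hκ2
      apply mkA κ (N ^ (M - b + 1 / 12)) (-N ^ (M + a - 1 / 12)) (-1)
      · right
        refine ⟨hap, ?_⟩
        rw [r1_f h, hκ, show a - a - 1 / 12 = (-(1 / 12) : ℝ) by ring]
        ring
      · left
        refine ⟨by intro e; linarith, by intro e; linarith, ?_⟩
        rw [r1_f h]
        exact r1_b h hab1 (by linarith) hκ1
      · left
        refine ⟨hcr.ne, ?_⟩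
        rw [r1_g h]
        exact r1_c h la hs (by linarith) hκ1
      · by_cases e : p = a
        · exact Or.inr (Or.inl e)
        · left
          rw [r1_f h]
          exact hf p gp (by linarith) e
      · by_cases e : q = a
        · exact Or.inr (Or.inl e)
        · left
          rw [r1_f h]
          exact hf q gq hqb1 e
      · left
        rw [r1_g h]
        exact r1_r h la hs' hsum (by linarith) (by linarith) hκ1
    · push Not at hap
      have hκ1 : |a + 1 / 2| ≤ M + 1 := by rw [abs_le]; constructor <;> linarith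
      have hf : ∀ t, G d0 d1 M t → t + 1 ≤ b → t ≠ a →
          a + 1 / 2 - t + N ^ (t - b + 1 / 12) - N ^ (a - t - 1 / 12) < 0 := by
        intro t gt htb hta
        rcases lt_or_gt_of_ne hta with h1 | h1
        · exact r1_lo h (gt.gap ga h1) hab1 (by linarith [gt.lo]) hκ1
        · exact r1_mid h (ga.gap gt h1) htb le_rfl
      apply mkA (a + 1 / 2) (N ^ (M - b + 1 / 12)) (-N ^ (M + a - 1 / 12)) (-1)
      · left
        refine ⟨hap.1, hap.2, ?_⟩
        rw [r1_f h]
        have k3 := small1 h (e := a - a - 1 / 12) (by linarith)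
        have k4 := pos h (a - b + 1 / 12)
        linarith
      · left
        refine ⟨by intro e; linarith, by intro e; linarith, ?_⟩
        rw [r1_f h]
        exact r1_b h hab1 (by linarith) hκ1
      · left
        refine ⟨hcr.ne, ?_⟩
        rw [r1_g h]
        exact r1_c h la hs (by linarith) hκ1
      · left
        rw [r1_f h]
        exact hf p gp (by linarith) (Ne.symm hap.1)
      · left
        rw [r1_f h]
        exact hf q gq hqb1 (Ne.symm hap.2)
      · left
        rw [r1_g h]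
        exact r1_r h la hs' hsum (by linarith) (by linarith) hκ1
  · -- rule 2
    have hpa : p < a := by linarith
    have hpa1 := gp.gap ga hpa
    apply Sp.symm
    by_cases hqb2 : q = b
    · obtain ⟨κ, hκ⟩ : ∃ κ : ℝ, κ = q - N ^ (-(5 / 12) : ℝ) + N ^ (p - q + 5 / 12) := ⟨_, rfl⟩
      have k1 := small1 h (e := -(5 / 12)) (by norm_num)
      have k2 := pos h (-(5 / 12))
      have k3 := small1 h (e := p - q + 5 / 12) (by linarith)
      have k4 := pos h (p - q + 5 / 12)
      have hκ1 : |κ| ≤ M + 1 := by rw [abs_le]; constructor <;> linarith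
      have hκ2 : q - 1 / 2 ≤ κ := by linarith
      apply mkA (-κ) (-N ^ (M - q - 5 / 12)) (N ^ (M + p + 5 / 12)) 1
      · left
        refine ⟨hpa.ne, by intro e; linarith, ?_⟩
        rw [r2_f h]
        exact r2_p h hpq1 (by linarith) hκ1
      · right
        refine ⟨Or.inr hqb2, ?_⟩
        rw [r2_f h, hκ, show q - q - 5 / 12 = (-(5 / 12) : ℝ) by ring]
        ring
      · left
        refine ⟨hcr.ne', ?_⟩
        rw [r2_g h]
        exact r2_r h lp hs' (by linarith) (by linarith) hκ1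
      · left
        rw [r2_f h]
        exact r2_mid h hpa1 (by linarith) hκ2
      · exact Or.inr (Or.inr hqb2.symm)
      · left
        rw [r2_g h]
        exact r2_c h lp hs hsum (by linarith) hκ1
    · have hbq : b < q := lt_of_le_of_ne hqb (Ne.symm hqb2)
      have hbq1 := gb.gap gq hbq
      have hκ1 : |q - 1 / 2| ≤ M + 1 := by rw [abs_le]; constructor <;> linarith
      apply mkA (-(q - 1 / 2)) (-N ^ (M - q - 5 / 12)) (N ^ (M + p + 5 / 12)) 1
      · left
        refine ⟨hpa.ne, by intro e; linarith, ?_⟩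
        rw [r2_f h]
        exact r2_p h hpq1 (by linarith) hκ1
      · left
        refine ⟨by intro e; linarith, by intro e; linarith, ?_⟩
        rw [r2_f h]
        have k1 := small1 h (e := q - q - 5 / 12) (by linarith)
        have k2 := pos h (p - q + 5 / 12)
        linarith
      · left
        refine ⟨hcr.ne', ?_⟩
        rw [r2_g h]
        exact r2_r h lp hs' (by linarith) (by linarith) hκ1
      · left
        rw [r2_f h]
        exact r2_mid h hpa1 (by linarith) le_rfl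
      · left
        rw [r2_f h]
        exact r2_mid h (by linarith) hbq1 le_rfl
      · left
        rw [r2_g h]
        exact r2_c h lp hs hsum (by linarith) hκ1

/-- the case `c = r` -/
private theorem eq_case (h : Big N M) {a b c p q : ℝ} (ga : G d0 d1 M a) (gb : G d0 d1 M b) (gc : G d2 d0 M c)
    (gp : G d0 d1 M p) (gq : G d0 d1 M q) (hab : a < b) (hpq : p < q)
    (hs : a + b + c = -M - 1 / 2) (hs' : p + q + c = -M - 1 / 2) (hap : a < p) :
    Sp N M {(0, a), (0, b), (2, c)} {(0, p), (0, q), (2, c)} := by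
  have hap1 := ga.gap gp hap
  have hpq1 := gp.gap gq hpq
  have hqb : q < b := by linarith
  have hqb1 := gq.gap gb hqb
  obtain ⟨A1, A2, h1, h2, h3, h4⟩ := r3 h (a := a) (b := b) (c := c) ga.lo (by linarith)
    (by linarith [gb.hi]) hs (by linarith [gc.hi]) (by linarith [gc.lo])
  apply mkA (-(b - 1 / 2)) A1 A2 1
  · exact Or.inl ⟨hap.ne, by intro e; linarith, h2⟩
  · exact Or.inl ⟨by intro e; linarith, by intro e; linarith, h3⟩
  · exact Or.inr ⟨rfl, h1⟩
  · exact Or.inl (h4 p hap1 (by linarith))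
  · exact Or.inl (h4 q (by linarith) hqb1)
  · exact Or.inr rfl

/-- case A2 (00|2, 00|2) -/
theorem caseA2 {N M a b c p q r : ℝ} (hB : Big N M) (ha : G d0 d1 M a) (hb : G d0 d1 M b) (hc : G d2 d0 M c)
    (hp : G d0 d1 M p) (hq : G d0 d1 M q) (hr : G d2 d0 M r) (hab : a < b) (hpq : p < q)
    (h1 : a + b + c = -M - 1 / 2) (h2 : p + q + r = -M - 1 / 2) (hne : ¬ (a = p ∧ b = q)) :
    Sp N M {((0 : ℕ), a), (0, b), (2, c)} {((0 : ℕ), p), (0, q), (2, r)} := by
  rcases lt_trichotomy c r with hcr | hcr | hcr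
  · exact lt_case hB ha hb hc hp hq hr hab hpq h1 h2 hcr
  · subst hcr
    rcases lt_trichotomy a p with hap | hap | hap
    · exact eq_case hB ha hb hc hp hq hab hpq h1 h2 hap
    · exact absurd ⟨hap, by linarith⟩ hne
    · exact (eq_case hB hp hq hc ha hb hpq hab h2 h1 hap).symm
  · exact (lt_case hB hp hq hr ha hb hc hpq hab h2 h1 hcr).symm

end Pool.Agent.K3G
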