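import Pool.Agent.K3G.Defs

set_option autoImplicit false

namespace Pool.Agent.K3G

variable {d0 d1 d2 : ℝ}

private lemma Sp_of3 {N M a b c p q r : ℝ} (A0 A1 A2 B : ℝ)
    (ha : a ≠ p → a ≠ q → 0 < A0 + A1 * N ^ (a - M) + A2 * N ^ (-a - M) + B * a)
    (hb : b ≠ p → b ≠ q → 0 < A0 + A1 * N ^ (b - M) + A2 * N ^ (-b - M) + B * b)
    (hp : p ≠ a → p ≠ b → A0 + A1 * N ^ (p - M) + A2 * N ^ (-p - M) + B * p < 0)
    (hq : q ≠ a → q ≠ b → A0 + A1 * N ^ (q - M) + A2 * N ^ (-q - M) + B * q < 0)
    (ea : a = p ∨ a = q → A0 + A1 * N ^ (a - M) + A2 * N ^ (-a - M) + B * a = 0)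
    (eb : b = p ∨ b = q → A0 + A1 * N ^ (b - M) + A2 * N ^ (-b - M) + B * b = 0)
    (hc : 0 < A1 + A2 * N ^ (c - M) + A0 * N ^ (-c - M) + B * c)
    (hr : A2 + A0 * N ^ (r - M) + A1 * N ^ (-r - M) + B * r < 0) :
    Sp N M {((0 : ℕ), a), (0, b), (1, c)} {((0 : ℕ), p), (0, q), (2, r)} := by
  refine ⟨A0, A1, A2, B, ?_, ?_, ?_⟩
  · intro v hv hv'
    simp only [Set.mem_insert_iff, Set.mem_singleton_iff] at hv hv'
    rcases hv with rfl | rfl | rfl
    · rw [val_zero]
      simp only [Prod.mk.injEq, true_and, not_or] at hv'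
      exact ha hv'.1 hv'.2.1
    · rw [val_zero]
      simp only [Prod.mk.injEq, true_and, not_or] at hv'
      exact hb hv'.1 hv'.2.1
    · rw [val_one]
      exact hc
  · intro v hv hv'
    simp only [Set.mem_insert_iff, Set.mem_singleton_iff] at hv hv'
    rcases hv with rfl | rfl | rfl
    · rw [val_zero]
      simp only [Prod.mk.injEq, true_and, not_or] at hv'
      exact hp hv'.1 hv'.2.1
    · rw [val_zero]
      simp only [Prod.mk.injEq, true_and, not_or] at hv'
      exact hq hv'.1 hv'.2.1
    · rw [val_two]
      exact hr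
  · intro v hv hv'
    simp only [Set.mem_insert_iff, Set.mem_singleton_iff] at hv hv'
    rcases hv with rfl | rfl | rfl
    · rw [val_zero]
      simp only [Prod.mk.injEq, true_and] at hv'
      refine ea ?_
      rcases hv' with h | h | h
      · exact Or.inl h
      · exact Or.inr h
      · exact absurd h.1 (by norm_num)
    · rw [val_zero]
      simp only [Prod.mk.injEq, true_and] at hv'
      refine eb ?_
      rcases hv' with h | h | h
      · exact Or.inl h
      · exact Or.inr h
      · exact absurd h.1 (by norm_num)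
    · exfalso
      simp only [Prod.mk.injEq] at hv'
      rcases hv' with h | h | h
      · exact absurd h.1 (by norm_num)
      · exact absurd h.1 (by norm_num)
      · exact absurd h.1 (by norm_num)

/-- the single vertices -/
private lemma far3 {M K A A' A0 X y t : ℝ} (hM : 1 / 2 ≤ M) (hK : K = 8 * (M + 1)) (hA : K ≤ A)
    (hX : X ≤ A / 2) (h0 : |A0| ≤ M + 2) (hy0 : 0 < y) (hy : y * (1000 * (M + 1)) ≤ 1)
    (ht : |t| ≤ M) (h : A' = A - X + A0 * y + t) : 0 < A' := by
  have h1 : |A0 * y| ≤ 1 / 2 := by
    rw [abs_mul, abs_of_pos hy0]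
    have h2 : |A0| * y ≤ (M + 2) * y := mul_le_mul_of_nonneg_right h0 hy0.le
    have h3 : 0 ≤ y * M := by positivity
    nlinarith
  have h2 := (abs_le.1 h1).1
  have h3 := (abs_le.1 ht).1
  rw [h]
  linarith

/-- case A3 (00|1, 00|2) -/
theorem caseA3 {N M a b c p q r : ℝ} (hB : Big N M) (ha : G d0 d1 M a) (hb : G d0 d1 M b) (hc : G d1 d2 M c)
    (hp : G d0 d1 M p) (hq : G d0 d1 M q) (hr : G d2 d0 M r) (hab : a < b) (hpq : p < q)
    (h1 : a + b + c = M - 1 / 2) (h2 : p + q + r = -M - 1 / 2) :
    Sp N M {((0 : ℕ), a), (0, b), (1, c)} {((0 : ℕ), p), (0, q), (2, r)} := by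
  have hM := hB.1
  obtain ⟨K, hK⟩ : ∃ K : ℝ, K = 8 * (M + 1) := ⟨_, rfl⟩
  have hK0 : 0 < K := by rw [hK]; linarith
  have hab1 := ha.gap hb hab
  have hpq1 := hp.gap hq hpq
  have la := ha.lo
  have lb := hb.lo
  have lc := hc.lo
  have lp := hp.lo
  have lq := hq.lo
  have lr := hr.lo
  have ua := ha.hi
  have ub := hb.hi
  have uc := hc.hi
  have up := hp.hi
  have uq := hq.hi
  have ur := hr.hi
  have tc : |c| ≤ M := abs_le.2 ⟨by linarith, by linarith⟩
  have tr : |r| ≤ M := abs_le.2 ⟨by linarith, by linarith⟩
  -- the small powers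
  have sm : ∀ x : ℝ, x ≤ -(1 / 24) → 0 < K * N ^ x ∧ K * N ^ x ≤ 8 / 1000 := by
    intro x hx
    refine ⟨mul_pos hK0 (hB.pos x), ?_⟩
    have := hB.small hx
    rw [hK]
    linarith
  have ad : ∀ x y : ℝ, K * N ^ x * N ^ y = K * N ^ (x + y) := by
    intro x y
    rw [hB.add]
    ring
  have gp : ∀ x y : ℝ, x + 1 / 24 ≤ y → 1000 * (K * N ^ x) ≤ K * N ^ y := by
    intro x y hxy
    have h3 := hB.gap hxy
    have h4 : N ^ x * 1000 ≤ N ^ y := by
      have := hB.pos x
      have h5 : 0 ≤ N ^ x * M := by positivity
      linarith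
    have := mul_le_mul_of_nonneg_left h4 hK0.le
    linarith
  have bg : ∀ x : ℝ, 1 / 24 ≤ x → K ≤ K * N ^ x := by
    intro x hx
    have h3 := hB.big hx
    have : 1 ≤ N ^ x := by linarith
    nlinarith
  have yc := hB.small (x := -c - M) (by linarith)
  have yr := hB.small (x := r - M) (by linarith)
  have yc0 := hB.pos (-c - M)
  have yr0 := hB.pos (r - M)
  rcases le_or_gt q a with hqa | hqa
  · -- case 1
    have s1 := sm (q - M) (by linarith)
    have s2 := sm (-q - M) (by linarith)
    have s3 := sm (c - M) (by linarith)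
    have s4 := sm (-r - M) (by linarith)
    have hmono : ∀ t, q < t → K * N ^ (q - M) ≤ K * N ^ (t - M) ∧
        K * N ^ (-t - M) ≤ K * N ^ (-q - M) := fun t ht =>
      ⟨mul_le_mul_of_nonneg_left (hB.mono (by linarith)) hK0.le,
        mul_le_mul_of_nonneg_left (hB.mono (by linarith)) hK0.le⟩
    obtain ⟨η, hη⟩ : ∃ η : ℝ, η = if q = a then 0 else 1 / 2 := ⟨_, rfl⟩
    have hη0 : 0 ≤ η := by rw [hη]; split_ifs <;> norm_num
    have hη3 : η ≤ 1 / 2 := by rw [hη]; split_ifs <;> norm_num
    obtain ⟨A0, hA0⟩ : ∃ A0 : ℝ, A0 = -q - K * N ^ (q - M) + K * N ^ (-q - M) - η := ⟨_, rfl⟩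
    have h0 : |A0| ≤ M + 2 := by
      rw [hA0, abs_le]
      constructor <;> linarith
    refine Sp_of3 A0 K (-K) 1 ?_ ?_ ?_ ?_ ?_ ?_ ?_ ?_
    · intro h3 h4
      have h5 : q < a := lt_of_le_of_ne hqa (Ne.symm h4)
      have h6 := hq.gap ha h5
      obtain ⟨h7, h8⟩ := hmono a h5
      rw [hA0]
      linarith
    · intro h3 h4
      have h5 : q < b := by linarith
      obtain ⟨h7, h8⟩ := hmono b h5
      rw [hA0]
      linarith
    · intro h3 h4
      have h7 : K * N ^ (p - M) ≤ K * N ^ (q - M) :=
        mul_le_mul_of_nonneg_left (hB.mono (by linarith)) hK0.le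
      have h8 : K * N ^ (-q - M) ≤ K * N ^ (-p - M) :=
        mul_le_mul_of_nonneg_left (hB.mono (by linarith)) hK0.le
      rw [hA0]
      linarith
    · intro h3 h4
      have h5 : η = 1 / 2 := by rw [hη, if_neg h3]
      rw [hA0, h5]
      linarith
    · intro h3
      have h4 : a = q := by
        rcases h3 with h3 | h3
        · linarith
        · exact h3
      have h5 : η = 0 := by rw [hη, if_pos h4.symm]
      rw [hA0, h5, h4]
      ring
    · intro h3
      exfalso
      rcases h3 with h3 | h3 <;> linarith
    · exact far3 hM hK le_rfl (X := K * N ^ (c - M)) (by linarith) h0 yc0 yc tc (by ring)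
    · have h3 := far3 hM hK le_rfl (X := K * N ^ (-r - M)) (A0 := -A0) (t := -r)
        (by linarith) (by rw [abs_neg]; exact h0) yr0 yr (by rw [abs_neg]; exact tr) rfl
      linarith
  · rcases le_or_gt b q with hbq | hbq
    · -- case 3
      have hpa : p < a := by
        by_contra h3
        have h3 := not_lt.mp h3
        linarith
      have hpa1 := hp.gap ha hpa
      obtain ⟨A1, hA1⟩ : ∃ A1 : ℝ, A1 = 2 * (K * N ^ (p + c)) + 2 * K := ⟨_, rfl⟩
      obtain ⟨A2, hA2⟩ : ∃ A2 : ℝ, A2 = K * N ^ (M + p) := ⟨_, rfl⟩
      have e1 : ∀ x, A1 * N ^ x = 2 * (K * N ^ (p + c + x)) + 2 * (K * N ^ x) := by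
        intro x
        rw [hA1, add_mul, mul_assoc 2 _ (N ^ x), ad]
        ring
      have e2 : ∀ x, A2 * N ^ x = K * N ^ (M + p + x) := fun x => by rw [hA2, ad]
      obtain ⟨η, hη⟩ : ∃ η : ℝ, η = if b = q then 0 else 1 / 2 := ⟨_, rfl⟩
      have hη0 : 0 ≤ η := by rw [hη]; split_ifs <;> norm_num
      have hη3 : η ≤ 1 / 2 := by rw [hη]; split_ifs <;> norm_num
      have hA2K : K ≤ A2 := by rw [hA2]; exact bg _ (by linarith)
      have hpc : 0 < K * N ^ (p + c) := mul_pos hK0 (hB.pos _)
      have hA1K : K ≤ A1 := by rw [hA1]; linarith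
      -- values
      have vb := e1 (b - M)
      have vb1 := sm (p + c + (b - M)) (by linarith)
      have vb2 := sm (b - M) (by linarith)
      have va := e1 (a - M)
      have va1 := sm (p + c + (a - M)) (by linarith)
      have va2 := sm (a - M) (by linarith)
      have vq := e1 (q - M)
      have vq1 := sm (p + c + (q - M)) (by linarith)
      have vq2 := sm (q - M) (by linarith)
      have vp := e1 (p - M)
      have vp1 := sm (p + c + (p - M)) (by linarith)
      have vp2 := sm (p - M) (by linarith)
      have wb := e2 (-b - M)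
      have wb1 := sm (M + p + (-b - M)) (by linarith)
      have wa := e2 (-a - M)
      have wa1 := sm (M + p + (-a - M)) (by linarith)
      have wq := e2 (-q - M)
      have wq1 := sm (M + p + (-q - M)) (by linarith)
      have wp : A2 * N ^ (-p - M) = K := by
        rw [e2]
        have : M + p + (-p - M) = 0 := by ring
        rw [this, Real.rpow_zero, mul_one]
      obtain ⟨A0, hA0⟩ : ∃ A0 : ℝ, A0 = b - A1 * N ^ (b - M) + A2 * N ^ (-b - M) + η := ⟨_, rfl⟩
      have h0 : |A0| ≤ M + 2 := by
        rw [hA0, abs_le]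
        constructor <;> linarith
      refine Sp_of3 A0 A1 (-A2) (-1) ?_ ?_ ?_ ?_ ?_ ?_ ?_ ?_
      · intro h3 h4
        rw [hA0]
        linarith
      · intro h3 h4
        have h5 : η = 1 / 2 := by rw [hη, if_neg h4]
        rw [hA0, h5]
        linarith
      · intro h3 h4
        rw [hA0]
        linarith
      · intro h3 h4
        have h5 : b < q := lt_of_le_of_ne hbq (Ne.symm h4)
        have h6 := hb.gap hq h5
        rw [hA0]
        linarith
      · intro h3
        exfalso
        rcases h3 with h3 | h3 <;> linarith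
      · intro h3
        have h4 : b = q := by
          rcases h3 with h3 | h3
          · linarith
          · exact h3
        have h5 : η = 0 := by rw [hη, if_pos h4]
        rw [hA0, h5]
        ring
      · have f1 : A2 * N ^ (c - M) ≤ A1 / 2 := by
          rw [e2, hA1]
          have : M + p + (c - M) = p + c := by ring
          rw [this]
          linarith
        exact far3 hM hK hA1K f1 h0 yc0 yc (t := -c) (by rw [abs_neg]; exact tc) (by ring)
      · have f1 : A1 * N ^ (-r - M) ≤ A2 / 2 := by
          rw [e1, hA2]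
          have g1 := gp (p + c + (-r - M)) (M + p) (by linarith)
          have g2 := gp (-r - M) (M + p) (by linarith)
          have g3 := mul_pos hK0 (hB.pos (M + p))
          linarith
        have h3 := far3 hM hK hA2K f1 (A0 := -A0) (t := r) (by rw [abs_neg]; exact h0) yr0 yr tr rfl
        linarith
    · have hbq1 := hq.gap hb hbq
      rcases le_or_gt a p with hap | hap
      · -- case 4
        obtain ⟨A1, hA1⟩ : ∃ A1 : ℝ, A1 = K * N ^ (M - b) := ⟨_, rfl⟩
        obtain ⟨A2, hA2⟩ : ∃ A2 : ℝ, A2 = 2 * (K * N ^ (-b - r)) + 2 * K := ⟨_, rfl⟩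
        have e2 : ∀ x, A2 * N ^ x = 2 * (K * N ^ (-b - r + x)) + 2 * (K * N ^ x) := by
          intro x
          rw [hA2, add_mul, mul_assoc 2 _ (N ^ x), ad]
          ring
        have e1 : ∀ x, A1 * N ^ x = K * N ^ (M - b + x) := fun x => by rw [hA1, ad]
        obtain ⟨η, hη⟩ : ∃ η : ℝ, η = if a = p then 0 else 1 / 2 := ⟨_, rfl⟩
        have hη0 : 0 ≤ η := by rw [hη]; split_ifs <;> norm_num
        have hη3 : η ≤ 1 / 2 := by rw [hη]; split_ifs <;> norm_num
        have hA1K : K ≤ A1 := by rw [hA1]; exact bg _ (by linarith)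
        have hbr : 0 < K * N ^ (-b - r) := mul_pos hK0 (hB.pos _)
        have hA2K : K ≤ A2 := by rw [hA2]; linarith
        have wb := e2 (-b - M)
        have wb1 := sm (-b - r + (-b - M)) (by linarith)
        have wb2 := sm (-b - M) (by linarith)
        have wa := e2 (-a - M)
        have hcr0 := hc.hi'
        have hcr1 := hr.lo'
        have wa1 := sm (-b - r + (-a - M)) (by linarith)
        have wa2 := sm (-a - M) (by linarith)
        have wq := e2 (-q - M)
        have wq1 := sm (-b - r + (-q - M)) (by linarith)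
        have wq2 := sm (-q - M) (by linarith)
        have wp := e2 (-p - M)
        have wp1 := sm (-b - r + (-p - M)) (by linarith)
        have wp2 := sm (-p - M) (by linarith)
        have va := e1 (a - M)
        have va1 := sm (M - b + (a - M)) (by linarith)
        have vp := e1 (p - M)
        have vp1 := sm (M - b + (p - M)) (by linarith)
        have vq := e1 (q - M)
        have vq1 := sm (M - b + (q - M)) (by linarith)
        have vb : A1 * N ^ (b - M) = K := by
          rw [e1]
          have : M - b + (b - M) = 0 := by ring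
          rw [this, Real.rpow_zero, mul_one]
        obtain ⟨A0, hA0⟩ : ∃ A0 : ℝ, A0 = p - A1 * N ^ (p - M) + A2 * N ^ (-p - M) - η :=
          ⟨_, rfl⟩
        have h0 : |A0| ≤ M + 2 := by
          rw [hA0, abs_le]
          constructor <;> linarith
        refine Sp_of3 A0 A1 (-A2) (-1) ?_ ?_ ?_ ?_ ?_ ?_ ?_ ?_
        · intro h3 h4
          have h5 : a < p := lt_of_le_of_ne hap h3
          have h6 := ha.gap hp h5
          rw [hA0]
          linarith
        · intro h3 h4
          rw [hA0]
          linarith
        · intro h3 h4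
          have h5 : η = 1 / 2 := by rw [hη, if_neg (Ne.symm h3)]
          rw [hA0, h5]
          linarith
        · intro h3 h4
          rw [hA0]
          linarith
        · intro h3
          have h4 : a = p := by
            rcases h3 with h3 | h3
            · exact h3
            · linarith
          have h5 : η = 0 := by rw [hη, if_pos h4]
          rw [hA0, h5, h4]
          ring
        · intro h3
          exfalso
          rcases h3 with h3 | h3 <;> linarith
        · have f1 : A2 * N ^ (c - M) ≤ A1 / 2 := by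
            rw [e2, hA1]
            have g1 := gp (-b - r + (c - M)) (M - b) (by linarith)
            have g2 := gp (c - M) (M - b) (by linarith)
            have g3 := mul_pos hK0 (hB.pos (M - b))
            linarith
          exact far3 hM hK hA1K f1 h0 yc0 yc (t := -c) (by rw [abs_neg]; exact tc) (by ring)
        · have f1 : A1 * N ^ (-r - M) ≤ A2 / 2 := by
            rw [e1, hA2]
            have : M - b + (-r - M) = -b - r := by ring
            rw [this]
            linarith
          have h3 := far3 hM hK hA2K f1 (A0 := -A0) (t := r) (by rw [abs_neg]; exact h0) yr0 yr tr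
            rfl
          linarith
      · -- case 2
        have hap1 := hp.gap ha hap
        have hqa1 := ha.gap hq hqa
        obtain ⟨A1, hA1⟩ : ∃ A1 : ℝ, A1 = K * N ^ (M - b) := ⟨_, rfl⟩
        obtain ⟨A2, hA2⟩ : ∃ A2 : ℝ, A2 = K * N ^ (M + p) := ⟨_, rfl⟩
        have e1 : ∀ x, A1 * N ^ x = K * N ^ (M - b + x) := fun x => by rw [hA1, ad]
        have e2 : ∀ x, A2 * N ^ x = K * N ^ (M + p + x) := fun x => by rw [hA2, ad]
        have hA1K : K ≤ A1 := by rw [hA1]; exact bg _ (by linarith)
        have hA2K : K ≤ A2 := by rw [hA2]; exact bg _ (by linarith)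
        have va := e1 (a - M)
        have va1 := sm (M - b + (a - M)) (by linarith)
        have vp := e1 (p - M)
        have vp1 := sm (M - b + (p - M)) (by linarith)
        have vq := e1 (q - M)
        have vq1 := sm (M - b + (q - M)) (by linarith)
        have vb : A1 * N ^ (b - M) = K := by
          rw [e1]
          have : M - b + (b - M) = 0 := by ring
          rw [this, Real.rpow_zero, mul_one]
        have wb := e2 (-b - M)
        have wb1 := sm (M + p + (-b - M)) (by linarith)
        have wa := e2 (-a - M)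
        have wa1 := sm (M + p + (-a - M)) (by linarith)
        have wq := e2 (-q - M)
        have wq1 := sm (M + p + (-q - M)) (by linarith)
        have wp : A2 * N ^ (-p - M) = K := by
          rw [e2]
          have : M + p + (-p - M) = 0 := by ring
          rw [this, Real.rpow_zero, mul_one]
        obtain ⟨A0, hA0⟩ : ∃ A0 : ℝ, A0 = a - A1 * N ^ (a - M) + A2 * N ^ (-a - M) + 1 / 2 :=
          ⟨_, rfl⟩
        have h0 : |A0| ≤ M + 2 := by
          rw [hA0, abs_le]
          constructor <;> linarith
        refine Sp_of3 A0 A1 (-A2) (-1) ?_ ?_ ?_ ?_ ?_ ?_ ?_ ?_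
        · intro h3 h4
          rw [hA0]
          linarith
        · intro h3 h4
          rw [hA0]
          linarith
        · intro h3 h4
          rw [hA0]
          linarith
        · intro h3 h4
          rw [hA0]
          linarith
        · intro h3
          exfalso
          rcases h3 with h3 | h3 <;> linarith
        · intro h3
          exfalso
          rcases h3 with h3 | h3 <;> linarith
        · have f1 : A2 * N ^ (c - M) ≤ A1 / 2 := by
            rw [e2, hA1]
            have g1 := gp (M + p + (c - M)) (M - b) (by linarith)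
            have g3 := mul_pos hK0 (hB.pos (M - b))
            linarith
          exact far3 hM hK hA1K f1 h0 yc0 yc (t := -c) (by rw [abs_neg]; exact tc) (by ring)
        · have f1 : A1 * N ^ (-r - M) ≤ A2 / 2 := by
            rw [e1, hA2]
            have g1 := gp (M - b + (-r - M)) (M + p) (by linarith)
            have g3 := mul_pos hK0 (hB.pos (M + p))
            linarith
          have h3 := far3 hM hK hA2K f1 (A0 := -A0) (t := r) (by rw [abs_neg]; exact h0) yr0 yr tr
            rfl
          linarith

end Pool.Agent.K3G
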