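import Pool.Agent.K3G.Defs

/-! Any two different triangles of the cyclic system are separated, from the seven cases; the
heights of the points of the three corners may be different (general `n`). -/

set_option autoImplicit false

namespace Pool.Agent.K3G
noncomputable section

/-- rotation of the corners -/
def rt (v : ℕ × ℝ) : ℕ × ℝ := ((v.1 + 1) % 3, v.2)

theorem val_rt {N M A0 A1 A2 B : ℝ} {v : ℕ × ℝ} (hv : v.1 < 3) :
    val N M A2 A0 A1 B (rt v) = val N M A0 A1 A2 B v := by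
  obtain ⟨e, t⟩ := v
  simp only at hv
  interval_cases e <;> simp [val, rt]

theorem rt_inj {v w : ℕ × ℝ} (hv : v.1 < 3) (hw : w.1 < 3) (h : rt v = rt w) : v = w := by
  obtain ⟨e, t⟩ := v
  obtain ⟨e', t'⟩ := w
  simp only [rt, Prod.mk.injEq] at h hv hw ⊢
  refine ⟨?_, h.2⟩
  omega

theorem Sp.rt {N M : ℝ} {S T : Set (ℕ × ℝ)} (hS : ∀ v ∈ S, v.1 < 3) (hT : ∀ v ∈ T, v.1 < 3)
    (h : Sp N M S T) : Sp N M (rt '' S) (rt '' T) := by
  obtain ⟨A0, A1, A2, B, h1, h2, h3⟩ := h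
  refine ⟨A2, A0, A1, B, ?_, ?_, ?_⟩
  · rintro _ ⟨w, hw, rfl⟩ hn
    rw [val_rt (hS w hw)]
    exact h1 w hw (fun h => hn ⟨w, h, rfl⟩)
  · rintro _ ⟨w, hw, rfl⟩ hn
    rw [val_rt (hT w hw)]
    exact h2 w hw (fun h => hn ⟨w, h, rfl⟩)
  · rintro _ ⟨w, hw, rfl⟩ ⟨w', hw', h⟩
    rw [val_rt (hS w hw)]
    have : w' = w := rt_inj (hT w' hw') (hS w hw) h
    exact h3 w hw (this ▸ hw')

/-- the triangle with base corner `e` (modulo 3), third vertex in the corner `e + k` -/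
def tr (e k : ℕ) (a b c : ℝ) : Set (ℕ × ℝ) := {(e % 3, a), (e % 3, b), ((e + k) % 3, c)}

theorem tr_lt {e k : ℕ} {a b c : ℝ} : ∀ v ∈ tr e k a b c, v.1 < 3 := by
  intro v hv
  simp only [tr, Set.mem_insert_iff, Set.mem_singleton_iff] at hv
  rcases hv with rfl | rfl | rfl <;> exact Nat.mod_lt _ (by norm_num)

theorem rt_tr (e k : ℕ) (a b c : ℝ) : rt '' tr e k a b c = tr (e + 1) k a b c := by
  simp only [tr, Set.image_insert_eq, Set.image_singleton, rt]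
  have h1 : (e % 3 + 1) % 3 = (e + 1) % 3 := by omega
  have h2 : ((e + k) % 3 + 1) % 3 = (e + 1 + k) % 3 := by omega
  rw [h1, h2]

theorem tr_congr {e e' : ℕ} (h : e % 3 = e' % 3) (k : ℕ) (a b c : ℝ) :
    tr e k a b c = tr e' k a b c := by
  have h2 : (e + k) % 3 = (e' + k) % 3 := by omega
  simp only [tr, h, h2]

theorem Sp.shift {N M : ℝ} {e k e' k' : ℕ} {a b c p q r : ℝ}
    (h : Sp N M (tr e k a b c) (tr e' k' p q r)) (n : ℕ) :
    Sp N M (tr (e + n) k a b c) (tr (e' + n) k' p q r) := by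
  induction n with
  | zero => exact h
  | succ n ih =>
    have := ih.rt tr_lt tr_lt
    rw [rt_tr, rt_tr] at this
    exact this

/-- the seven cases, `g0`, `g1`, `g2` are the heights of the points of the three corners -/
structure Cases3 (N M : ℝ) (g0 g1 g2 : ℝ → Prop) : Prop where
  A1 : ∀ a b c p q r : ℝ, g0 a → g0 b → g1 c → g0 p → g0 q → g1 r → a < b → p < q →
    a + b + c = M - 1 / 2 → p + q + r = M - 1 / 2 → ¬ (a = p ∧ b = q) →
    Sp N M {(0, a), (0, b), (1, c)} {(0, p), (0, q), (1, r)}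
  A2 : ∀ a b c p q r : ℝ, g0 a → g0 b → g2 c → g0 p → g0 q → g2 r → a < b → p < q →
    a + b + c = -M - 1 / 2 → p + q + r = -M - 1 / 2 → ¬ (a = p ∧ b = q) →
    Sp N M {(0, a), (0, b), (2, c)} {(0, p), (0, q), (2, r)}
  A3 : ∀ a b c p q r : ℝ, g0 a → g0 b → g1 c → g0 p → g0 q → g2 r → a < b → p < q →
    a + b + c = M - 1 / 2 → p + q + r = -M - 1 / 2 →
    Sp N M {(0, a), (0, b), (1, c)} {(0, p), (0, q), (2, r)}
  B1 : ∀ a b c p q r : ℝ, g0 a → g0 b → g1 c → g1 p → g1 q → g2 r → a < b → p < q →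
    a + b + c = M - 1 / 2 → p + q + r = M - 1 / 2 →
    Sp N M {(0, a), (0, b), (1, c)} {(1, p), (1, q), (2, r)}
  B2 : ∀ a b c p q r : ℝ, g0 a → g0 b → g1 c → g1 p → g1 q → g0 r → a < b → p < q →
    a + b + c = M - 1 / 2 → p + q + r = -M - 1 / 2 →
    Sp N M {(0, a), (0, b), (1, c)} {(1, p), (1, q), (0, r)}
  B3 : ∀ a b c p q r : ℝ, g0 a → g0 b → g2 c → g1 p → g1 q → g2 r → a < b → p < q →
    a + b + c = -M - 1 / 2 → p + q + r = M - 1 / 2 →
    Sp N M {(0, a), (0, b), (2, c)} {(1, p), (1, q), (2, r)}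
  B4 : ∀ a b c p q r : ℝ, g0 a → g0 b → g2 c → g1 p → g1 q → g0 r → a < b → p < q →
    a + b + c = -M - 1 / 2 → p + q + r = -M - 1 / 2 →
    Sp N M {(0, a), (0, b), (2, c)} {(1, p), (1, q), (0, r)}

/-- the triangle condition, base corner `e` (modulo 3), third vertex in the corner `e + k` -/
def Ok3 (M : ℝ) (g : ℕ → ℝ → Prop) (e k : ℕ) (a b c : ℝ) : Prop :=
  g (e % 3) a ∧ g (e % 3) b ∧ g ((e + k) % 3) c ∧ a < b ∧
    ((k = 1 ∧ a + b + c = M - 1 / 2) ∨ (k = 2 ∧ a + b + c = -M - 1 / 2))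

/-- the cases for the three rotations -/
def Rots (N M : ℝ) (g : ℕ → ℝ → Prop) : Prop :=
  Cases3 N M (g 0) (g 1) (g 2) ∧ Cases3 N M (g 1) (g 2) (g 0) ∧ Cases3 N M (g 2) (g 0) (g 1)

theorem Rots.at {N M : ℝ} {g : ℕ → ℝ → Prop} (h : Rots N M g) (e : ℕ) :
    Cases3 N M (g (e % 3)) (g ((e + 1) % 3)) (g ((e + 2) % 3)) := by
  have h3 : e % 3 = 0 ∨ e % 3 = 1 ∨ e % 3 = 2 := by omega
  rcases h3 with h3 | h3 | h3
  · rw [h3, show (e + 1) % 3 = 1 by omega, show (e + 2) % 3 = 2 by omega]; exact h.1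
  · rw [h3, show (e + 1) % 3 = 2 by omega, show (e + 2) % 3 = 0 by omega]; exact h.2.1
  · rw [h3, show (e + 1) % 3 = 0 by omega, show (e + 2) % 3 = 1 by omega]; exact h.2.2

theorem Ok3.congr {M : ℝ} {g : ℕ → ℝ → Prop} {e e' k : ℕ} {a b c : ℝ} (h : Ok3 M g e k a b c)
    (he : e % 3 = e' % 3) : Ok3 M g e' k a b c := by
  unfold Ok3 at h ⊢
  rw [← he, show (e' + k) % 3 = (e + k) % 3 by omega]
  exact h

theorem Rots.same {N M : ℝ} {g : ℕ → ℝ → Prop} (hc : Rots N M g) {e k k' : ℕ}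
    {a b c p q r : ℝ} (h : Ok3 M g e k a b c) (h' : Ok3 M g e k' p q r)
    (hne : ¬ (k = k' ∧ a = p ∧ b = q)) :
    Sp N M (tr e k a b c) (tr e k' p q r) := by
  have C := hc.at e
  obtain ⟨ha, hb, hcc, hab, hk⟩ := h
  obtain ⟨hp, hq, hr, hpq, hk'⟩ := h'
  have key : Sp N M (tr 0 k a b c) (tr 0 k' p q r) := by
    rcases hk with ⟨rfl, hs⟩ | ⟨rfl, hs⟩ <;> rcases hk' with ⟨rfl, hs'⟩ | ⟨rfl, hs'⟩
    · exact C.A1 a b c p q r ha hb hcc hp hq hr hab hpq hs hs' (fun h => hne ⟨rfl, h.1, h.2⟩)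
    · exact C.A3 a b c p q r ha hb hcc hp hq hr hab hpq hs hs'
    · exact (C.A3 p q r a b c hp hq hr ha hb hcc hpq hab hs' hs).symm
    · exact C.A2 a b c p q r ha hb hcc hp hq hr hab hpq hs hs' (fun h => hne ⟨rfl, h.1, h.2⟩)
  have := key.shift e
  rw [tr_congr (show (0 + e) % 3 = e % 3 by omega) k a b c,
    tr_congr (show (0 + e) % 3 = e % 3 by omega) k' p q r] at this
  exact this

theorem Rots.next {N M : ℝ} {g : ℕ → ℝ → Prop} (hc : Rots N M g) {e k k' : ℕ}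
    {a b c p q r : ℝ} (h : Ok3 M g e k a b c) (h' : Ok3 M g (e + 1) k' p q r) :
    Sp N M (tr e k a b c) (tr (e + 1) k' p q r) := by
  have C := hc.at e
  obtain ⟨ha, hb, hcc, hab, hk⟩ := h
  obtain ⟨hp, hq, hr, hpq, hk'⟩ := h'
  have key : Sp N M (tr 0 k a b c) (tr 1 k' p q r) := by
    rcases hk with ⟨rfl, hs⟩ | ⟨rfl, hs⟩ <;> rcases hk' with ⟨rfl, hs'⟩ | ⟨rfl, hs'⟩
    · rw [show (e + 1 + 1) % 3 = (e + 2) % 3 by omega] at hr
      exact C.B1 a b c p q r ha hb hcc hp hq hr hab hpq hs hs'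
    · rw [show (e + 1 + 2) % 3 = e % 3 by omega] at hr
      exact C.B2 a b c p q r ha hb hcc hp hq hr hab hpq hs hs'
    · rw [show (e + 1 + 1) % 3 = (e + 2) % 3 by omega] at hr
      exact C.B3 a b c p q r ha hb hcc hp hq hr hab hpq hs hs'
    · rw [show (e + 1 + 2) % 3 = e % 3 by omega] at hr
      exact C.B4 a b c p q r ha hb hcc hp hq hr hab hpq hs hs'
  have := key.shift e
  rw [tr_congr (show (0 + e) % 3 = e % 3 by omega) k a b c,
    tr_congr (show (1 + e) % 3 = (e + 1) % 3 by omega) k' p q r] at this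
  exact this

theorem Rots.all {N M : ℝ} {g : ℕ → ℝ → Prop} (hc : Rots N M g) {e e' k k' : ℕ}
    {a b c p q r : ℝ} (h : Ok3 M g e k a b c) (h' : Ok3 M g e' k' p q r)
    (hne : ¬ (e % 3 = e' % 3 ∧ k = k' ∧ a = p ∧ b = q)) :
    Sp N M (tr e k a b c) (tr e' k' p q r) := by
  have h3 : e' % 3 = e % 3 ∨ e' % 3 = (e + 1) % 3 ∨ e % 3 = (e' + 1) % 3 := by omega
  rcases h3 with h3 | h3 | h3
  · have := hc.same h (h'.congr h3) (fun hh => hne ⟨h3.symm, hh⟩)
    rw [tr_congr h3.symm k' p q r] at this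
    exact this
  · have := hc.next h (h'.congr h3)
    rw [tr_congr h3.symm k' p q r] at this
    exact this
  · have := hc.next h' (h.congr h3)
    rw [tr_congr h3.symm k a b c] at this
    exact this.symm

end
end Pool.Agent.K3G
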