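import Pool.Agent.K3G.Defs

set_option autoImplicit false

namespace Pool.Agent.K3G

variable {d0 d1 d2 : ℝ}

namespace B1Aux

/-- the value of the linear form at the point `t` of a corner -/
noncomputable def ev (N M A A' A'' B t : ℝ) : ℝ :=
  A + A' * N ^ (t - M) + A'' * N ^ (-t - M) + B * t

theorem ev_small {N M : ℝ} (hM : 1 / 2 ≤ M) (hN : 1 < N) (hB : 1000 * (M + 1) ≤ N ^ (1 / 24 : ℝ))
    (x : ℝ) (hx : x ≤ -(1 / 24)) : N ^ x ≤ 1 / (1000 * (M + 1)) := by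
  have h1 : N ^ x ≤ N ^ (-(1 / 24) : ℝ) := Real.rpow_le_rpow_of_exponent_le hN.le hx
  refine h1.trans ?_
  rw [Real.rpow_neg (by linarith), one_div (1000 * (M + 1))]
  exact inv_anti₀ (by linarith) hB

theorem ev_big {N M : ℝ} (hN : 1 < N) (hB : 1000 * (M + 1) ≤ N ^ (1 / 24 : ℝ))
    (x : ℝ) (hx : 1 / 24 ≤ x) : 1000 * (M + 1) ≤ N ^ x :=
  hB.trans (Real.rpow_le_rpow_of_exponent_le hN.le hx)

theorem ratio {N M : ℝ} (hM : 1 / 2 ≤ M) (hN : 1 < N) (hB : 1000 * (M + 1) ≤ N ^ (1 / 24 : ℝ))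
    (x y : ℝ) (hxy : x + 1 / 24 ≤ y) : N ^ x ≤ N ^ y / 1000 := by
  have h1 : N ^ x = N ^ y * N ^ (x - y) := by
    rw [← Real.rpow_add (by linarith)]; congr 1; ring
  have h2 := ev_small hM hN hB (x - y) (by linarith)
  have h3 : 1 / (1000 * (M + 1)) ≤ 1 / 1000 :=
    one_div_le_one_div_of_le (by norm_num) (by linarith)
  have h4 : 0 < N ^ y := Real.rpow_pos_of_pos (by linarith) _
  rw [h1]
  nlinarith

/-- B1: `(0,a), (0,b), (1,c)` and `(1,p), (1,q), (2,r)`. -/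
theorem caseB1' (N M : ℝ) (hM : 1 / 2 ≤ M) (hN : 1 < N) (hB : 1000 * (M + 1) ≤ N ^ (1 / 24 : ℝ))
    (c p q r : ℝ) (hc : 1 / 6 - M ≤ c ∧ c ≤ M - 1 / 6) (hp : 1 / 6 - M ≤ p ∧ p ≤ M - 1 / 6)
    (hq : 1 / 6 - M ≤ q ∧ q ≤ M - 1 / 6) (hr : 1 / 6 - M ≤ r ∧ r ≤ M - 1 / 6)
    (hpq : p + 1 ≤ q) (hcp : c = p ∨ c + 1 ≤ p ∨ p + 1 ≤ c) (hcq : c = q ∨ c + 1 ≤ q ∨ q + 1 ≤ c)
    (hs : p + q + r = M - 1 / 2) :
    ∃ A0 A1 A2 B : ℝ, (∀ t, 1 / 6 - M ≤ t ∧ t ≤ M - 1 / 6 → 1 - 2 * M ≤ t - r →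
        0 < ev N M A0 A1 A2 B t) ∧
      (c ≠ p → ev N M A1 A2 A0 B p < 0) ∧ (c ≠ q → ev N M A1 A2 A0 B q < 0) ∧
      ev N M A2 A0 A1 B r < 0 ∧
      (c = p ∨ c = q → ev N M A1 A2 A0 B c = 0) ∧
      (c ≠ p → c ≠ q → 0 < ev N M A1 A2 A0 B c) := by
  have hM0 : 0 < M := by linarith
  have hN0 : 0 < N := by linarith
  -- bounds of the small numbers
  have hX : ∀ t, 1 / 6 - M ≤ t ∧ t ≤ M - 1 / 6 → 0 < N ^ (t - M) ∧
      (M + 1) * N ^ (t - M) ≤ 1 / 1000 := by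
    intro t ht
    refine ⟨Real.rpow_pos_of_pos hN0 _, ?_⟩
    have h := ev_small hM hN hB (t - M) (by linarith [ht.2])
    calc (M + 1) * N ^ (t - M) ≤ (M + 1) * (1 / (1000 * (M + 1))) :=
          mul_le_mul_of_nonneg_left h (by linarith)
      _ = 1 / 1000 := by field_simp
  have hY : ∀ t, 1 / 6 - M ≤ t ∧ t ≤ M - 1 / 6 → 0 < N ^ (-t - M) ∧
      (M + 1) * N ^ (-t - M) ≤ 1 / 1000 := by
    intro t ht
    refine ⟨Real.rpow_pos_of_pos hN0 _, ?_⟩
    have h := ev_small hM hN hB (-t - M) (by linarith [ht.1])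
    calc (M + 1) * N ^ (-t - M) ≤ (M + 1) * (1 / (1000 * (M + 1))) :=
          mul_le_mul_of_nonneg_left h (by linarith)
      _ = 1 / 1000 := by field_simp
  -- products with a bounded coefficient
  have hXA : ∀ t A, 1 / 6 - M ≤ t ∧ t ≤ M - 1 / 6 → |A| ≤ 4 * (M + 1) →
      |A * N ^ (t - M)| ≤ 4 / 1000 := by
    intro t A ht hA
    have h := hX t ht
    rw [abs_mul, abs_of_pos h.1]
    calc |A| * N ^ (t - M) ≤ (4 * (M + 1)) * N ^ (t - M) :=
          mul_le_mul_of_nonneg_right hA h.1.le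
      _ ≤ 4 / 1000 := by linarith [h.2]
  have hYA : ∀ t A, 1 / 6 - M ≤ t ∧ t ≤ M - 1 / 6 → |A| ≤ 4 * (M + 1) →
      |A * N ^ (-t - M)| ≤ 4 / 1000 := by
    intro t A ht hA
    have h := hY t ht
    rw [abs_mul, abs_of_pos h.1]
    calc |A| * N ^ (-t - M) ≤ (4 * (M + 1)) * N ^ (-t - M) :=
          mul_le_mul_of_nonneg_right hA h.1.le
      _ ≤ 4 / 1000 := by linarith [h.2]
  -- the easy form: `A0 = 4 (M+1)`, `A2 = -4 (M+1)`, `|A1| ≤ M + 1`, `|B| ≤ 1`
  have easy : ∀ A1 B : ℝ, |A1| ≤ M + 1 → |B| ≤ 1 →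
      (∀ t, 1 / 6 - M ≤ t ∧ t ≤ M - 1 / 6 → 0 < ev N M (4 * (M + 1)) A1 (-(4 * (M + 1))) B t) ∧
      ev N M (-(4 * (M + 1))) (4 * (M + 1)) A1 B r < 0 ∧
      ∀ t, 1 / 6 - M ≤ t ∧ t ≤ M - 1 / 6 →
        |ev N M A1 (-(4 * (M + 1))) (4 * (M + 1)) B t - (A1 + B * t)| ≤ 8 / 1000 := by
    intro A1 B hA1 hB1
    have hBt : ∀ t, 1 / 6 - M ≤ t ∧ t ≤ M - 1 / 6 → |B * t| ≤ M := by
      intro t ht
      rw [abs_mul]
      have h1 : |t| ≤ M := abs_le.2 ⟨by linarith [ht.1], by linarith [ht.2]⟩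
      calc |B| * |t| ≤ 1 * M := mul_le_mul hB1 h1 (abs_nonneg _) (by norm_num)
        _ = M := one_mul _
    have h4 : |-(4 * (M + 1))| ≤ 4 * (M + 1) := by
      rw [abs_neg, abs_of_nonneg (by linarith)]
    have h5 : |4 * (M + 1)| ≤ 4 * (M + 1) := by
      rw [abs_of_nonneg (by linarith)]
    refine ⟨fun t ht => ?_, ?_, fun t ht => ?_⟩
    · unfold ev
      have h1 := abs_le.1 (hXA t A1 ht (by linarith))
      have h2 := abs_le.1 (hYA t (-(4 * (M + 1))) ht h4)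
      have h3 := abs_le.1 (hBt t ht)
      linarith [h1.1, h2.1, h3.1]
    · unfold ev
      have h1 := abs_le.1 (hXA r (4 * (M + 1)) hr h5)
      have h2 := abs_le.1 (hYA r A1 hr (by linarith))
      have h3 := abs_le.1 (hBt r hr)
      linarith [h1.2, h2.2, h3.2]
    · unfold ev
      have h1 := abs_le.1 (hXA t (-(4 * (M + 1))) ht h4)
      have h2 := abs_le.1 (hYA t (4 * (M + 1)) ht h5)
      rw [abs_le]
      constructor <;> linarith [h1.1, h2.1, h1.2, h2.2]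
  rcases hcp with h1 | h1 | h1
  · -- `c = p`
    obtain ⟨A1, hA1⟩ : ∃ A1 : ℝ, A1 = c - (-(4 * (M + 1))) * N ^ (c - M) -
      (4 * (M + 1)) * N ^ (-c - M) := ⟨_, rfl⟩
    have h4 : |-(4 * (M + 1))| ≤ 4 * (M + 1) := by
      rw [abs_neg, abs_of_nonneg (by linarith)]
    have h5 : |4 * (M + 1)| ≤ 4 * (M + 1) := by
      rw [abs_of_nonneg (by linarith)]
    have e1 := abs_le.1 (hXA c (-(4 * (M + 1))) hc h4)
    have e2 := abs_le.1 (hYA c (4 * (M + 1)) hc h5)
    have hA1' : |A1| ≤ M + 1 := by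
      rw [abs_le]
      constructor <;> linarith [e1.1, e1.2, e2.1, e2.2, hc.1, hc.2]
    obtain ⟨k1, k2, k3⟩ := easy A1 (-1) hA1' (by simp)
    refine ⟨4 * (M + 1), A1, -(4 * (M + 1)), -1, fun t ht _ => k1 t ht, fun h => absurd h1 h, fun _ => ?_, k2, fun _ => ?_,
      fun h => absurd h1 h⟩
    · have h6 := abs_le.1 (k3 q hq)
      linarith [h6.2, e1.1, e1.2, e2.1, e2.2]
    · unfold ev
      rw [hA1]
      ring
  · -- `c < p`
    have hA1' : |(c + p) / 2| ≤ M + 1 := by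
      rw [abs_le]
      constructor <;> linarith [hc.1, hc.2, hp.1, hp.2]
    obtain ⟨k1, k2, k3⟩ := easy ((c + p) / 2) (-1) hA1' (by simp)
    have h6 := abs_le.1 (k3 q hq)
    have h7 := abs_le.1 (k3 p hp)
    have h8 := abs_le.1 (k3 c hc)
    refine ⟨4 * (M + 1), (c + p) / 2, -(4 * (M + 1)), -1, fun t ht _ => k1 t ht, fun _ => ?_, fun _ => ?_, k2,
      fun h => ?_, fun _ _ => ?_⟩
    · linarith [h7.2]
    · linarith [h6.2]
    · rcases h with h | h <;> linarith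
    · linarith [h8.1]
  · rcases hcq with h2 | h2 | h2
    · -- `c = q`
      obtain ⟨A1, hA1⟩ : ∃ A1 : ℝ, A1 = -c - (-(4 * (M + 1))) * N ^ (c - M) -
        (4 * (M + 1)) * N ^ (-c - M) := ⟨_, rfl⟩
      have h4 : |-(4 * (M + 1))| ≤ 4 * (M + 1) := by
        rw [abs_neg, abs_of_nonneg (by linarith)]
      have h5 : |4 * (M + 1)| ≤ 4 * (M + 1) := by
        rw [abs_of_nonneg (by linarith)]
      have e1 := abs_le.1 (hXA c (-(4 * (M + 1))) hc h4)
      have e2 := abs_le.1 (hYA c (4 * (M + 1)) hc h5)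
      have hA1' : |A1| ≤ M + 1 := by
        rw [abs_le]
        constructor <;> linarith [e1.1, e1.2, e2.1, e2.2, hc.1, hc.2]
      obtain ⟨k1, k2, k3⟩ := easy A1 1 hA1' (by simp)
      refine ⟨4 * (M + 1), A1, -(4 * (M + 1)), 1, fun t ht _ => k1 t ht, fun _ => ?_, fun h => absurd h2 h, k2,
        fun _ => ?_, fun _ h => absurd h2 h⟩
      · have h6 := abs_le.1 (k3 p hp)
        linarith [h6.2, e1.1, e1.2, e2.1, e2.2]
      · unfold ev
        rw [hA1]
        ring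
    · -- `p < c < q`
      have hpow : ∀ x y : ℝ, N ^ x * N ^ y = N ^ (x + y) := fun x y =>
        (Real.rpow_add hN0 x y).symm
      have hpos : ∀ x : ℝ, 0 < N ^ x := fun x => Real.rpow_pos_of_pos hN0 x
      have hs0 : 1 / (1000 * (M + 1)) ≤ 1 / 1000 :=
        one_div_le_one_div_of_le (by norm_num) (by linarith)
      have hA1' : |-((p + c) / 2)| ≤ 4 * (M + 1) := by
        rw [abs_le]
        constructor <;> linarith [hc.1, hc.2, hp.1, hp.2]
      refine ⟨N ^ (p + M - 1 / 8), -((p + c) / 2), -N ^ (M - q + 1 / 4), 1, ?_, fun _ => ?_,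
        fun _ => ?_, ?_, fun h => ?_, fun _ _ => ?_⟩
      · intro t ht htr
        unfold ev
        have e1 := abs_le.1 (hXA t _ ht hA1')
        have e2 : -N ^ (M - q + 1 / 4) * N ^ (-t - M) = -N ^ (1 / 4 - q - t) := by
          rw [neg_mul, hpow]; congr 2; ring
        have e3 := ratio hM hN hB (1 / 4 - q - t) (p + M - 1 / 8)
          (by linarith [ht.1, hr.2, htr])
        have e4 := ev_big hN hB (p + M - 1 / 8) (by linarith [hp.1])
        rw [e2]
        linarith [e1.1, ht.1]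
      · unfold ev
        have e1 : -N ^ (M - q + 1 / 4) * N ^ (p - M) = -N ^ (p - q + 1 / 4) := by
          rw [neg_mul, hpow]; congr 2; ring
        have e2 : N ^ (p + M - 1 / 8) * N ^ (-p - M) = N ^ (-(1 / 8) : ℝ) := by
          rw [hpow]; congr 1; ring
        have e3 := ev_small hM hN hB (-(1 / 8)) (by norm_num)
        rw [e1, e2]
        linarith [hpos (p - q + 1 / 4)]
      · unfold ev
        have e1 : -N ^ (M - q + 1 / 4) * N ^ (q - M) = -N ^ (1 / 4 : ℝ) := by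
          rw [neg_mul, hpow]; congr 2; ring
        have e2 : N ^ (p + M - 1 / 8) * N ^ (-q - M) = N ^ (p - q - 1 / 8) := by
          rw [hpow]; congr 1; ring
        have e3 := ev_small hM hN hB (p - q - 1 / 8) (by linarith)
        have e4 := ev_big hN hB (1 / 4) (by norm_num)
        rw [e1, e2]
        linarith [hp.1, hq.2, hc.1]
      · unfold ev
        have e1 : N ^ (p + M - 1 / 8) * N ^ (r - M) = N ^ (p + r - 1 / 8) := by
          rw [hpow]; congr 1; ring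
        have e2 := ratio hM hN hB (p + r - 1 / 8) (M - q + 1 / 4) (by linarith)
        have e3 := ev_big hN hB (M - q + 1 / 4) (by linarith [hq.2])
        have e4 := abs_le.1 (hYA r _ hr hA1')
        rw [e1]
        linarith [e4.2, hr.2]
      · rcases h with h | h <;> linarith
      · unfold ev
        have e1 : -N ^ (M - q + 1 / 4) * N ^ (c - M) = -N ^ (c - q + 1 / 4) := by
          rw [neg_mul, hpow]; congr 2; ring
        have e3 := ev_small hM hN hB (c - q + 1 / 4) (by linarith)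
        have e5 := mul_pos (hpos (p + M - 1 / 8)) (hpos (-c - M))
        rw [e1]
        linarith
    · -- `q < c`
      have hA1' : |-((c + q) / 2)| ≤ M + 1 := by
        rw [abs_le]
        constructor <;> linarith [hc.1, hc.2, hq.1, hq.2]
      obtain ⟨k1, k2, k3⟩ := easy (-((c + q) / 2)) 1 hA1' (by simp)
      have h6 := abs_le.1 (k3 q hq)
      have h7 := abs_le.1 (k3 p hp)
      have h8 := abs_le.1 (k3 c hc)
      refine ⟨4 * (M + 1), -((c + q) / 2), -(4 * (M + 1)), 1, fun t ht _ => k1 t ht, fun _ => ?_, fun _ => ?_, k2,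
        fun h => ?_, fun _ _ => ?_⟩
      · linarith [h7.2]
      · linarith [h6.2]
      · rcases h with h | h <;> linarith
      · linarith [h8.1]

end B1Aux

open B1Aux

/-- case B1 (00|1, 11|2) -/
theorem caseB1 {N M a b c p q r : ℝ} (hB : Big N M) (ha : G d0 d1 M a) (hb : G d0 d1 M b) (hc : G d1 d2 M c)
    (hp : G d1 d2 M p) (hq : G d1 d2 M q) (hr : G d2 d0 M r) (hab : a < b) (hpq : p < q)
    (h1 : a + b + c = M - 1 / 2) (h2 : p + q + r = M - 1 / 2) :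
    Sp N M {((0 : ℕ), a), (0, b), (1, c)} {((1 : ℕ), p), (1, q), (2, r)} := by
  have tri' : ∀ s t : ℝ, G d1 d2 M s → G d1 d2 M t → s = t ∨ s + 1 ≤ t ∨ t + 1 ≤ s := by
    intro s t hs ht
    rcases hs.tri ht with h | h | h
    · exact Or.inr (Or.inl h)
    · exact Or.inl h
    · exact Or.inr (Or.inr h)
  obtain ⟨A0, A1, A2, B, k1, k2, k3, k4, k5, k6⟩ := caseB1' N M hB.1 hB.2.1 hB.2.2 c p q r
    ⟨hc.lo, hc.hi⟩ ⟨hp.lo, hp.hi⟩ ⟨hq.lo, hq.hi⟩ ⟨hr.lo, hr.hi⟩ (hp.gap hq hpq)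
    (tri' c p hc hp) (tri' c q hc hq) h2
  unfold ev at k1 k2 k3 k4 k5 k6
  refine ⟨A0, A1, A2, B, ?_, ?_, ?_⟩
  · rintro v (rfl | rfl | rfl) hv
    · simpa using k1 a ⟨ha.lo, ha.hi⟩ (by linarith [ha.lo', hr.hi'])
    · simpa using k1 b ⟨hb.lo, hb.hi⟩ (by linarith [hb.lo', hr.hi'])
    · simp only [Set.mem_insert_iff, Set.mem_singleton_iff, Prod.mk.injEq, true_and, not_or] at hv
      rw [val_one]
      exact k6 (fun h => hv.1 h) (fun h => hv.2.1 h)
  · rintro v (rfl | rfl | rfl) hv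
    · simp only [Set.mem_insert_iff, Set.mem_singleton_iff, Prod.mk.injEq, true_and, not_or] at hv
      rw [val_one]
      exact k2 (fun h => hv.2.2 h.symm)
    · simp only [Set.mem_insert_iff, Set.mem_singleton_iff, Prod.mk.injEq, true_and, not_or] at hv
      rw [val_one]
      exact k3 (fun h => hv.2.2 h.symm)
    · rw [val_two]
      exact k4
  · rintro v (rfl | rfl | rfl) hv
    · simp at hv
    · simp at hv
    · simp only [Set.mem_insert_iff, Set.mem_singleton_iff, Prod.mk.injEq, true_and] at hv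
      rw [val_one]
      refine k5 ?_
      rcases hv with h | h | h
      · exact Or.inl h
      · exact Or.inr h
      · exact absurd h.1 (by norm_num)

end Pool.Agent.K3G
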