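import Pool.Agent.K3G.Defs

set_option autoImplicit false

namespace Pool.Agent.K3G

variable {d0 d1 d2 : ℝ}

/-- case B3 over the reals: `l` on corner 0 is `A0 + A1 N^(t-M) + A2 N^(-t-M) + B t`, on corner 1
`A1 + A2 N^(t-M) + A0 N^(-t-M) + B t`, on corner 2 `A2 + A0 N^(t-M) + A1 N^(-t-M) + B t` -/
private theorem caseB3_real (M N a b c p q r : ℝ) (hM : 0 < M) (hN : 1 < N)
    (h1 : 4 * M * N ^ (-(1 / 6 : ℝ)) < 1) (h2 : 4 * N ^ (-(1 / 6 : ℝ)) < 1)
    (ha : |a| ≤ M - 1 / 6) (hb : |b| ≤ M - 1 / 6) (hc : |c| ≤ M - 1 / 6)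
    (hp : |p| ≤ M - 1 / 6) (hq : |q| ≤ M - 1 / 6) (hr : |r| ≤ M - 1 / 6)
    (hcr : c = r ∨ 1 ≤ |c - r|) :
    ∃ A0 A1 A2 B : ℝ,
      0 < A0 + A1 * N ^ (a - M) + A2 * N ^ (-a - M) + B * a ∧
      0 < A0 + A1 * N ^ (b - M) + A2 * N ^ (-b - M) + B * b ∧
      A1 + A2 * N ^ (p - M) + A0 * N ^ (-p - M) + B * p < 0 ∧
      A1 + A2 * N ^ (q - M) + A0 * N ^ (-q - M) + B * q < 0 ∧
      (c ≠ r → 0 < A2 + A0 * N ^ (c - M) + A1 * N ^ (-c - M) + B * c ∧
        A2 + A0 * N ^ (r - M) + A1 * N ^ (-r - M) + B * r < 0) ∧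
      (c = r → A2 + A0 * N ^ (c - M) + A1 * N ^ (-c - M) + B * c = 0) := by
  set ε : ℝ := N ^ (-(1 / 6 : ℝ)) with hε
  have hN0 : (0 : ℝ) < N := by linarith
  have hε0 : 0 < ε := Real.rpow_pos_of_pos hN0 _
  have up : ∀ t : ℝ, |t| ≤ M - 1 / 6 → 0 < N ^ (t - M) ∧ N ^ (t - M) ≤ ε := by
    intro t ht
    refine ⟨Real.rpow_pos_of_pos hN0 _, Real.rpow_le_rpow_of_exponent_le hN.le ?_⟩
    have := (abs_le.1 ht).2
    linarith
  have um : ∀ t : ℝ, |t| ≤ M - 1 / 6 → 0 < N ^ (-t - M) ∧ N ^ (-t - M) ≤ ε := by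
    intro t ht
    refine ⟨Real.rpow_pos_of_pos hN0 _, Real.rpow_le_rpow_of_exponent_le hN.le ?_⟩
    have := (abs_le.1 ht).1
    linarith
  have key : ∀ A2 B : ℝ, |A2| ≤ 1 / 2 → |B| * M ≤ 1 / 2 → ∀ t : ℝ, |t| ≤ M - 1 / 6 →
      0 < 1 + (-1) * N ^ (t - M) + A2 * N ^ (-t - M) + B * t ∧
      (-1) + A2 * N ^ (t - M) + 1 * N ^ (-t - M) + B * t < 0 := by
    intro A2 B hA hB t ht
    obtain ⟨u0, u1⟩ := up t ht
    obtain ⟨v0, v1⟩ := um t ht
    have e1 : |B * t| ≤ 1 / 2 := by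
      rw [abs_mul]
      refine le_trans (mul_le_mul_of_nonneg_left ?_ (abs_nonneg B)) hB
      linarith
    have e2 : |A2 * N ^ (-t - M)| ≤ 1 / 2 * ε := by
      rw [abs_mul, abs_of_pos v0]
      exact mul_le_mul hA v1 v0.le (by norm_num)
    have e3 : |A2 * N ^ (t - M)| ≤ 1 / 2 * ε := by
      rw [abs_mul, abs_of_pos u0]
      exact mul_le_mul hA u1 u0.le (by norm_num)
    have f1 := abs_le.1 e1
    have f2 := abs_le.1 e2
    have f3 := abs_le.1 e3
    constructor <;> nlinarith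
  obtain ⟨c0, c1⟩ := up c hc
  obtain ⟨d0, d1⟩ := um c hc
  obtain ⟨g0, g1⟩ := up r hr
  obtain ⟨k0, k1⟩ := um r hr
  rcases eq_or_ne c r with he | he
  · have hA : |-(N ^ (c - M) - N ^ (-c - M))| ≤ 1 / 2 := by
      rw [abs_le]; constructor <;> nlinarith
    have hB : |(0 : ℝ)| * M ≤ 1 / 2 := by simp
    refine ⟨1, -1, -(N ^ (c - M) - N ^ (-c - M)), 0, (key _ _ hA hB a ha).1, (key _ _ hA hB b hb).1,
      (key _ _ hA hB p hp).2, (key _ _ hA hB q hq).2, fun h => absurd he h, fun _ => by ring⟩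
  · have hcr' : 1 ≤ |c - r| := by
      rcases hcr with h | h
      · exact absurd h he
      · exact h
    have hs : abs ((c - r) / (abs (c - r))) = 1 := by
      have h0 : |c - r| ≠ 0 := by
        intro h
        rw [h] at hcr'
        norm_num at hcr'
      rw [abs_div, abs_abs, div_self h0]
    set s : ℝ := (c - r) / (abs (c - r)) with hsdef
    have hsc : s * (c - r) = |c - r| := by
      rw [hsdef]
      have h0 : |c - r| ≠ 0 := by
        intro h
        rw [h] at hcr'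
        norm_num at hcr'
      rw [div_mul_eq_mul_div, div_eq_iff h0, ← sq, ← sq, sq_abs]
    have hM2 : (0 : ℝ) < 2 * M := by linarith
    have hB : |s / (2 * M)| * M ≤ 1 / 2 := by
      rw [abs_div, hs, abs_of_pos hM2]
      apply le_of_eq
      field_simp
    have hA : |-(s / (2 * M)) * ((c + r) / 2)| ≤ 1 / 2 := by
      rw [abs_mul, abs_neg]
      refine le_trans (mul_le_mul_of_nonneg_left ?_ (abs_nonneg _)) hB
      have e1 := abs_le.1 hc
      have e2 := abs_le.1 hr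
      rw [abs_le]; constructor <;> linarith
    refine ⟨1, -1, -(s / (2 * M)) * ((c + r) / 2), s / (2 * M), (key _ _ hA hB a ha).1,
      (key _ _ hA hB b hb).1, (key _ _ hA hB p hp).2, (key _ _ hA hB q hq).2, fun _ => ?_,
      fun h => absurd h he⟩
    have hw : s / (2 * M) * (c - r) = |c - r| / (2 * M) := by
      rw [div_mul_eq_mul_div, hsc]
    have hw1 : 1 / (2 * M) ≤ |c - r| / (2 * M) := by
      gcongr
    have hw2 : 2 * ε < 1 / (2 * M) := by
      rw [lt_div_iff₀ hM2]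
      nlinarith
    constructor
    · have e : -(s / (2 * M)) * ((c + r) / 2) + 1 * N ^ (c - M) + (-1) * N ^ (-c - M)
          + s / (2 * M) * c = (s / (2 * M) * (c - r)) / 2 + N ^ (c - M) - N ^ (-c - M) := by ring
      rw [e, hw]
      linarith
    · have e : -(s / (2 * M)) * ((c + r) / 2) + 1 * N ^ (r - M) + (-1) * N ^ (-r - M)
          + s / (2 * M) * r = -(s / (2 * M) * (c - r)) / 2 + N ^ (r - M) - N ^ (-r - M) := by ring
      rw [e, hw]
      linarith


/-- case B3 (00|2, 11|2) -/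
theorem caseB3 {N M a b c p q r : ℝ} (hB : Big N M) (ha : G d0 d1 M a) (hb : G d0 d1 M b) (hc : G d2 d0 M c)
    (hp : G d1 d2 M p) (hq : G d1 d2 M q) (hr : G d2 d0 M r) (hab : a < b) (hpq : p < q)
    (h1 : a + b + c = -M - 1 / 2) (h2 : p + q + r = M - 1 / 2) :
    Sp N M {((0 : ℕ), a), (0, b), (2, c)} {((1 : ℕ), p), (1, q), (2, r)} := by
  have hM := hB.M_pos
  have hs := hB.small (x := -(1 / 6)) (by norm_num)
  have hs0 := hB.pos (-(1 / 6))
  have g : ∀ t d d', G d d' M t → |t| ≤ M - 1 / 6 := by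
    intro t d d' ht
    have e1 := ht.lo
    have e2 := ht.hi
    rw [abs_le]; constructor <;> linarith
  have hcr : c = r ∨ 1 ≤ |c - r| := by
    rcases hc.tri hr with h | h | h
    · right; rw [abs_of_nonpos (by linarith)]; linarith
    · exact Or.inl h
    · right; rw [abs_of_nonneg (by linarith)]; linarith
  obtain ⟨A0, A1, A2, B, f1, f2, f3, f4, f5, f6⟩ := caseB3_real M N a b c p q r hM hB.2.1
    (by nlinarith) (by nlinarith) (g a _ _ ha) (g b _ _ hb) (g c _ _ hc) (g p _ _ hp) (g q _ _ hq) (g r _ _ hr) hcr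
  refine ⟨A0, A1, A2, B, ?_, ?_, ?_⟩
  · intro v hv hv'
    simp only [Set.mem_insert_iff, Set.mem_singleton_iff] at hv hv'
    rcases hv with rfl | rfl | rfl
    · simpa using f1
    · simpa using f2
    · have hne : c ≠ r := fun h => hv' (Or.inr (Or.inr (by rw [h])))
      simpa using (f5 hne).1
  · intro v hv hv'
    simp only [Set.mem_insert_iff, Set.mem_singleton_iff] at hv hv'
    rcases hv with rfl | rfl | rfl
    · simpa using f3
    · simpa using f4
    · have hne : c ≠ r := fun h => hv' (Or.inr (Or.inr (by rw [h])))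
      simpa using (f5 hne).2
  · intro v hv hv'
    simp only [Set.mem_insert_iff, Set.mem_singleton_iff] at hv hv'
    rcases hv with rfl | rfl | rfl
    · simp at hv'
    · simp at hv'
    · have he : c = r := by simpa using hv'
      simpa using f6 he

end Pool.Agent.K3G
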