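import Pool.Agent.K3G.Defs

set_option autoImplicit false

/-! Case B4 of the cyclic family: the triangles `(0,a),(0,b),(2,c)` and `(1,p),(1,q),(0,r)`. -/

namespace Pool.Agent.K3G

variable {d0 d1 d2 : ℝ}

/-- The values of the form `A0 x_0 + A1 x_1 + A2 x_2 + B h` at the points `(0,t)`, `(1,t)`,
`(2,t)`, where `E x` stands for `N ^ x`. -/
private def v0 (E : ℝ → ℝ) (M A0 A1 A2 B t : ℝ) : ℝ := A0 + A1 * E (t - M) + A2 * E (-t - M) + B * t

/-- see `v0` -/
private def v1 (E : ℝ → ℝ) (M A0 A1 A2 B t : ℝ) : ℝ := A1 + A2 * E (t - M) + A0 * E (-t - M) + B * t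

/-- see `v0` -/
private def v2 (E : ℝ → ℝ) (M A0 A1 A2 B t : ℝ) : ℝ := A2 + A0 * E (t - M) + A1 * E (-t - M) + B * t

/-- What is used of `E x = N ^ x`. -/
structure ExB4 (E : ℝ → ℝ) (M : ℝ) : Prop where
  add : ∀ x y, E (x + y) = E x * E y
  pos : ∀ x, 0 < E x
  mono : ∀ x y, x ≤ y → E x ≤ E y
  big : 20 * (M + 1) ≤ E (1 / 12)

private theorem ExB4.zero {E : ℝ → ℝ} {M : ℝ} (h : ExB4 E M) : E 0 = 1 := by
  have h1 := h.add 0 0
  rw [add_zero] at h1
  have h2 := h.pos 0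
  nlinarith

private theorem ExB4.ge {E : ℝ → ℝ} {M : ℝ} (h : ExB4 E M) {x : ℝ} (hx : 1 / 12 ≤ x) :
    20 * (M + 1) ≤ E x := h.big.trans (h.mono _ _ hx)

private theorem ExB4.le {E : ℝ → ℝ} {M : ℝ} (h : ExB4 E M) (hM : 0 ≤ M) {x : ℝ} (hx : x ≤ -(1 / 12)) :
    E x ≤ 1 / 20 := by
  have h1 : E x * E (-x) = 1 := by rw [← h.add, add_neg_cancel, h.zero]
  have h2 : 20 * (M + 1) ≤ E (-x) := h.ge (by linarith)
  have h3 := h.pos x
  have h4 : (20 : ℝ) ≤ E (-x) := by linarith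
  nlinarith

private theorem ExB4.le_one {E : ℝ → ℝ} {M : ℝ} (h : ExB4 E M) {x : ℝ} (hx : x ≤ 0) : E x ≤ 1 := by
  rw [← h.zero]
  exact h.mono _ _ hx

private theorem ExB4.one_le {E : ℝ → ℝ} {M : ℝ} (h : ExB4 E M) {x : ℝ} (hx : 0 ≤ x) : 1 ≤ E x := by
  rw [← h.zero]
  exact h.mono _ _ hx

private theorem caseB4_core {E : ℝ → ℝ} {M : ℝ} (h : ExB4 E M) (hM : 0 ≤ M) {a b c p q r : ℝ}
    (ha : -M + 1 / 6 ≤ a) (hb : b ≤ M - 1 / 6) (hab : a + 1 ≤ b)
    (hc : -M + 1 / 6 ≤ c) (hc' : c ≤ M - 1 / 6) (habc : a + b + c = -M - 1 / 2)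
    (hp : -M + 1 / 6 ≤ p) (hq : q ≤ M - 1 / 6) (hpq : p + 1 ≤ q)
    (hr : -M + 1 / 6 ≤ r) (hr' : r ≤ M - 1 / 6) (hpqr : p + q + r = -M - 1 / 2)
    (hcase : r ≤ a - 1 ∨ r = a ∨ (a + 1 ≤ r ∧ r ≤ b - 1) ∨ r = b ∨ b + 1 ≤ r) :
    ∃ A0 A1 A2 B : ℝ,
      (0 < v0 E M A0 A1 A2 B a ∨ (r = a ∧ v0 E M A0 A1 A2 B a = 0)) ∧
      (0 < v0 E M A0 A1 A2 B b ∨ (r = b ∧ v0 E M A0 A1 A2 B b = 0)) ∧
      0 < v2 E M A0 A1 A2 B c ∧
      v1 E M A0 A1 A2 B p < 0 ∧ v1 E M A0 A1 A2 B q < 0 ∧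
      (v0 E M A0 A1 A2 B r < 0 ∨ ((r = a ∨ r = b) ∧ v0 E M A0 A1 A2 B r = 0)) := by
  have hab2 : a + b ≤ -(2 / 3) := by linarith
  have hpq2 : r + q ≤ -(2 / 3) := by linarith
  have hqle : ∀ t, t = p ∨ t = q → -M + 1 / 6 ≤ t ∧ t ≤ q := by
    rintro t (rfl | rfl)
    · exact ⟨hp, by linarith⟩
    · exact ⟨by linarith, le_rfl⟩
  -- case I
  have caseI : ∀ u : ℝ, (u = r ∧ r = b) ∨ (u = r - 1 / 2 ∧ b + 1 ≤ r) →
      (0 < v0 E M 0 (-1) (E (2 * u)) 0 a) ∧
      (0 < v0 E M 0 (-1) (E (2 * u)) 0 b ∨ (r = b ∧ v0 E M 0 (-1) (E (2 * u)) 0 b = 0)) ∧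
      0 < v2 E M 0 (-1) (E (2 * u)) 0 c ∧
      v1 E M 0 (-1) (E (2 * u)) 0 p < 0 ∧ v1 E M 0 (-1) (E (2 * u)) 0 q < 0 ∧
      (v0 E M 0 (-1) (E (2 * u)) 0 r < 0 ∨ (r = b ∧ v0 E M 0 (-1) (E (2 * u)) 0 r = 0)) := by
    intro u hu
    have hub : b ≤ u := by rcases hu with ⟨h1, h2⟩ | ⟨h1, h2⟩ <;> linarith
    have hur : u ≤ r := by rcases hu with ⟨h1, h2⟩ | ⟨h1, h2⟩ <;> linarith
    have key : ∀ t, v0 E M 0 (-1) (E (2 * u)) 0 t = E (t - M) * (E (2 * (u - t)) - 1) := by
      intro t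
      unfold v0
      have e1 : E (t - M) * E (2 * (u - t)) = E (2 * u) * E (-t - M) := by
        rw [← h.add, ← h.add]
        congr 1
        ring
      linear_combination -e1
    have kpos : ∀ t, t + 1 / 2 ≤ u → 0 < v0 E M 0 (-1) (E (2 * u)) 0 t := by
      intro t ht
      rw [key]
      have h1 := h.ge (x := 2 * (u - t)) (by linarith)
      have h2 := h.pos (t - M)
      apply mul_pos h2
      linarith
    have kneg : ∀ t, u + 1 / 2 ≤ t → v0 E M 0 (-1) (E (2 * u)) 0 t < 0 := by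
      intro t ht
      rw [key]
      have h1 := h.le hM (x := 2 * (u - t)) (by linarith)
      have h2 := h.pos (t - M)
      nlinarith
    have kzero : v0 E M 0 (-1) (E (2 * u)) 0 u = 0 := by
      rw [key, sub_self, mul_zero, h.zero]
      ring
    have kone : ∀ t, t ≤ q → v1 E M 0 (-1) (E (2 * u)) 0 t < 0 := by
      intro t ht
      unfold v1
      have h1 : E (2 * u) * E (t - M) = E (2 * u + (t - M)) := by rw [h.add]
      have h2 := h.le hM (x := 2 * u + (t - M)) (by linarith)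
      rw [h1]
      linarith
    refine ⟨kpos a (by linarith), ?_, ?_, kone p (by linarith), kone q le_rfl, ?_⟩
    · rcases hu with ⟨h1, h2⟩ | ⟨h1, h2⟩
      · right
        refine ⟨h2, ?_⟩
        have e1 : b = u := by rw [h1, h2]
        rw [e1]
        exact kzero
      · left
        exact kpos b (by linarith)
    · unfold v2
      have e1 : E (2 * u) = E (-c - M) * E (2 * u - (-c - M)) := by
        rw [← h.add]
        congr 1
        ring
      have h1 := h.ge (x := 2 * u - (-c - M)) (by linarith)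
      have h2 := h.pos (-c - M)
      rw [e1]
      nlinarith
    · rcases hu with ⟨h1, h2⟩ | ⟨h1, h2⟩
      · right
        refine ⟨h2, ?_⟩
        rw [h1] at kzero
        rw [h1]
        exact kzero
      · left
        exact kneg r (by linarith)
  -- small corrections
  have s1 : ∀ t, t ≤ M - 1 / 6 → 0 < E (1 / 12) * E (t - M) ∧ E (1 / 12) * E (t - M) ≤ 1 / 20 := by
    intro t ht
    rw [← h.add]
    exact ⟨h.pos _, h.le hM (by linarith)⟩
  have s2 : ∀ t, -M + 1 / 6 ≤ t →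
      0 < E (1 / 12) * E (-t - M) ∧ E (1 / 12) * E (-t - M) ≤ 1 / 20 := by
    intro t ht
    rw [← h.add]
    exact ⟨h.pos _, h.le hM (by linarith)⟩
  have s3 : ∀ t, t ≤ M - 1 / 6 → 0 < E (t - M) ∧ E (t - M) ≤ 1 / 20 := fun t ht =>
    ⟨h.pos _, h.le hM (by linarith)⟩
  have s4 : ∀ t, -M + 1 / 6 ≤ t → 0 < E (-t - M) ∧ E (-t - M) ≤ 1 / 20 := fun t ht =>
    ⟨h.pos _, h.le hM (by linarith)⟩
  have hbig := h.big
  -- case II, the columns 1 and 2
  have two : ∀ A0 : ℝ, -(M + 1) ≤ A0 → A0 ≤ M + 1 →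
      0 < v2 E M A0 (-E (1 / 12)) (E (1 / 12)) 1 c ∧
      v1 E M A0 (-E (1 / 12)) (E (1 / 12)) 1 p < 0 ∧
      v1 E M A0 (-E (1 / 12)) (E (1 / 12)) 1 q < 0 := by
    intro A0 hA hA'
    have k1 : ∀ t, -M + 1 / 6 ≤ t → t ≤ M - 1 / 6 →
        v1 E M A0 (-E (1 / 12)) (E (1 / 12)) 1 t < 0 := by
      intro t ht ht'
      unfold v1
      have h1 := s1 t ht'
      have h2 := s4 t ht
      have h3 : A0 * E (-t - M) ≤ M + 1 := by nlinarith
      linarith [h1.2]
    refine ⟨?_, k1 p hp (by linarith), k1 q (by linarith) hq⟩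
    unfold v2
    have h1 := s2 c hc
    have h2 := s3 c hc'
    have h3 : -(M + 1) ≤ A0 * E (c - M) := by nlinarith
    linarith [h1.2]
  rcases hcase with hc1 | hc1 | ⟨hc1, hc2⟩ | hc1 | hc1
  · -- r < a
    obtain ⟨k2, k3, k4⟩ := two (-(r + 1 / 2)) (by linarith) (by linarith)
    refine ⟨-(r + 1 / 2), -E (1 / 12), E (1 / 12), 1, Or.inl ?_, Or.inl ?_, k2, k3, k4,
      Or.inl ?_⟩
    · unfold v0
      have h1 := s1 a (by linarith)
      have h2 := s2 a ha
      linarith [h1.2, h2.1]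
    · unfold v0
      have h1 := s1 b hb
      have h2 := s2 b (by linarith)
      linarith [h1.2, h2.1]
    · unfold v0
      have h1 := s1 r hr'
      have h2 := s2 r hr
      linarith [h1.1, h2.2]
  · -- r = a
    have h1 := s1 a (by linarith)
    have h2 := s2 a ha
    have h3 := s1 b hb
    have h4 := s2 b (by linarith)
    obtain ⟨k2, k3, k4⟩ := two (E (1 / 12) * E (a - M) - E (1 / 12) * E (-a - M) - a)
      (by linarith [h1.1, h2.2]) (by linarith [h1.2, h2.1])
    have hz : v0 E M (E (1 / 12) * E (a - M) - E (1 / 12) * E (-a - M) - a) (-E (1 / 12))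
        (E (1 / 12)) 1 a = 0 := by
      unfold v0
      ring
    refine ⟨_, -E (1 / 12), E (1 / 12), 1, Or.inr ⟨hc1, hz⟩, Or.inl ?_, k2, k3, k4,
      Or.inr ⟨Or.inl hc1, ?_⟩⟩
    · unfold v0
      linarith [h1.1, h2.2, h3.2, h4.1]
    · rw [hc1]
      exact hz
  · -- a < r < b
    have e1 : E (M - b - 1 / 2) * E (a - M) = E (a - b - 1 / 2) := by
      rw [← h.add]
      congr 1
      ring
    have e2 : E (a + M + 1 / 2) * E (-a - M) = E (1 / 2) := by
      rw [← h.add]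
      congr 1
      ring
    have e3 : E (M - b - 1 / 2) * E (b - M) = E (-(1 / 2)) := by
      rw [← h.add]
      congr 1
      ring
    have e4 : E (a + M + 1 / 2) * E (-b - M) = E (a - b + 1 / 2) := by
      rw [← h.add]
      congr 1
      ring
    have e5 : E (M - b - 1 / 2) * E (r - M) = E (r - b - 1 / 2) := by
      rw [← h.add]
      congr 1
      ring
    have e6 : E (a + M + 1 / 2) * E (-r - M) = E (a - r + 1 / 2) := by
      rw [← h.add]
      congr 1
      ring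
    have e7 : E (M - b - 1 / 2) * E (-c - M) = E (a + M) := by
      rw [← h.add]
      congr 1
      linarith
    have e8 : E (a + M + 1 / 2) = E (a + M) * E (1 / 2) := h.add _ _
    have b1 := h.le_one (x := a - b - 1 / 2) (by linarith)
    have b2 := h.ge (x := 1 / 2) (by norm_num)
    have b3 := h.le hM (x := -(1 / 2)) (by norm_num)
    have b4 := h.pos (a - b + 1 / 2)
    have b5 := h.pos (r - b - 1 / 2)
    have b6 := h.le hM (x := a - r + 1 / 2) (by linarith)
    have b7 := h.one_le (x := a + M) (by linarith)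
    have b8 := h.ge (x := M - b - 1 / 2) (by linarith)
    have k1 : ∀ t, -M + 1 / 6 ≤ t → t ≤ q →
        v1 E M (-(r + 1 / 2)) (-E (M - b - 1 / 2)) (E (a + M + 1 / 2)) 1 t < 0 := by
      intro t ht ht'
      unfold v1
      have g1 : E (a + M + 1 / 2) * E (t - M) =
          E (M - b - 1 / 2) * E (a + b + t + 1 - M) := by
        rw [← h.add, ← h.add]
        congr 1
        ring
      have g2 := h.le hM (x := a + b + t + 1 - M) (by linarith)
      have g3 := s4 t ht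
      have g4 : -(r + 1 / 2) * E (-t - M) ≤ M + 1 := by nlinarith
      have g5 : E (M - b - 1 / 2) * E (a + b + t + 1 - M) ≤ E (M - b - 1 / 2) * (1 / 20) :=
        mul_le_mul_of_nonneg_left g2 (h.pos _).le
      rw [g1]
      linarith
    refine ⟨-(r + 1 / 2), -E (M - b - 1 / 2), E (a + M + 1 / 2), 1, Or.inl ?_, Or.inl ?_, ?_,
      k1 p hp (by linarith), k1 q (by linarith) le_rfl, Or.inl ?_⟩
    · unfold v0
      rw [neg_mul, e1, e2]
      linarith
    · unfold v0
      rw [neg_mul, e3, e4]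
      linarith
    · unfold v2
      rw [neg_mul (E (M - b - 1 / 2)), e7, e8]
      have g1 := s3 c hc'
      have g2 : -(M + 1) ≤ -(r + 1 / 2) * E (c - M) := by nlinarith
      have g3 : E (a + M) * (20 * (M + 1)) ≤ E (a + M) * E (1 / 2) :=
        mul_le_mul_of_nonneg_left b2 (h.pos _).le
      nlinarith
    · unfold v0
      rw [neg_mul, e5, e6]
      linarith
  · -- r = b
    obtain ⟨k1, k2, k3, k4, k5, k6⟩ := caseI r (Or.inl ⟨rfl, hc1⟩)
    exact ⟨0, -1, E (2 * r), 0, Or.inl k1, k2, k3, k4, k5,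
      k6.imp id (fun hh => ⟨Or.inr hh.1, hh.2⟩)⟩
  · -- b < r
    obtain ⟨k1, k2, k3, k4, k5, k6⟩ := caseI (r - 1 / 2) (Or.inr ⟨rfl, hc1⟩)
    exact ⟨0, -1, E (2 * (r - 1 / 2)), 0, Or.inl k1, k2, k3, k4, k5,
      k6.imp id (fun hh => ⟨Or.inr hh.1, hh.2⟩)⟩

/-- case B4 (00|2, 11|0) -/
theorem caseB4 {N M a b c p q r : ℝ} (hB : Big N M) (ha : G d0 d1 M a) (hb : G d0 d1 M b) (hc : G d2 d0 M c)
    (hp : G d1 d2 M p) (hq : G d1 d2 M q) (hr : G d0 d1 M r) (hab : a < b) (hpq : p < q)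
    (h1 : a + b + c = -M - 1 / 2) (h2 : p + q + r = -M - 1 / 2) :
    Sp N M {((0 : ℕ), a), (0, b), (2, c)} {((1 : ℕ), p), (1, q), (0, r)} := by
  have hM := hB.M_pos
  have hE : ExB4 (fun x : ℝ => N ^ x) M := by
    refine ⟨fun x y => hB.add x y, fun x => hB.pos x, fun x y h => hB.mono h, ?_⟩
    have h3 := hB.big (x := 1 / 12) (by norm_num)
    show 20 * (M + 1) ≤ N ^ (1 / 12 : ℝ)
    linarith
  have g1 := ha.gap hb hab
  have g2 := hp.gap hq hpq
  have hcase : r ≤ a - 1 ∨ r = a ∨ (a + 1 ≤ r ∧ r ≤ b - 1) ∨ r = b ∨ b + 1 ≤ r := by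
    rcases hr.tri ha with h3 | h3 | h3
    · left; linarith
    · right; left; exact h3
    · rcases hr.tri hb with h4 | h4 | h4
      · right; right; left; exact ⟨h3, by linarith⟩
      · right; right; right; left; exact h4
      · right; right; right; right; exact h4
  obtain ⟨A0, A1, A2, B, k1, k2, k3, k4, k5, k6⟩ := caseB4_core hE hM.le (by linarith [ha.lo])
    hb.hi g1 (by linarith [hc.lo]) hc.hi h1 (by linarith [hp.lo]) hq.hi g2 (by linarith [hr.lo])
    hr.hi h2 hcase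
  refine ⟨A0, A1, A2, B, ?_, ?_, ?_⟩
  · intro v hv hvT
    simp only [Set.mem_insert_iff, Set.mem_singleton_iff] at hv
    rcases hv with rfl | rfl | rfl
    · rcases k1 with k1 | k1
      · rw [val_zero]; exact k1
      · exact absurd (by rw [k1.1]; simp) hvT
    · rcases k2 with k2 | k2
      · rw [val_zero]; exact k2
      · exact absurd (by rw [k2.1]; simp) hvT
    · rw [val_two]; exact k3
  · intro v hv hvS
    simp only [Set.mem_insert_iff, Set.mem_singleton_iff] at hv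
    rcases hv with rfl | rfl | rfl
    · rw [val_one]; exact k4
    · rw [val_one]; exact k5
    · rcases k6 with k6 | ⟨k6 | k6, k7⟩
      · rw [val_zero]; exact k6
      · exact absurd (by rw [k6]; simp) hvS
      · exact absurd (by rw [k6]; simp) hvS
  · intro v hv hvT
    simp only [Set.mem_insert_iff, Set.mem_singleton_iff] at hv hvT
    rcases hv with rfl | rfl | rfl
    · rcases hvT with h3 | h3 | h3
      · simp at h3
      · simp at h3
      · have h4 : r = a := by simpa using h3.symm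
        rcases k1 with k1 | k1
        · rcases k6 with k6 | k6
          · rw [h4] at k6
            exact absurd k6 (not_lt.2 k1.le)
          · rw [h4] at k6
            exact absurd k6.2 (ne_of_gt k1)
        · rw [val_zero]; exact k1.2
    · rcases hvT with h3 | h3 | h3
      · simp at h3
      · simp at h3
      · have h4 : r = b := by simpa using h3.symm
        rcases k2 with k2 | k2
        · rcases k6 with k6 | k6
          · rw [h4] at k6
            exact absurd k6 (not_lt.2 k2.le)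
          · rw [h4] at k6
            exact absurd k6.2 (ne_of_gt k2)
        · rw [val_zero]; exact k2.2
    · rcases hvT with h3 | h3 | h3
      · simp at h3
      · simp at h3
      · simp at h3

end Pool.Agent.K3G
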