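import Pool.Agent.K3G.A1
import Pool.Agent.K3G.A2
import Pool.Agent.K3G.A3
import Pool.Agent.K3G.B1
import Pool.Agent.K3G.B2
import Pool.Agent.K3G.B3
import Pool.Agent.K3G.B4
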