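import Mathlib

/-! The cyclic system for every `n` (MP_a19305_co): labels, count, normal form. The labels are the
numbers `L < n`, the triangles are the triples of labels with sum `≡ -1` modulo `n`. The corner of
`L` is `(6 L + 1) / (2 n)`, and `rh n L = (6 L + 1) % (2 n)` is `6 (t + M)` for the height `t` and
`M = n / 6`. -/

set_option autoImplicit false

namespace Pool.Agent.K3G

open Finset

/-- the family -/
def F (n : ℕ) : Finset (Finset ℕ) :=
  ((range n).powersetCard 3).filter (fun T => n ∣ (∑ i ∈ T, i) + 1)

theorem mem_F {n : ℕ} {T : Finset ℕ} :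
    T ∈ F n ↔ T ⊆ range n ∧ T.card = 3 ∧ n ∣ (∑ i ∈ T, i) + 1 := by
  simp only [F, mem_filter, mem_powersetCard, and_assoc]

theorem F_sub {n : ℕ} : ∀ T ∈ F n, T ⊆ range n := fun _ hT => (mem_F.1 hT).1

theorem F_card3 {n : ℕ} : ∀ T ∈ F n, T.card = 3 := fun _ hT => (mem_F.1 hT).2.1

theorem F_sum {n : ℕ} : ∀ T ∈ F n, n ∣ (∑ i ∈ T, i) + 1 := fun _ hT => (mem_F.1 hT).2.2

theorem exists_third {S : Finset ℕ} (hc : S.card = 3) {x y : ℕ} (hx : x ∈ S) (hy : y ∈ S)
    (hxy : x ≠ y) : ∃ s ∈ S, S = {x, y, s} ∧ ∑ i ∈ S, i = x + y + s := by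
  have h1 : ((S.erase x).erase y).card = 1 := by
    rw [card_erase_of_mem (mem_erase.2 ⟨hxy.symm, hy⟩), card_erase_of_mem hx, hc]
  obtain ⟨s, hs⟩ := card_eq_one.1 h1
  have hs' : s ∈ (S.erase x).erase y := by rw [hs]; exact mem_singleton_self s
  rw [mem_erase, mem_erase] at hs'
  have e1 : S = {x, y, s} := by
    rw [← hs, insert_erase (mem_erase.2 ⟨hxy.symm, hy⟩), insert_erase hx]
  refine ⟨s, hs'.2.2, e1, ?_⟩
  have hxs : x ∉ ({y, s} : Finset ℕ) := by
    simp only [mem_insert, mem_singleton, not_or]
    exact ⟨hxy, fun h => hs'.2.1 h.symm⟩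
  have hys : y ∉ ({s} : Finset ℕ) := by
    simp only [mem_singleton]
    exact fun h => hs'.1 h.symm
  rw [e1, sum_insert hxs, sum_insert hys, sum_singleton]
  ring

theorem eq_of_sum {n x y s t : ℕ} (hs : s < n) (ht : t < n) (h1 : n ∣ x + y + s + 1)
    (h2 : n ∣ x + y + t + 1) : s = t := by
  have h3 : (x + y + 1) + s ≡ (x + y + 1) + t [MOD n] := by
    have e1 : x + y + s + 1 = (x + y + 1) + s := by ring
    have e2 : x + y + t + 1 = (x + y + 1) + t := by ring
    rw [← e1, ← e2, Nat.ModEq, Nat.mod_eq_zero_of_dvd h1, Nat.mod_eq_zero_of_dvd h2]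
  have h4 := Nat.ModEq.add_left_cancel' _ h3
  rwa [Nat.ModEq, Nat.mod_eq_of_lt hs, Nat.mod_eq_of_lt ht] at h4

theorem F_inter {n : ℕ} : ∀ S ∈ F n, ∀ T ∈ F n, S ≠ T → (S ∩ T).card ≤ 1 := by
  intro S hS T hT hne
  by_contra hcon
  push Not at hcon
  obtain ⟨x, hx, y, hy, hxy⟩ := one_lt_card.1 hcon
  rw [mem_inter] at hx hy
  obtain ⟨s, hs, es, ss⟩ := exists_third (F_card3 S hS) hx.1 hy.1 hxy
  obtain ⟨t, ht, et, st⟩ := exists_third (F_card3 T hT) hx.2 hy.2 hxy
  have h1 := F_sum S hS
  have h2 := F_sum T hT
  rw [ss] at h1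
  rw [st] at h2
  have hst := eq_of_sum (mem_range.1 (F_sub S hS hs)) (mem_range.1 (F_sub T hT ht)) h1 h2
  apply hne
  rw [es, et, hst]

/-- the third label -/
def kk (n i j : ℕ) : ℕ := (2 * n - 1 - i - j) % n

theorem kk_lt {n i j : ℕ} (hn : 0 < n) : kk n i j < n := Nat.mod_lt _ hn

theorem kk_dvd {n i j : ℕ} (hi : i < n) (hj : j < n) : n ∣ i + j + kk n i j + 1 := by
  unfold kk
  have h : i + j + (2 * n - 1 - i - j) + 1 = 2 * n := by omega
  have h2 := Nat.div_add_mod (2 * n - 1 - i - j) n
  have h3 : i + j + (2 * n - 1 - i - j) % n + 1 + n * ((2 * n - 1 - i - j) / n) = 2 * n := by omega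
  have h4 : n ∣ n * ((2 * n - 1 - i - j) / n) := Dvd.intro _ rfl
  have h5 : n ∣ i + j + (2 * n - 1 - i - j) % n + 1 + n * ((2 * n - 1 - i - j) / n) := by
    rw [h3]; exact Dvd.intro_left 2 rfl
  exact (Nat.dvd_add_left h4).1 h5

/-- the ordered pairs of different labels of the triangles -/
def A (n : ℕ) : Finset (ℕ × ℕ) :=
  (range n ×ˢ range n).filter (fun p => p.1 ≠ p.2 ∧ kk n p.1 p.2 ≠ p.1 ∧ kk n p.1 p.2 ≠ p.2)

theorem card_A (n : ℕ) : n * n ≤ (A n).card + 3 * n := by
  classical
  have h1 : ((range n ×ˢ range n) \ A n).card ≤ 3 * n := by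
    have hsub : (range n ×ˢ range n) \ A n ⊆
        ((range n ×ˢ range n).filter (fun p => p.1 = p.2) ∪
        (range n ×ˢ range n).filter (fun p => kk n p.1 p.2 = p.1)) ∪
        (range n ×ˢ range n).filter (fun p => kk n p.1 p.2 = p.2) := by
      intro p hp
      simp only [A, mem_sdiff, mem_filter, mem_union, not_and_or, not_not] at hp ⊢
      tauto
    have b1 : ((range n ×ˢ range n).filter (fun p => p.1 = p.2)).card ≤ n := by
      calc _ ≤ (range n).card := by
            apply card_le_card_of_injOn Prod.fst
            · intro p hp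
              have := (mem_filter.1 (mem_coe.1 hp)).1
              exact (mem_product.1 this).1
            · intro p hp p' hp' h
              have h1 := (mem_filter.1 (mem_coe.1 hp)).2
              have h2 := (mem_filter.1 (mem_coe.1 hp')).2
              exact Prod.ext h (by rw [← h1, ← h2, h])
        _ = n := card_range n
    have b2 : ((range n ×ˢ range n).filter (fun p => kk n p.1 p.2 = p.1)).card ≤ n := by
      calc _ ≤ (range n).card := by
            apply card_le_card_of_injOn Prod.fst
            · intro p hp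
              have := (mem_filter.1 (mem_coe.1 hp)).1
              exact (mem_product.1 this).1
            · rintro ⟨i, j⟩ hp ⟨i', j'⟩ hp' h
              simp only at h
              subst h
              have h1 := mem_filter.1 (mem_coe.1 hp)
              have h2 := mem_filter.1 (mem_coe.1 hp')
              simp only [mem_product, mem_range] at h1 h2
              have d1 := kk_dvd h1.1.1 h1.1.2
              have d2 := kk_dvd h2.1.1 h2.1.2
              rw [h1.2] at d1
              rw [h2.2] at d2
              have := eq_of_sum (x := i) (y := i) h1.1.2 h2.1.2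
                (by rwa [show i + j + i = i + i + j by ring] at d1)
                (by rwa [show i + j' + i = i + i + j' by ring] at d2)
              rw [this]
        _ = n := card_range n
    have b3 : ((range n ×ˢ range n).filter (fun p => kk n p.1 p.2 = p.2)).card ≤ n := by
      calc _ ≤ (range n).card := by
            apply card_le_card_of_injOn Prod.snd
            · intro p hp
              have := (mem_filter.1 (mem_coe.1 hp)).1
              exact (mem_product.1 this).2
            · rintro ⟨i, j⟩ hp ⟨i', j'⟩ hp' h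
              simp only at h
              subst h
              have h1 := mem_filter.1 (mem_coe.1 hp)
              have h2 := mem_filter.1 (mem_coe.1 hp')
              simp only [mem_product, mem_range] at h1 h2
              have d1 := kk_dvd h1.1.1 h1.1.2
              have d2 := kk_dvd h2.1.1 h2.1.2
              rw [h1.2] at d1
              rw [h2.2] at d2
              have := eq_of_sum (x := j) (y := j) h1.1.1 h2.1.1
                (by rwa [show i + j + j = j + j + i by ring] at d1)
                (by rwa [show i' + j + j = j + j + i' by ring] at d2)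
              rw [this]
        _ = n := card_range n
    refine (card_le_card hsub).trans ((card_union_le _ _).trans ?_)
    have := card_union_le ((range n ×ˢ range n).filter (fun p => p.1 = p.2))
      ((range n ×ˢ range n).filter (fun p => kk n p.1 p.2 = p.1))
    omega
  have h2 : A n ⊆ range n ×ˢ range n := filter_subset _ _
  have h3 := card_sdiff_add_card_eq_card h2
  rw [card_product, card_range] at h3
  omega

theorem card_A_eq {n : ℕ} (hn : 0 < n) : (A n).card = 6 * (F n).card := by
  classical
  have hmap : ∀ p ∈ A n, ({p.1, p.2, kk n p.1 p.2} : Finset ℕ) ∈ F n := by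
    intro p hp
    simp only [A, mem_filter, mem_product, mem_range] at hp
    obtain ⟨⟨h1, h2⟩, h3, h4, h5⟩ := hp
    rw [mem_F]
    have e1 : p.1 ∉ ({p.2, kk n p.1 p.2} : Finset ℕ) := by
      simp only [mem_insert, mem_singleton, not_or]
      exact ⟨h3, fun h => h4 h.symm⟩
    have e2 : p.2 ∉ ({kk n p.1 p.2} : Finset ℕ) := by
      simp only [mem_singleton]
      exact fun h => h5 h.symm
    refine ⟨?_, ?_, ?_⟩
    · intro x hx
      simp only [mem_insert, mem_singleton] at hx
      rw [mem_range]
      rcases hx with rfl | rfl | rfl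
      · exact h1
      · exact h2
      · exact kk_lt hn
    · rw [card_insert_of_notMem e1, card_insert_of_notMem e2, card_singleton]
    · rw [sum_insert e1, sum_insert e2, sum_singleton]
      have := kk_dvd h1 h2
      rwa [show p.1 + (p.2 + kk n p.1 p.2) + 1 = p.1 + p.2 + kk n p.1 p.2 + 1 by ring]
  have hfib : ∀ T ∈ F n, ((A n).filter (fun p => ({p.1, p.2, kk n p.1 p.2} : Finset ℕ) = T)).card
      = 6 := by
    intro T hT
    have heq : (A n).filter (fun p => ({p.1, p.2, kk n p.1 p.2} : Finset ℕ) = T) = T.offDiag := by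
      ext ⟨x, y⟩
      simp only [mem_filter, mem_offDiag]
      constructor
      · rintro ⟨h1, h2⟩
        simp only [A, mem_filter, mem_product, mem_range] at h1
        refine ⟨?_, ?_, h1.2.1⟩
        · rw [← h2]; simp
        · rw [← h2]; simp
      · rintro ⟨hx, hy, hxy⟩
        obtain ⟨s, hs, es, ss⟩ := exists_third (F_card3 T hT) hx hy hxy
        have hxn := mem_range.1 (F_sub T hT hx)
        have hyn := mem_range.1 (F_sub T hT hy)
        have hsn := mem_range.1 (F_sub T hT hs)
        have h1 := F_sum T hT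
        rw [ss] at h1
        have hk : kk n x y = s := eq_of_sum (kk_lt hn) hsn (kk_dvd hxn hyn) h1
        have hc := F_card3 T hT
        have hsx : s ≠ x := by
          rintro rfl
          rw [es] at hc
          have : ({s, y, s} : Finset ℕ) = {s, y} := by
            ext z; simp only [mem_insert, mem_singleton]; tauto
          rw [this] at hc
          have := card_le_two (a := s) (b := y)
          omega
        have hsy : s ≠ y := by
          rintro rfl
          rw [es] at hc
          have : ({x, s, s} : Finset ℕ) = {x, s} := by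
            ext z; simp only [mem_insert, mem_singleton]; tauto
          rw [this] at hc
          have := card_le_two (a := x) (b := s)
          omega
        refine ⟨?_, ?_⟩
        · simp only [A, mem_filter, mem_product, mem_range]
          rw [hk]
          exact ⟨⟨hxn, hyn⟩, hxy, hsx, hsy⟩
        · rw [hk, es]
    rw [heq, offDiag_card, F_card3 T hT]
  rw [card_eq_sum_card_fiberwise hmap, sum_congr rfl hfib, sum_const, smul_eq_mul, mul_comm]

/-- **the count** -/
theorem card_F_ge (n : ℕ) (hn : 0 < n) : n * n ≤ 6 * (F n).card + 3 * n := by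
  have h1 := card_A n
  rw [card_A_eq hn] at h1
  exact h1

/-- for `n` not divisible by three the count is at least `(n - 1) (n - 2) / 6` -/
theorem card_F_ge' (n : ℕ) (hn : 0 < n) (h3 : ¬ 3 ∣ n) :
    n * n + 2 ≤ 6 * (F n).card + 3 * n := by
  have h1 := card_F_ge n hn
  obtain ⟨m, r, hr, rfl⟩ : ∃ m r, r < 6 ∧ n = 6 * m + r :=
    ⟨n / 6, n % 6, Nat.mod_lt _ (by norm_num), (Nat.div_add_mod n 6).symm⟩
  have e : (6 * m + r) * (6 * m + r) = 6 * (6 * (m * m) + 2 * (m * r)) + r * r := by ring
  rw [e] at h1 ⊢
  generalize m * m = u at h1 ⊢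
  generalize m * r = v at h1 ⊢
  interval_cases r <;> omega

/-- corner and height -/
def cr (n L : ℕ) : ℕ := (6 * L + 1) / (2 * n)

def rh (n L : ℕ) : ℕ := (6 * L + 1) % (2 * n)

theorem cr_rh (n L : ℕ) : 2 * n * cr n L + rh n L = 6 * L + 1 := Nat.div_add_mod _ _

theorem cr_lt {n L : ℕ} (hL : L < n) : cr n L < 3 := by
  unfold cr
  rw [Nat.div_lt_iff_lt_mul (by omega)]
  omega

theorem rh_lt {n L : ℕ} (hL : L < n) : rh n L < 2 * n := Nat.mod_lt _ (by omega)

theorem rh_odd {n L : ℕ} : rh n L % 2 = 1 := by
  have h := cr_rh n L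
  have : 2 * n * cr n L = 2 * (n * cr n L) := by ring
  rw [this] at h
  omega

end Pool.Agent.K3G
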