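import Pool.Agent.K3G.Nf
import Pool.Agent.K3G.Asm
import Pool.Agent.HCYC.Geo

/-! The cyclic system for every `n` (MP_a19305_co): the points, the triangles are not degenerate,
the configuration. -/

set_option autoImplicit false

namespace Pool.Agent.K3G

open Pool.Agent.H42K Pool.Agent.HCYC

/-- the height of the point with label `L` -/
noncomputable def tt (n L : ℕ) : ℝ := ((rh n L : ℝ) - n) / 6

/-- corner and height -/
noncomputable def lb (n L : ℕ) : ℕ × ℝ := (cr n L, tt n L)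

/-- the point, in the coordinates `x_0, x_1, t, x_0 + x_1 + x_2` -/
noncomputable def pnt (N M : ℝ) (v : ℕ × ℝ) : Pt where
  x := if v.1 = 0 then 1 else if v.1 = 1 then N ^ (-v.2 - M) else N ^ (v.2 - M)
  y := if v.1 = 0 then N ^ (v.2 - M) else if v.1 = 1 then 1 else N ^ (-v.2 - M)
  w := v.2
  h := 1 + N ^ (v.2 - M) + N ^ (-v.2 - M)

/-- the form of `Pt` which belongs to `(A0, A1, A2, B)` -/
def fm (A0 A1 A2 B : ℝ) : Pt := ⟨A0 - A2, A1 - A2, B, A2⟩

theorem ap_fm (N M A0 A1 A2 B : ℝ) (v : ℕ × ℝ) :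
    ap (fm A0 A1 A2 B) (pnt N M v) = val N M A0 A1 A2 B v := by
  unfold ap fm pnt val
  simp only
  split_ifs <;> ring

theorem pnt_pos {N : ℝ} (hN : 0 < N) (M : ℝ) (v : ℕ × ℝ) : 0 < (pnt N M v).h := by
  unfold pnt
  have h1 := Real.rpow_pos_of_pos hN (v.2 - M)
  have h2 := Real.rpow_pos_of_pos hN (-v.2 - M)
  simp only
  linarith

theorem lb_inj {n L L' : ℕ} (h : lb n L = lb n L') : L = L' := by
  simp only [lb, Prod.mk.injEq, tt] at h
  obtain ⟨h1, h2⟩ := h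
  have h3 : (rh n L : ℝ) = rh n L' := by linarith
  have h4 : rh n L = rh n L' := by exact_mod_cast h3
  have h5 := cr_rh n L
  have h6 := cr_rh n L'
  rw [h1, h4] at h5
  omega

/-- separation of the labels -/
theorem sep_of_Sp {N M : ℝ} {n : ℕ} {S T : Finset ℕ}
    (h : Sp N M (lb n '' (S : Set ℕ)) (lb n '' (T : Set ℕ))) :
    Sep (fun L => pnt N M (lb n L)) S T := by
  obtain ⟨A0, A1, A2, B, h1, h2, h3⟩ := h
  refine ⟨fm A0 A1 A2 B, ?_, ?_, ?_⟩
  · intro r hr hr'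
    show 0 < ap (fm A0 A1 A2 B) (pnt N M (lb n r))
    rw [ap_fm]
    refine h1 _ ⟨r, hr, rfl⟩ ?_
    rintro ⟨s, hs, e⟩
    exact hr' (lb_inj e ▸ hs)
  · intro r hr hr'
    show ap (fm A0 A1 A2 B) (pnt N M (lb n r)) < 0
    rw [ap_fm]
    refine h2 _ ⟨r, hr, rfl⟩ ?_
    rintro ⟨s, hs, e⟩
    exact hr' (lb_inj e ▸ hs)
  · intro r hr hr'
    show ap (fm A0 A1 A2 B) (pnt N M (lb n r)) = 0
    rw [ap_fm]
    exact h3 _ ⟨r, hr, rfl⟩ ⟨r, hr', rfl⟩

/-- the offset of the first point of a corner, in sixths -/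
def ro (n e : ℕ) : ℕ := (1 + 4 * n * e) % 6

/-- the grid of a corner -/
def gr (n : ℕ) (e : ℕ) (t : ℝ) : Prop :=
  G ((ro n e : ℝ) / 6) ((ro n ((e + 1) % 3) : ℝ) / 6) ((n : ℝ) / 6) t

theorem ro_bd (n e : ℕ) : 1 ≤ ro n e ∧ ro n e ≤ 5 := by
  have h : 4 * n * e = 2 * (2 * n * e) := by ring
  unfold ro
  rw [h]
  omega

theorem gr_tt {n L : ℕ} (hL : L < n) : gr n (cr n L) (tt n L) := by
  have h1 := cr_rh n L
  have h2 := rh_lt hL
  have h3 := cr_lt hL
  have b0 := ro_bd n (cr n L)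
  have b1 := ro_bd n ((cr n L + 1) % 3)
  obtain ⟨k, hk⟩ : ∃ k, rh n L = 6 * k + ro n (cr n L) := by
    refine ⟨(rh n L) / 6, ?_⟩
    unfold ro
    generalize cr n L = e at *
    generalize rh n L = r at *
    interval_cases e <;> omega
  have hup : rh n L + 6 ≤ 2 * n + ro n ((cr n L + 1) % 3) := by
    unfold ro
    generalize cr n L = e at *
    generalize rh n L = r at *
    interval_cases e <;> simp only [Nat.reduceAdd, Nat.reduceMod] <;> omega
  have hk' : (rh n L : ℝ) = 6 * k + ro n (cr n L) := by exact_mod_cast hk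
  have hup' : (rh n L : ℝ) + 6 ≤ 2 * n + ro n ((cr n L + 1) % 3) := by exact_mod_cast hup
  have c0 : (1 : ℝ) ≤ ro n (cr n L) := by exact_mod_cast b0.1
  have c1 : (ro n ((cr n L + 1) % 3) : ℝ) ≤ 5 := by exact_mod_cast b1.2
  refine ⟨by linarith, by linarith, k, ?_, ?_⟩
  · unfold tt; linarith
  · unfold tt; linarith

/-- the values, seen from the corner `e` -/
theorem exists_rot (N M : ℝ) {e : ℕ} (he : e < 3) (x y z b : ℝ) :
    ∃ a0 a1 a2 : ℝ,
      (∀ t, val N M a0 a1 a2 b (e, t) = x + y * N ^ (t - M) + z * N ^ (-t - M) + b * t) ∧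
      (∀ t, val N M a0 a1 a2 b ((e + 1) % 3, t) =
        y + z * N ^ (t - M) + x * N ^ (-t - M) + b * t) ∧
      (∀ t, val N M a0 a1 a2 b ((e + 2) % 3, t) =
        z + x * N ^ (t - M) + y * N ^ (-t - M) + b * t) := by
  interval_cases e
  · exact ⟨x, y, z, fun t => by simp, fun t => by simp, fun t => by simp⟩
  · exact ⟨z, x, y, fun t => by simp, fun t => by simp, fun t => by simp⟩
  · exact ⟨y, z, x, fun t => by simp, fun t => by simp, fun t => by simp⟩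

/-- a height of the corner -/
def Ht (M t : ℝ) : Prop := 1 / 6 - M ≤ t ∧ t ≤ M - 1 / 6

theorem Ht.up {N M t : ℝ} (hB : Big N M) (h : Ht M t) :
    0 < N ^ (t - M) ∧ N ^ (t - M) * (1000 * (M + 1)) ≤ 1 :=
  ⟨hB.pos _, hB.small (by linarith [h.2])⟩

theorem Ht.dn {N M t : ℝ} (hB : Big N M) (h : Ht M t) :
    0 < N ^ (-t - M) ∧ N ^ (-t - M) * (1000 * (M + 1)) ≤ 1 :=
  ⟨hB.pos _, hB.small (by linarith [h.1])⟩

theorem Ht.abs {M t : ℝ} (h : Ht M t) : |t| ≤ M := by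
  rw [abs_le]; constructor <;> linarith [h.1, h.2]

theorem small_le {M u : ℝ} (hM : 0 < M) (hu : 0 < u) (h : u * (1000 * (M + 1)) ≤ 1) :
    u ≤ 1 / 1000 := by
  have : 0 < u * M := mul_pos hu hM
  linarith

theorem one_sub_pos {M u v : ℝ} (hM : 0 < M) (hu : 0 < u ∧ u * (1000 * (M + 1)) ≤ 1)
    (hv : 0 < v ∧ v * (1000 * (M + 1)) ≤ 1) : 0 < 1 - u * v := by
  have : u * v ≤ 1 / 1000 * (1 / 1000) :=
    mul_le_mul (small_le hM hu.1 hu.2) (small_le hM hv.1 hv.2) hv.1.le (by norm_num)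
  linarith

theorem num_ab {M s ta tb tc ua ub w : ℝ} (hM : 0 < M) (hs : s = 1 ∨ s = -1)
    (hta : |ta| ≤ M) (htc : |tc| ≤ M) (hd : 1 ≤ s * (tb - ta))
    (hua : 0 < ua ∧ ua * (1000 * (M + 1)) ≤ 1) (hub : 0 < ub ∧ ub * (1000 * (M + 1)) ≤ 1)
    (hw : 0 < w ∧ w * (1000 * (M + 1)) ≤ 1) :
    0 < -(s * ta + 12 * (M + 1) * ua) + 12 * (M + 1) * ub + s * tb ∧
    0 < 12 * (M + 1) + -(s * ta + 12 * (M + 1) * ua) * w + s * tc := by
  have h1 : 12 * (M + 1) * ua ≤ 12 / 1000 := by linarith [hua.2]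
  have h2 : 0 < 12 * (M + 1) * ub := by have := hub.1; positivity
  have h3 : 0 < 12 * (M + 1) * ua := by have := hua.1; positivity
  refine ⟨by linarith, ?_⟩
  have hsta : s * ta ≤ M := by
    rcases hs with rfl | rfl
    · linarith [le_abs_self ta]
    · linarith [neg_abs_le ta]
  have hstc : -M ≤ s * tc := by
    rcases hs with rfl | rfl
    · linarith [neg_abs_le tc]
    · linarith [le_abs_self tc]
  have h4 : (s * ta + 12 * (M + 1) * ua) * w ≤ 1 := by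
    have h5 : s * ta + 12 * (M + 1) * ua ≤ M + 1 := by linarith
    have h6 : (s * ta + 12 * (M + 1) * ua) * w ≤ (M + 1) * w :=
      mul_le_mul_of_nonneg_right h5 hw.1.le
    have h7 := hw.2
    have h8 : 0 < (M + 1) * w := by have := hw.1; positivity
    linarith
  linarith

theorem nd_at {N M : ℝ} (hB : Big N M) {e j : ℕ} (he : e < 3)
    (hj : j = (e + 1) % 3 ∨ j = (e + 2) % 3) {s a b c : ℝ} (hs : s = 1 ∨ s = -1)
    (hd : 1 ≤ s * (b - a)) (ha : Ht M a) (hb : Ht M b) (hc : Ht M c) :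
    ∃ f : Pt, ap f (pnt N M (e, a)) = 0 ∧ 0 < ap f (pnt N M (e, b)) ∧
      0 < ap f (pnt N M (j, c)) := by
  have hM := hB.M_pos
  rcases hj with rfl | rfl
  · obtain ⟨a0, a1, a2, v0, v1, v2⟩ := exists_rot N M he
      (-(s * a + 12 * (M + 1) * N ^ (a - M))) (12 * (M + 1)) 0 s
    have hn := num_ab hM hs ha.abs hc.abs hd (ha.up hB) (hb.up hB) (hc.dn hB)
    refine ⟨fm a0 a1 a2 s, ?_, ?_, ?_⟩
    · rw [ap_fm, v0]; ring
    · rw [ap_fm, v0]; linarith [hn.1]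
    · rw [ap_fm, v1]; linarith [hn.2]
  · obtain ⟨a0, a1, a2, v0, v1, v2⟩ := exists_rot N M he
      (-(s * a + 12 * (M + 1) * N ^ (-a - M))) 0 (12 * (M + 1)) s
    have hn := num_ab hM hs ha.abs hc.abs hd (ha.dn hB) (hb.dn hB) (hc.up hB)
    refine ⟨fm a0 a1 a2 s, ?_, ?_, ?_⟩
    · rw [ap_fm, v0]; ring
    · rw [ap_fm, v0]; linarith [hn.1]
    · rw [ap_fm, v2]; linarith [hn.2]

theorem nd_third {N M : ℝ} (hB : Big N M) {e j : ℕ} (he : e < 3)
    (hj : j = (e + 1) % 3 ∨ j = (e + 2) % 3) {a b c : ℝ} (ha : Ht M a) (hb : Ht M b)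
    (hc : Ht M c) :
    ∃ f : Pt, ap f (pnt N M (j, c)) = 0 ∧ 0 < ap f (pnt N M (e, a)) ∧
      0 < ap f (pnt N M (e, b)) := by
  have hM := hB.M_pos
  rcases hj with rfl | rfl
  · obtain ⟨a0, a1, a2, v0, v1, v2⟩ := exists_rot N M he 1 (-N ^ (-c - M)) 0 0
    have h1 := one_sub_pos hM (hc.dn hB) (ha.up hB)
    have h2 := one_sub_pos hM (hc.dn hB) (hb.up hB)
    refine ⟨fm a0 a1 a2 0, ?_, ?_, ?_⟩
    · rw [ap_fm, v1]; ring
    · rw [ap_fm, v0]; linarith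
    · rw [ap_fm, v0]; linarith
  · obtain ⟨a0, a1, a2, v0, v1, v2⟩ := exists_rot N M he 1 0 (-N ^ (c - M)) 0
    have h1 := one_sub_pos hM (hc.up hB) (ha.dn hB)
    have h2 := one_sub_pos hM (hc.up hB) (hb.dn hB)
    refine ⟨fm a0 a1 a2 0, ?_, ?_, ?_⟩
    · rw [ap_fm, v2]; ring
    · rw [ap_fm, v0]; linarith
    · rw [ap_fm, v0]; linarith

theorem ht_tt {n L : ℕ} (hL : L < n) : Ht ((n : ℝ) / 6) (tt n L) :=
  ⟨(gr_tt hL).lo, (gr_tt hL).hi⟩

theorem tt_lt {n x y : ℕ} (hxy : x < y) (hc : cr n x = cr n y) : tt n x + 1 ≤ tt n y := by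
  have h1 := cr_rh n x
  have h2 := cr_rh n y
  rw [← hc] at h2
  have h3 : rh n x + 6 ≤ rh n y := by omega
  have h4 : (rh n x : ℝ) + 6 ≤ rh n y := by exact_mod_cast h3
  unfold tt
  linarith

/-- **the triangles are not degenerate** -/
theorem F_nd {n : ℕ} {N : ℝ} (hB : Big N ((n : ℝ) / 6)) : ∀ T ∈ F n, ∀ k ∈ T, ∃ f : Pt,
    ap f (pnt N ((n : ℝ) / 6) (lb n k)) = 0 ∧
      ∀ t ∈ T, t ≠ k → 0 < ap f (pnt N ((n : ℝ) / 6) (lb n t)) := by
  intro T hT k hk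
  obtain ⟨x, y, z, rfl, hxy, hx, hy, hz, hc, hk3⟩ := exists_nf hT
  have he : cr n x < 3 := cr_lt hx
  have hj : cr n z = (cr n x + 1) % 3 ∨ cr n z = (cr n x + 2) % 3 := by
    rcases hk3 with h | h
    · exact Or.inl h.1
    · exact Or.inr h.1
  have hxt := ht_tt hx
  have hyt := ht_tt hy
  have hzt := ht_tt hz
  have hlt := tt_lt hxy hc
  have ey : lb n y = (cr n x, tt n y) := by rw [lb, hc]
  simp only [Finset.mem_insert, Finset.mem_singleton] at hk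
  rcases hk with rfl | rfl | rfl
  · obtain ⟨f, f0, f1, f2⟩ := nd_at hB he hj (s := 1) (Or.inl rfl) (by linarith) hxt hyt hzt
    refine ⟨f, f0, ?_⟩
    intro t ht hne
    simp only [Finset.mem_insert, Finset.mem_singleton] at ht
    rcases ht with rfl | rfl | rfl
    · exact absurd rfl hne
    · rw [ey]; exact f1
    · exact f2
  · obtain ⟨f, f0, f1, f2⟩ := nd_at hB he hj (s := -1) (Or.inr rfl) (by linarith) hyt hxt hzt
    refine ⟨f, by rw [ey]; exact f0, ?_⟩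
    intro t ht hne
    simp only [Finset.mem_insert, Finset.mem_singleton] at ht
    rcases ht with rfl | rfl | rfl
    · exact f1
    · exact absurd rfl hne
    · exact f2
  · obtain ⟨f, f0, f1, f2⟩ := nd_third hB he hj hxt hyt hzt
    refine ⟨f, f0, ?_⟩
    intro t ht hne
    simp only [Finset.mem_insert, Finset.mem_singleton] at ht
    rcases ht with rfl | rfl | rfl
    · exact f1
    · rw [ey]; exact f2
    · exact absurd rfl hne

/-- **the points are different** -/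
theorem pnt_inj {n : ℕ} {N : ℝ} (hB : Big N ((n : ℝ) / 6)) : ∀ L < n, ∀ L' < n, L ≠ L' →
    ∃ f : Pt, ap f (pnt N ((n : ℝ) / 6) (lb n L)) = 0 ∧
      ap f (pnt N ((n : ℝ) / 6) (lb n L')) ≠ 0 := by
  intro L hL L' hL' hne
  have hM := hB.M_pos
  have he : cr n L < 3 := cr_lt hL
  have he' : cr n L' < 3 := cr_lt hL'
  have hcases : cr n L' = cr n L ∨ cr n L' = (cr n L + 1) % 3 ∨ cr n L' = (cr n L + 2) % 3 := by
    omega
  rcases hcases with h1 | h1 | h1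
  · obtain ⟨a0, a1, a2, v0, v1, v2⟩ := exists_rot N ((n : ℝ) / 6) he (-tt n L) 0 0 1
    refine ⟨fm a0 a1 a2 1, ?_, ?_⟩
    · rw [ap_fm, lb, v0]; ring
    · rw [ap_fm, lb, h1, v0]
      intro hh
      apply hne
      apply lb_inj (n := n)
      have : tt n L = tt n L' := by linarith
      rw [lb, lb, h1, this]
  · obtain ⟨a0, a1, a2, v0, v1, v2⟩ := exists_rot N ((n : ℝ) / 6) he
      (-N ^ (tt n L - (n : ℝ) / 6)) 1 0 0
    have := one_sub_pos hM ((ht_tt hL).up hB) ((ht_tt hL').dn hB)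
    refine ⟨fm a0 a1 a2 0, ?_, ?_⟩
    · rw [ap_fm, lb, v0]; ring
    · rw [ap_fm, lb, h1, v1]
      intro hh
      linarith
  · obtain ⟨a0, a1, a2, v0, v1, v2⟩ := exists_rot N ((n : ℝ) / 6) he
      (-N ^ (-tt n L - (n : ℝ) / 6)) 0 1 0
    have := one_sub_pos hM ((ht_tt hL).dn hB) ((ht_tt hL').up hB)
    refine ⟨fm a0 a1 a2 0, ?_, ?_⟩
    · rw [ap_fm, lb, v0]; ring
    · rw [ap_fm, lb, h1, v2]
      intro hh
      linarith

/-- a large number -/
theorem exists_Big {M : ℝ} (hM : 1 / 2 ≤ M) : ∃ N : ℝ, Big N M := by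
  refine ⟨(1000 * (M + 1)) ^ (24 : ℝ), hM, ?_, ?_⟩
  · exact Real.one_lt_rpow (by linarith) (by norm_num)
  · rw [← Real.rpow_mul (by linarith)]
    norm_num

/-- the image of a triangle -/
theorem F_tr {n : ℕ} {T : Finset ℕ} (hT : T ∈ F n) :
    ∃ e k a b c, e < 3 ∧ Ok3 ((n : ℝ) / 6) (gr n) e k a b c ∧
      lb n '' (T : Set ℕ) = tr e k a b c ∧
      (∃ x y z, T = {x, y, z} ∧ lb n x = (e, a) ∧ lb n y = (e, b) ∧
        lb n z = ((e + k) % 3, c)) := by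
  obtain ⟨x, y, z, rfl, hxy, hx, hy, hz, hc, hk3⟩ := exists_nf hT
  have he : cr n x < 3 := cr_lt hx
  have hlt := tt_lt hxy hc
  have ex : lb n x = (cr n x, tt n x) := rfl
  have ey : lb n y = (cr n x, tt n y) := by rw [lb, hc]
  have gx : gr n (cr n x % 3) (tt n x) := by rw [Nat.mod_eq_of_lt he]; exact gr_tt hx
  have gy : gr n (cr n x % 3) (tt n y) := by rw [Nat.mod_eq_of_lt he, hc]; exact gr_tt hy
  rcases hk3 with ⟨h1, h2⟩ | ⟨h1, h2⟩
  · have h2' : (rh n x : ℝ) + rh n y + rh n z + 3 = 4 * n := by exact_mod_cast h2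
    refine ⟨cr n x, 1, tt n x, tt n y, tt n z, he, ⟨gx, gy, ?_, by linarith, Or.inl ⟨rfl, ?_⟩⟩,
      ?_, x, y, z, rfl, ex, ey, ?_⟩
    · rw [← h1]; exact gr_tt hz
    · unfold tt; linarith
    · simp only [Finset.coe_insert, Finset.coe_singleton, Set.image_insert_eq,
        Set.image_singleton, tr]
      rw [ex, ey, lb, h1, Nat.mod_eq_of_lt he]
    · rw [lb, h1]
  · have h2' : (rh n x : ℝ) + rh n y + rh n z + 3 = 2 * n := by exact_mod_cast h2
    refine ⟨cr n x, 2, tt n x, tt n y, tt n z, he, ⟨gx, gy, ?_, by linarith, Or.inr ⟨rfl, ?_⟩⟩,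
      ?_, x, y, z, rfl, ex, ey, ?_⟩
    · rw [← h1]; exact gr_tt hz
    · unfold tt; linarith
    · simp only [Finset.coe_insert, Finset.coe_singleton, Set.image_insert_eq,
        Set.image_singleton, tr]
      rw [ex, ey, lb, h1, Nat.mod_eq_of_lt he]
    · rw [lb, h1]

/-- the separation of any two triangles, from the cases -/
theorem sep_all {n : ℕ} {N : ℝ} (hc : Rots N ((n : ℝ) / 6) (gr n)) :
    ∀ S ∈ F n, ∀ T ∈ F n, S ≠ T →
      Sep (fun L => pnt N ((n : ℝ) / 6) (lb n L)) S T := by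
  intro S hS T hT hne
  obtain ⟨e, k, a, b, c, he, ho, hi, x, y, z, eS, ex, ey, ez⟩ := F_tr hS
  obtain ⟨e', k', p, q, r, he', ho', hi', x', y', z', eT, ex', ey', ez'⟩ := F_tr hT
  apply sep_of_Sp
  rw [hi, hi']
  apply hc.all ho ho'
  rintro ⟨h1, h2, h3, h4⟩
  apply hne
  rw [Nat.mod_eq_of_lt he, Nat.mod_eq_of_lt he'] at h1
  subst h1 h2 h3 h4
  have hcr : c = r := by
    rcases ho.2.2.2.2 with ⟨h5, h6⟩ | ⟨h5, h6⟩ <;> rcases ho'.2.2.2.2 with ⟨h7, h8⟩ | ⟨h7, h8⟩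
    · linarith
    · omega
    · omega
    · linarith
  subst hcr
  have hx : x = x' := lb_inj (ex.trans ex'.symm)
  have hy : y = y' := lb_inj (ey.trans ey'.symm)
  have hz : z = z' := lb_inj (ez.trans ez'.symm)
  rw [eS, eT, hx, hy, hz]

/-- **the configuration** -/
theorem cfg {n : ℕ} {N : ℝ} (hB : Big N ((n : ℝ) / 6))
    (hc : Rots N ((n : ℝ) / 6) (gr n)) :
    CfgC n (fun L => pnt N ((n : ℝ) / 6) (lb n L)) (F n) where
  sub := F_sub
  card := F_card3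
  inter := F_inter
  sep := sep_all hc
  nd := F_nd hB
  pos := fun k _ => pnt_pos hB.N_pos _ _
  inj := pnt_inj hB

end Pool.Agent.K3G
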