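import Pool.Agent.K3G.Fam
import Pool.Agent.K3G.Pt

/-! The cyclic system for `n = 3 m` with the second offset (MP_a19305_co): the labels are the
numbers `L < n`, the triangles are the triples of labels with sum `≡ -3` modulo `n`; one triangle
more than for the sum `≡ -1`. -/

set_option autoImplicit false

namespace Pool.Agent.K3G

open Finset

/-- the family -/
def F5 (n : ℕ) : Finset (Finset ℕ) :=
  ((range n).powersetCard 3).filter (fun T => n ∣ (∑ i ∈ T, i) + 3)

theorem mem_F5 {n : ℕ} {T : Finset ℕ} :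
    T ∈ F5 n ↔ T ⊆ range n ∧ T.card = 3 ∧ n ∣ (∑ i ∈ T, i) + 3 := by
  simp only [F5, mem_filter, mem_powersetCard, and_assoc]

theorem F5_sub {n : ℕ} : ∀ T ∈ F5 n, T ⊆ range n := fun _ hT => (mem_F5.1 hT).1

theorem F5_card3 {n : ℕ} : ∀ T ∈ F5 n, T.card = 3 := fun _ hT => (mem_F5.1 hT).2.1

theorem F5_sum {n : ℕ} : ∀ T ∈ F5 n, n ∣ (∑ i ∈ T, i) + 3 := fun _ hT => (mem_F5.1 hT).2.2

theorem eq_of_sum5 {n x y s t : ℕ} (hs : s < n) (ht : t < n) (h1 : n ∣ x + y + s + 3)
    (h2 : n ∣ x + y + t + 3) : s = t := by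
  have h3 : (x + y + 3) + s ≡ (x + y + 3) + t [MOD n] := by
    have e1 : x + y + s + 3 = (x + y + 3) + s := by ring
    have e2 : x + y + t + 3 = (x + y + 3) + t := by ring
    rw [← e1, ← e2, Nat.ModEq, Nat.mod_eq_zero_of_dvd h1, Nat.mod_eq_zero_of_dvd h2]
  have h4 := Nat.ModEq.add_left_cancel' _ h3
  rwa [Nat.ModEq, Nat.mod_eq_of_lt hs, Nat.mod_eq_of_lt ht] at h4

theorem F5_inter {n : ℕ} : ∀ S ∈ F5 n, ∀ T ∈ F5 n, S ≠ T → (S ∩ T).card ≤ 1 := by
  intro S hS T hT hne
  by_contra hcon
  push Not at hcon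
  obtain ⟨x, hx, y, hy, hxy⟩ := one_lt_card.1 hcon
  rw [mem_inter] at hx hy
  obtain ⟨s, hs, es, ss⟩ := exists_third (F5_card3 S hS) hx.1 hy.1 hxy
  obtain ⟨t, ht, et, st⟩ := exists_third (F5_card3 T hT) hx.2 hy.2 hxy
  have h1 := F5_sum S hS
  have h2 := F5_sum T hT
  rw [ss] at h1
  rw [st] at h2
  have hst := eq_of_sum5 (mem_range.1 (F5_sub S hS hs)) (mem_range.1 (F5_sub T hT ht)) h1 h2
  apply hne
  rw [es, et, hst]

/-- the third label -/
def kk5 (n i j : ℕ) : ℕ := (3 * n - 3 - i - j) % n

theorem kk5_lt {n i j : ℕ} (hn : 0 < n) : kk5 n i j < n := Nat.mod_lt _ hn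

theorem kk5_dvd {n i j : ℕ} (hi : i < n) (hj : j < n) : n ∣ i + j + kk5 n i j + 3 := by
  unfold kk5
  have h : i + j + (3 * n - 3 - i - j) + 3 = 3 * n := by omega
  have h2 := Nat.div_add_mod (3 * n - 3 - i - j) n
  have h3 : i + j + (3 * n - 3 - i - j) % n + 3 + n * ((3 * n - 3 - i - j) / n) = 3 * n := by omega
  have h4 : n ∣ n * ((3 * n - 3 - i - j) / n) := Dvd.intro _ rfl
  have h5 : n ∣ i + j + (3 * n - 3 - i - j) % n + 3 + n * ((3 * n - 3 - i - j) / n) := by
    rw [h3]; exact Dvd.intro_left 3 rfl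
  exact (Nat.dvd_add_left h4).1 h5

/-- the ordered pairs of different labels of the triangles -/
def A5 (n : ℕ) : Finset (ℕ × ℕ) :=
  (range n ×ˢ range n).filter (fun p => p.1 ≠ p.2 ∧ kk5 n p.1 p.2 ≠ p.1 ∧ kk5 n p.1 p.2 ≠ p.2)

/-- the labels which are their own third label -/
def fix5 (m : ℕ) : Finset ℕ := {m - 1, 2 * m - 1, 3 * m - 1}

theorem fix5_card {m : ℕ} (hm : 0 < m) : (range (3 * m) \ fix5 m).card + 3 ≤ 3 * m := by
  have h1 : fix5 m ⊆ range (3 * m) := by
    intro x hx
    simp only [fix5, mem_insert, mem_singleton] at hx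
    rw [mem_range]
    omega
  have h2 : (fix5 m).card = 3 := by
    unfold fix5
    rw [card_insert_of_notMem, card_insert_of_notMem, card_singleton]
    · simp only [mem_singleton]; omega
    · simp only [mem_insert, mem_singleton]; omega
  have h3 := card_sdiff_add_card_eq_card h1
  rw [h2, card_range] at h3
  omega

theorem fix5_dvd {m i : ℕ} (hm : 0 < m) (hi : i ∈ fix5 m) : 3 * m ∣ i + i + i + 3 := by
  simp only [fix5, mem_insert, mem_singleton] at hi
  rcases hi with rfl | rfl | rfl
  · exact ⟨1, by omega⟩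
  · exact ⟨2, by omega⟩
  · exact ⟨3, by omega⟩

theorem card_A5 {m : ℕ} (hm : 0 < m) :
    (3 * m) * (3 * m) + 6 ≤ (A5 (3 * m)).card + 3 * (3 * m) := by
  classical
  have hlt : ∀ i, i < 3 * m → i ∈ range (3 * m) := fun i hi => mem_range.2 hi
  have h1 : ((range (3 * m) ×ˢ range (3 * m)) \ A5 (3 * m)).card + 6 ≤ 3 * (3 * m) := by
    have hsub : (range (3 * m) ×ˢ range (3 * m)) \ A5 (3 * m) ⊆
        ((range (3 * m) ×ˢ range (3 * m)).filter (fun p => p.1 = p.2) ∪
        (range (3 * m) ×ˢ range (3 * m)).filter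
          (fun p => kk5 (3 * m) p.1 p.2 = p.1 ∧ p.1 ≠ p.2)) ∪
        (range (3 * m) ×ˢ range (3 * m)).filter
          (fun p => kk5 (3 * m) p.1 p.2 = p.2 ∧ p.1 ≠ p.2) := by
      intro p hp
      simp only [A5, mem_sdiff, mem_filter, mem_union, not_and_or, not_not] at hp ⊢
      tauto
    have b1 : ((range (3 * m) ×ˢ range (3 * m)).filter (fun p => p.1 = p.2)).card ≤ 3 * m := by
      calc _ ≤ (range (3 * m)).card := by
            apply card_le_card_of_injOn Prod.fst
            · intro p hp
              have := (mem_filter.1 (mem_coe.1 hp)).1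
              exact (mem_product.1 this).1
            · intro p hp p' hp' h
              have h1 := (mem_filter.1 (mem_coe.1 hp)).2
              have h2 := (mem_filter.1 (mem_coe.1 hp')).2
              exact Prod.ext h (by rw [← h1, ← h2, h])
        _ = 3 * m := card_range _
    have b2 : ((range (3 * m) ×ˢ range (3 * m)).filter
        (fun p => kk5 (3 * m) p.1 p.2 = p.1 ∧ p.1 ≠ p.2)).card
        ≤ (range (3 * m) \ fix5 m).card := by
      apply card_le_card_of_injOn Prod.fst
      · rintro ⟨i, j⟩ hp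
        have h1 := mem_filter.1 (mem_coe.1 hp)
        simp only [mem_product, mem_range] at h1
        rw [mem_coe, mem_sdiff]
        refine ⟨hlt i h1.1.1, fun hf => h1.2.2 ?_⟩
        have d1 := kk5_dvd h1.1.1 h1.1.2
        rw [h1.2.1] at d1
        exact (eq_of_sum5 (x := i) (y := i) h1.1.2 h1.1.1
          (by rwa [show i + j + i = i + i + j by ring] at d1) (fix5_dvd hm hf)).symm
      · rintro ⟨i, j⟩ hp ⟨i', j'⟩ hp' h
        simp only at h
        subst h
        have h1 := mem_filter.1 (mem_coe.1 hp)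
        have h2 := mem_filter.1 (mem_coe.1 hp')
        simp only [mem_product, mem_range] at h1 h2
        have d1 := kk5_dvd h1.1.1 h1.1.2
        have d2 := kk5_dvd h2.1.1 h2.1.2
        rw [h1.2.1] at d1
        rw [h2.2.1] at d2
        have := eq_of_sum5 (x := i) (y := i) h1.1.2 h2.1.2
          (by rwa [show i + j + i = i + i + j by ring] at d1)
          (by rwa [show i + j' + i = i + i + j' by ring] at d2)
        rw [this]
    have b3 : ((range (3 * m) ×ˢ range (3 * m)).filter
        (fun p => kk5 (3 * m) p.1 p.2 = p.2 ∧ p.1 ≠ p.2)).card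
        ≤ (range (3 * m) \ fix5 m).card := by
      apply card_le_card_of_injOn Prod.snd
      · rintro ⟨i, j⟩ hp
        have h1 := mem_filter.1 (mem_coe.1 hp)
        simp only [mem_product, mem_range] at h1
        rw [mem_coe, mem_sdiff]
        refine ⟨hlt j h1.1.2, fun hf => h1.2.2 ?_⟩
        have d1 := kk5_dvd h1.1.1 h1.1.2
        rw [h1.2.1] at d1
        exact eq_of_sum5 (x := j) (y := j) h1.1.1 h1.1.2
          (by rwa [show i + j + j = j + j + i by ring] at d1) (fix5_dvd hm hf)
      · rintro ⟨i, j⟩ hp ⟨i', j'⟩ hp' h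
        simp only at h
        subst h
        have h1 := mem_filter.1 (mem_coe.1 hp)
        have h2 := mem_filter.1 (mem_coe.1 hp')
        simp only [mem_product, mem_range] at h1 h2
        have d1 := kk5_dvd h1.1.1 h1.1.2
        have d2 := kk5_dvd h2.1.1 h2.1.2
        rw [h1.2.1] at d1
        rw [h2.2.1] at d2
        have := eq_of_sum5 (x := j) (y := j) h1.1.1 h2.1.1
          (by rwa [show i + j + j = j + j + i by ring] at d1)
          (by rwa [show i' + j + j = j + j + i' by ring] at d2)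
        rw [this]
    have b4 := fix5_card hm
    have b5 := card_le_card hsub
    have b6 := card_union_le
      ((range (3 * m) ×ˢ range (3 * m)).filter (fun p => p.1 = p.2) ∪
        (range (3 * m) ×ˢ range (3 * m)).filter
          (fun p => kk5 (3 * m) p.1 p.2 = p.1 ∧ p.1 ≠ p.2))
      ((range (3 * m) ×ˢ range (3 * m)).filter
          (fun p => kk5 (3 * m) p.1 p.2 = p.2 ∧ p.1 ≠ p.2))
    have b7 := card_union_le ((range (3 * m) ×ˢ range (3 * m)).filter (fun p => p.1 = p.2))
      ((range (3 * m) ×ˢ range (3 * m)).filter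
          (fun p => kk5 (3 * m) p.1 p.2 = p.1 ∧ p.1 ≠ p.2))
    omega
  have h2 : A5 (3 * m) ⊆ range (3 * m) ×ˢ range (3 * m) := filter_subset _ _
  have h3 := card_sdiff_add_card_eq_card h2
  rw [card_product, card_range] at h3
  omega

theorem card_A5_eq {n : ℕ} (hn : 0 < n) : (A5 n).card = 6 * (F5 n).card := by
  classical
  have hmap : ∀ p ∈ A5 n, ({p.1, p.2, kk5 n p.1 p.2} : Finset ℕ) ∈ F5 n := by
    intro p hp
    simp only [A5, mem_filter, mem_product, mem_range] at hp
    obtain ⟨⟨h1, h2⟩, h3, h4, h5⟩ := hp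
    rw [mem_F5]
    have e1 : p.1 ∉ ({p.2, kk5 n p.1 p.2} : Finset ℕ) := by
      simp only [mem_insert, mem_singleton, not_or]
      exact ⟨h3, fun h => h4 h.symm⟩
    have e2 : p.2 ∉ ({kk5 n p.1 p.2} : Finset ℕ) := by
      simp only [mem_singleton]
      exact fun h => h5 h.symm
    refine ⟨?_, ?_, ?_⟩
    · intro x hx
      simp only [mem_insert, mem_singleton] at hx
      rw [mem_range]
      rcases hx with rfl | rfl | rfl
      · exact h1
      · exact h2
      · exact kk5_lt hn
    · rw [card_insert_of_notMem e1, card_insert_of_notMem e2, card_singleton]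
    · rw [sum_insert e1, sum_insert e2, sum_singleton]
      have := kk5_dvd h1 h2
      rwa [show p.1 + (p.2 + kk5 n p.1 p.2) + 3 = p.1 + p.2 + kk5 n p.1 p.2 + 3 by ring]
  have hfib : ∀ T ∈ F5 n, ((A5 n).filter (fun p => ({p.1, p.2, kk5 n p.1 p.2} : Finset ℕ) = T)).card
      = 6 := by
    intro T hT
    have heq : (A5 n).filter (fun p => ({p.1, p.2, kk5 n p.1 p.2} : Finset ℕ) = T) = T.offDiag := by
      ext ⟨x, y⟩
      simp only [mem_filter, mem_offDiag]
      constructor
      · rintro ⟨h1, h2⟩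
        simp only [A5, mem_filter, mem_product, mem_range] at h1
        refine ⟨?_, ?_, h1.2.1⟩
        · rw [← h2]; simp
        · rw [← h2]; simp
      · rintro ⟨hx, hy, hxy⟩
        obtain ⟨s, hs, es, ss⟩ := exists_third (F5_card3 T hT) hx hy hxy
        have hxn := mem_range.1 (F5_sub T hT hx)
        have hyn := mem_range.1 (F5_sub T hT hy)
        have hsn := mem_range.1 (F5_sub T hT hs)
        have h1 := F5_sum T hT
        rw [ss] at h1
        have hk : kk5 n x y = s := eq_of_sum5 (kk5_lt hn) hsn (kk5_dvd hxn hyn) h1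
        have hc := F5_card3 T hT
        have hsx : s ≠ x := by
          rintro rfl
          rw [es] at hc
          have : ({s, y, s} : Finset ℕ) = {s, y} := by
            ext z; simp only [mem_insert, mem_singleton]; tauto
          rw [this] at hc
          have := card_le_two (a := s) (b := y)
          omega
        have hsy : s ≠ y := by
          rintro rfl
          rw [es] at hc
          have : ({x, s, s} : Finset ℕ) = {x, s} := by
            ext z; simp only [mem_insert, mem_singleton]; tauto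
          rw [this] at hc
          have := card_le_two (a := x) (b := s)
          omega
        refine ⟨?_, ?_⟩
        · simp only [A5, mem_filter, mem_product, mem_range]
          rw [hk]
          exact ⟨⟨hxn, hyn⟩, hxy, hsx, hsy⟩
        · rw [hk, es]
    rw [heq, offDiag_card, F5_card3 T hT]
  rw [card_eq_sum_card_fiberwise hmap, sum_congr rfl hfib, sum_const, smul_eq_mul, mul_comm]


/-- **the count** -/
theorem card_F5_ge {m : ℕ} (hm : 0 < m) :
    (3 * m) * (3 * m) + 6 ≤ 6 * (F5 (3 * m)).card + 3 * (3 * m) := by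
  have h1 := card_A5 hm
  rw [card_A5_eq (by omega)] at h1
  exact h1

end Pool.Agent.K3G
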