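import Pool.Agent.K3G.Defs

/-! The labels `L < n` on the grid: corner `e = (6 L + 1) / (2 n)`, coordinate
`t = (((6 L + 1) mod (2 n)) - n) / 6`, `M = n / 6` (MP_a19305_co). -/

set_option autoImplicit false

namespace Pool.Agent.K3G

/-- six times the offset of the first point of the corner `e` -/
def off (n e : ℕ) : ℕ := 6 * ((2 * n * e + 4) / 6) + 1 - 2 * n * e

theorem off_zero (n : ℕ) : off n 0 = 1 := by simp [off]

theorem off_three (n : ℕ) : off n 3 = 1 := by
  unfold off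
  omega

theorem off_bounds (n e : ℕ) : 1 ≤ off n e ∧ off n e ≤ 5 := by
  unfold off
  generalize h : n * e = x
  have h1 : 2 * n * e = 2 * x := by rw [← h]; ring
  rw [h1]
  omega

theorem off_mod (n e : ℕ) (he : e < 3) : off n ((e + 1) % 3) = off n (e + 1) := by
  interval_cases e
  · rfl
  · rfl
  · rw [off_three, off_zero]

/-- every label is on the grid of its corner -/
theorem grid {n L e : ℕ} (hL : L < n) (he : (6 * L + 1) / (2 * n) = e) :
    G ((off n e : ℝ) / 6) ((off n ((e + 1) % 3) : ℝ) / 6) ((n : ℝ) / 6)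
      ((((6 * L + 1) % (2 * n) : ℕ) - (n : ℝ)) / 6) := by
  have hn : 0 < 2 * n := by omega
  have he3 : e < 3 := by
    rw [← he]
    exact (Nat.div_lt_iff_lt_mul hn).2 (by omega)
  rw [off_mod n e he3]
  have h0 := Nat.div_add_mod (6 * L + 1) (2 * n)
  rw [he] at h0
  have hlt : (6 * L + 1) % (2 * n) < 2 * n := Nat.mod_lt _ hn
  generalize hr : (6 * L + 1) % (2 * n) = r at *
  obtain ⟨x, hx⟩ : ∃ x, x = n * e := ⟨_, rfl⟩
  have h1 : 2 * n * e = 2 * x := by rw [hx]; ring
  have h2 : 2 * n * (e + 1) = 2 * x + 2 * n := by rw [hx]; ring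
  rw [h1] at h0
  have hb := off_bounds n e
  have hb' := off_bounds n (e + 1)
  obtain ⟨j, hj⟩ : ∃ j, j = (2 * x + 4) / 6 := ⟨_, rfl⟩
  obtain ⟨j', hj'⟩ : ∃ j', j' = (2 * x + 2 * n + 4) / 6 := ⟨_, rfl⟩
  have e1 : off n e + 2 * x = 6 * j + 1 := by
    unfold off
    rw [h1, ← hj]
    omega
  have e2 : off n (e + 1) + (2 * x + 2 * n) = 6 * j' + 1 := by
    unfold off
    rw [h2, ← hj']
    omega
  have k1 : j ≤ L := by omega
  have k2 : L + 1 ≤ j' := by omega
  refine ⟨?_, ?_, L - j, ?_, ?_⟩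
  · have : (1 : ℝ) ≤ off n e := by exact_mod_cast hb.1
    linarith
  · have : (off n (e + 1) : ℝ) ≤ 5 := by exact_mod_cast hb'.2
    linarith
  · have r0 : (2 : ℝ) * x + r = 6 * L + 1 := by exact_mod_cast h0
    have r2 : (off n (e + 1) : ℝ) + (2 * x + 2 * n) = 6 * j' + 1 := by exact_mod_cast e2
    have r3 : (L : ℝ) + 1 ≤ j' := by exact_mod_cast k2
    linarith
  · have r0 : (2 : ℝ) * x + r = 6 * L + 1 := by exact_mod_cast h0
    have r1 : (off n e : ℝ) + 2 * x = 6 * j + 1 := by exact_mod_cast e1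
    rw [Nat.cast_sub k1]
    linarith

end Pool.Agent.K3G
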