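import Pool.Agent.K3G.Pt
import Pool.Agent.K3G.A1
import Pool.Agent.K3G.A2
import Pool.Agent.K3G.A3
import Pool.Agent.K3G.B1
import Pool.Agent.K3G.B2
import Pool.Agent.K3G.B3
import Pool.Agent.K3G.B4

/-! The cyclic system for every `n` (MP_a19305_co): the lower bound. -/

set_option autoImplicit false

namespace Pool.Agent.K3G

open Pool.Agent.H42K Pool.Agent.HCYC

theorem cases3 {N M : ℝ} (hB : Big N M) (d0 d1 d2 : ℝ) :
    Cases3 N M (G d0 d1 M) (G d1 d2 M) (G d2 d0 M) where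
  A1 := fun _ _ _ _ _ _ ha hb hc hp hq hr hab hpq h1 h2 hne =>
    caseA1 hB ha hb hc hp hq hr hab hpq h1 h2 hne
  A2 := fun _ _ _ _ _ _ ha hb hc hp hq hr hab hpq h1 h2 hne =>
    caseA2 hB ha hb hc hp hq hr hab hpq h1 h2 hne
  A3 := fun _ _ _ _ _ _ ha hb hc hp hq hr hab hpq h1 h2 =>
    caseA3 hB ha hb hc hp hq hr hab hpq h1 h2
  B1 := fun _ _ _ _ _ _ ha hb hc hp hq hr hab hpq h1 h2 =>
    caseB1 hB ha hb hc hp hq hr hab hpq h1 h2
  B2 := fun _ _ _ _ _ _ ha hb hc hp hq hr hab hpq h1 h2 =>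
    caseB2 hB ha hb hc hp hq hr hab hpq h1 h2
  B3 := fun _ _ _ _ _ _ ha hb hc hp hq hr hab hpq h1 h2 =>
    caseB3 hB ha hb hc hp hq hr hab hpq h1 h2
  B4 := fun _ _ _ _ _ _ ha hb hc hp hq hr hab hpq h1 h2 =>
    caseB4 hB ha hb hc hp hq hr hab hpq h1 h2

theorem rots {n : ℕ} {N : ℝ} (hB : Big N ((n : ℝ) / 6)) : Rots N ((n : ℝ) / 6) (gr n) :=
  ⟨cases3 hB _ _ _, cases3 hB _ _ _, cases3 hB _ _ _⟩

/-- **the family is realized**, for every `n` -/
theorem card_F_le {n : ℕ} (hn : 3 ≤ n) : (F n).card ≤ T n := by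
  have h3 : (3 : ℝ) ≤ n := by exact_mod_cast hn
  obtain ⟨N, hB⟩ := exists_Big (M := (n : ℝ) / 6) (by linarith)
  exact (cfg hB (rots hB)).le_T

/-- **the lower bound** `n (n - 3) / 6` for every `n` -/
theorem T_ge (n : ℕ) : n * n ≤ 6 * T n + 3 * n := by
  rcases Nat.lt_or_ge n 3 with h | h
  · interval_cases n <;> omega
  · have h1 := card_F_le h
    have h2 := card_F_ge n (by omega)
    omega

/-- **the lower bound** `(n - 1) (n - 2) / 6` for `n` not divisible by three -/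
theorem T_ge' (n : ℕ) (h3 : ¬ 3 ∣ n) : n * n + 2 ≤ 6 * T n + 3 * n := by
  rcases Nat.lt_or_ge n 3 with h | h
  · interval_cases n
    · exact absurd (Dvd.intro_left 0 rfl) h3
    · omega
    · omega
  · have h1 := card_F_le h
    have h2 := card_F_ge' n (by omega) h3
    omega

end Pool.Agent.K3G
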