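import Pool.Agent.K3G.Pt5
import Pool.Agent.HCYC.Fin

/-! The cyclic system for every `n` (MP_a19305_co): the uniform statements. -/

set_option autoImplicit false

namespace Pool.Agent.K3G

open Pool.Agent.H42K Pool.Agent.HCYC Filter Topology

/-- the uniform lower bound, natural numbers -/
theorem T_uni (n : ℕ) (hn : 1 ≤ n) : (n - 1) * (n - 2) ≤ 6 * T n := by
  have h1 := (T_all n hn).1
  rcases Nat.lt_or_ge n 2 with h | h
  · interval_cases n
    simp
  · obtain ⟨k, rfl⟩ : ∃ k, n = k + 2 := ⟨n - 2, by omega⟩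
    have e : (k + 2) * (k + 2) + 2 = (k + 2 - 1) * (k + 2 - 2) + 3 * (k + 2) := by
      rw [show k + 2 - 1 = k + 1 by omega, show k + 2 - 2 = k by omega]
      ring
    omega

/-- the uniform lower bound, floor form: the orchard number -/
theorem T_floor (n : ℕ) (hn : 3 ≤ n) : n * (n - 3) / 6 + 1 ≤ T n := by
  rcases T_all' n (by omega) with h | h
  · exact h
  · omega

/-- the uniform lower bound, real numbers -/
theorem T_uni_real (n : ℕ) (hn : 1 ≤ n) : ((n : ℝ) - 1) * ((n : ℝ) - 2) / 6 ≤ (T n : ℝ) := by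
  have h1 := (T_all n hn).1
  have h2 : (n : ℝ) * n + 2 ≤ 6 * (T n : ℝ) + 3 * n := by exact_mod_cast h1
  nlinarith

/-- the limit -/
theorem T_lim : Tendsto (fun n : ℕ => (T n : ℝ) / (n : ℝ) ^ 2) atTop (𝓝 (1 / 6)) := by
  refine tendsto_of ?_
  intro n hn
  have h1 := T_uni_real n (by omega)
  have h2 : (2 : ℝ) ≤ n := by exact_mod_cast hn
  nlinarith

end Pool.Agent.K3G
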