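import Pool.Agent.K3G.Fam

/-! The normal form of the triangles of the cyclic system for every `n`: two labels in one corner,
the third one in another corner. -/

set_option autoImplicit false

namespace Pool.Agent.K3G

open Finset

theorem nf_aux {n x y z : ℕ} (hx : x < n) (hy : y < n) (hz : z < n) (hxy : x ≠ y) (hxz : x ≠ z)
    (hyz : y ≠ z) (hd : n ∣ x + y + z + 1) :
    ((cr n x + cr n y + cr n z) % 3 = 1 ∧ rh n x + rh n y + rh n z + 3 = 4 * n) ∨
    ((cr n x + cr n y + cr n z) % 3 = 2 ∧ rh n x + rh n y + rh n z + 3 = 2 * n) := by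
  have hn : 0 < n := by omega
  obtain ⟨k, hk⟩ := hd
  have hk1 : k < 3 := by
    by_contra h
    have h1 : n * 3 ≤ n * k := Nat.mul_le_mul_left n (by omega)
    omega
  have hk0 : 0 < k := by
    rcases Nat.eq_zero_or_pos k with h | h
    · subst h; omega
    · exact h
  have ex := cr_rh n x
  have ey := cr_rh n y
  have ez := cr_rh n z
  have lx := rh_lt hx
  have ly := rh_lt hy
  have lz := rh_lt hz
  have cx := cr_lt hx
  have cy := cr_lt hy
  have cz := cr_lt hz
  generalize cr n x = a at *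
  generalize cr n y = b at *
  generalize cr n z = c at *
  generalize rh n x = r at *
  generalize rh n y = s at *
  generalize rh n z = t at *
  interval_cases k <;> interval_cases a <;> interval_cases b <;> interval_cases c <;> omega

/-- the normal form, with `x < y` in the same corner -/
def NF (n : ℕ) (T : Finset ℕ) (x y z : ℕ) : Prop :=
  T = {x, y, z} ∧ x < y ∧ x < n ∧ y < n ∧ z < n ∧ cr n x = cr n y ∧
    ((cr n z = (cr n x + 1) % 3 ∧ rh n x + rh n y + rh n z + 3 = 4 * n) ∨
    (cr n z = (cr n x + 2) % 3 ∧ rh n x + rh n y + rh n z + 3 = 2 * n))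

theorem nf_two {n x y z : ℕ} {T : Finset ℕ} (hT : T = {x, y, z}) (hx : x < n) (hy : y < n)
    (hz : z < n) (hxy : x ≠ y) (hxz : x ≠ z) (hyz : y ≠ z) (hd : n ∣ x + y + z + 1)
    (hc : cr n x = cr n y) : ∃ x y z : ℕ, NF n T x y z := by
  have h := nf_aux hx hy hz hxy hxz hyz hd
  have cx := cr_lt hx
  have cz := cr_lt hz
  rcases lt_or_gt_of_ne hxy with h1 | h1
  · refine ⟨x, y, z, hT, h1, hx, hy, hz, hc, ?_⟩
    rcases h with ⟨h2, h3⟩ | ⟨h2, h3⟩
    · left; refine ⟨?_, h3⟩; omega
    · right; refine ⟨?_, h3⟩; omega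
  · refine ⟨y, x, z, ?_, h1, hy, hx, hz, hc.symm, ?_⟩
    · rw [hT]; exact insert_comm x y {z}
    · rcases h with ⟨h2, h3⟩ | ⟨h2, h3⟩
      · left; constructor <;> omega
      · right; constructor <;> omega

theorem exists_nf {n : ℕ} {T : Finset ℕ} (hT : T ∈ F n) : ∃ x y z : ℕ, NF n T x y z := by
  obtain ⟨hsub, hc, hd⟩ := mem_F.1 hT
  obtain ⟨x, y, z, hxy, hxz, hyz, e⟩ := card_eq_three.1 hc
  have hx : x < n := mem_range.1 (hsub (by rw [e]; simp))
  have hy : y < n := mem_range.1 (hsub (by rw [e]; simp))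
  have hz : z < n := mem_range.1 (hsub (by rw [e]; simp))
  have hs : ∑ i ∈ T, i = x + y + z := by
    rw [e, sum_insert (by simp [hxy, hxz]), sum_insert (by simp [hyz]), sum_singleton]
    ring
  rw [hs] at hd
  have cx := cr_lt hx
  have cy := cr_lt hy
  have cz := cr_lt hz
  have h := nf_aux hx hy hz hxy hxz hyz hd
  have h3 : cr n x = cr n y ∨ cr n x = cr n z ∨ cr n y = cr n z := by omega
  rcases h3 with h3 | h3 | h3
  · exact nf_two e hx hy hz hxy hxz hyz hd h3
  · refine nf_two (x := x) (y := z) (z := y) ?_ hx hz hy hxz hxy hyz.symm ?_ h3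
    · rw [e]; congr 1; exact pair_comm y z
    · rwa [show x + z + y + 1 = x + y + z + 1 by ring]
  · refine nf_two (x := y) (y := z) (z := x) ?_ hy hz hx hyz hxy.symm hxz.symm ?_ h3
    · rw [e]; ext w; simp only [mem_insert, mem_singleton]; tauto
    · rwa [show y + z + x + 1 = x + y + z + 1 by ring]

end Pool.Agent.K3G
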