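import Pool.Agent.K3G.Five
import Pool.Agent.K3G.Main

/-! The cyclic system for `n = 3 m` with the second offset (MP_a19305_co): the points, the
separation. One triangle has its vertices in three different corners. -/

set_option autoImplicit false

namespace Pool.Agent.K3G

open Pool.Agent.H42K Pool.Agent.HCYC

theorem nf5_aux {m u v w : ℕ} (hm : 0 < m) (hu : u < 3 * m) (hv : v < 3 * m) (hw : w < 3 * m)
    (huv : u ≠ v) (hd : 3 * m ∣ u + v + w + 3) (he : u / m = v / m) :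
    (w / m = (u / m + 1) % 3 ∧ u % m + v % m + w % m + 3 = 2 * m) ∨
    (w / m = (u / m + 2) % 3 ∧ u % m + v % m + w % m + 3 = m) := by
  obtain ⟨j, hj⟩ := hd
  have h1 := Nat.div_add_mod u m
  have h2 := Nat.div_add_mod v m
  have h3 := Nat.div_add_mod w m
  have l1 := Nat.mod_lt u hm
  have l2 := Nat.mod_lt v hm
  have l3 := Nat.mod_lt w hm
  have c1 : u / m < 3 := (Nat.div_lt_iff_lt_mul hm).2 hu
  have c3 : w / m < 3 := (Nat.div_lt_iff_lt_mul hm).2 hw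
  rw [← he] at h2
  have hj3 : j < 3 := by
    by_contra hc
    have h4 : 3 * m * 3 ≤ 3 * m * j := Nat.mul_le_mul_left (3 * m) (by omega)
    omega
  generalize u / m = e at *
  generalize w / m = f at *
  generalize u % m = r at *
  generalize v % m = s at *
  generalize w % m = t at *
  interval_cases j <;> interval_cases e <;> interval_cases f <;> omega

theorem nf5_all {m u v w : ℕ} (hm : 0 < m) (hu : u < 3 * m) (hv : v < 3 * m) (hw : w < 3 * m)
    (huv : u ≠ v) (huw : u ≠ w) (hd : 3 * m ∣ u + v + w + 3) :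
    u / m = v / m ∨ v / m = w / m ∨ u / m = w / m ∨
      ((u = m - 1 ∨ u = 2 * m - 1 ∨ u = 3 * m - 1) ∧
      (v = m - 1 ∨ v = 2 * m - 1 ∨ v = 3 * m - 1) ∧
      (w = m - 1 ∨ w = 2 * m - 1 ∨ w = 3 * m - 1)) := by
  obtain ⟨j, hj⟩ := hd
  have h1 := Nat.div_add_mod u m
  have h2 := Nat.div_add_mod v m
  have h3 := Nat.div_add_mod w m
  have l1 := Nat.mod_lt u hm
  have l2 := Nat.mod_lt v hm
  have l3 := Nat.mod_lt w hm
  have c1 : u / m < 3 := (Nat.div_lt_iff_lt_mul hm).2 hu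
  have c2 : v / m < 3 := (Nat.div_lt_iff_lt_mul hm).2 hv
  have c3 : w / m < 3 := (Nat.div_lt_iff_lt_mul hm).2 hw
  have hj3 : j < 3 := by
    by_contra hc
    have h4 : 3 * m * 3 ≤ 3 * m * j := Nat.mul_le_mul_left (3 * m) (by omega)
    omega
  generalize u / m = e at *
  generalize v / m = g at *
  generalize w / m = f at *
  generalize u % m = r at *
  generalize v % m = s at *
  generalize w % m = t at *
  interval_cases j <;> interval_cases e <;> interval_cases g <;> interval_cases f <;> omega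

/-- the normal form, with `x < y` in the same corner -/
def NF5 (m : ℕ) (T : Finset ℕ) (x y z : ℕ) : Prop :=
  T = {x, y, z} ∧ x < y ∧ x < 3 * m ∧ y < 3 * m ∧ z < 3 * m ∧ x / m = y / m ∧
    ((z / m = (x / m + 1) % 3 ∧ x % m + y % m + z % m + 3 = 2 * m) ∨
    (z / m = (x / m + 2) % 3 ∧ x % m + y % m + z % m + 3 = m))

theorem exists_nf5 {m : ℕ} (hm : 0 < m) {T : Finset ℕ} (hT : T ∈ F5 (3 * m)) :
    T = fix5 m ∨ ∃ x y z, NF5 m T x y z := by
  have key : ∀ u v w, T = {u, v, w} → u < 3 * m → v < 3 * m → w < 3 * m → u ≠ v →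
      3 * m ∣ u + v + w + 3 → u / m = v / m → ∃ x y z, NF5 m T x y z := by
    intro u v w hT hu hv hw huv hd he
    rcases Nat.lt_or_gt_of_ne huv with h | h
    · exact ⟨u, v, w, hT, h, hu, hv, hw, he, nf5_aux hm hu hv hw huv hd he⟩
    · refine ⟨v, u, w, ?_, h, hv, hu, hw, he.symm, ?_⟩
      · rw [hT]; ext z; simp only [Finset.mem_insert, Finset.mem_singleton]; tauto
      · exact nf5_aux hm hv hu hw huv.symm
          (by rwa [show v + u + w + 3 = u + v + w + 3 by ring]) he.symm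
  obtain ⟨a, b, c, hab, hac, hbc, hE⟩ := Finset.card_eq_three.1 (F5_card3 T hT)
  have hlt : ∀ k ∈ T, k < 3 * m := fun k hk => Finset.mem_range.1 (F5_sub T hT hk)
  have ha : a < 3 * m := hlt a (by rw [hE]; simp)
  have hb : b < 3 * m := hlt b (by rw [hE]; simp)
  have hc : c < 3 * m := hlt c (by rw [hE]; simp)
  have hd := F5_sum T hT
  have hs : ∑ i ∈ T, i = a + b + c := by
    have e1 : a ∉ ({b, c} : Finset ℕ) := by
      simp only [Finset.mem_insert, Finset.mem_singleton, not_or]; exact ⟨hab, hac⟩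
    have e2 : b ∉ ({c} : Finset ℕ) := by simp only [Finset.mem_singleton]; exact hbc
    rw [hE, Finset.sum_insert e1, Finset.sum_insert e2, Finset.sum_singleton]
    ring
  rw [hs] at hd
  rcases nf5_all hm ha hb hc hab hac hd with h | h | h | ⟨h1, h2, h3⟩
  · exact Or.inr (key a b c hE ha hb hc hab hd h)
  · refine Or.inr (key b c a ?_ hb hc ha hbc
      (by rwa [show b + c + a + 3 = a + b + c + 3 by ring]) h)
    rw [hE]; ext z; simp only [Finset.mem_insert, Finset.mem_singleton]; tauto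
  · refine Or.inr (key a c b ?_ ha hc hb hac
      (by rwa [show a + c + b + 3 = a + b + c + 3 by ring]) h)
    rw [hE]; ext z; simp only [Finset.mem_insert, Finset.mem_singleton]; tauto
  · left
    apply Finset.eq_of_subset_of_card_le
    · intro z hz
      rw [hE] at hz
      simp only [Finset.mem_insert, Finset.mem_singleton] at hz
      simp only [fix5, Finset.mem_insert, Finset.mem_singleton]
      rcases hz with rfl | rfl | rfl
      · exact h1
      · exact h2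
      · exact h3
    · rw [F5_card3 T hT]
      exact Finset.card_le_three

/-- corner and height -/
noncomputable def lb5 (m L : ℕ) : ℕ × ℝ := (L / m, ((L % m : ℕ) : ℝ) + 5 / 6 - (m : ℝ) / 2)

theorem lb5_inj {m L L' : ℕ} (h : lb5 m L = lb5 m L') : L = L' := by
  simp only [lb5, Prod.mk.injEq] at h
  obtain ⟨h1, h2⟩ := h
  have h3 : ((L % m : ℕ) : ℝ) = ((L' % m : ℕ) : ℝ) := by linarith
  have h4 : L % m = L' % m := by exact_mod_cast h3
  rw [← Nat.div_add_mod L m, ← Nat.div_add_mod L' m, h1, h4]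

theorem lb5_lt {m L : ℕ} (hm : 0 < m) (hL : L < 3 * m) : (lb5 m L).1 < 3 :=
  (Nat.div_lt_iff_lt_mul hm).2 hL

theorem G5 {m L : ℕ} (hm : 0 < m) : G (5 / 6) (5 / 6) ((m : ℝ) / 2) (lb5 m L).2 := by
  have h1 : L % m + 1 ≤ m := Nat.mod_lt L hm
  have h2 : ((L % m : ℕ) : ℝ) + 1 ≤ m := by exact_mod_cast h1
  refine ⟨by norm_num, by norm_num, L % m, ?_, rfl⟩
  show ((L % m : ℕ) : ℝ) + 5 / 6 - (m : ℝ) / 2 ≤ (m : ℝ) / 2 - 1 + 5 / 6
  linarith

theorem ht5 {m L : ℕ} (hm : 0 < m) : Ht ((m : ℝ) / 2) (lb5 m L).2 :=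
  ⟨(G5 hm).lo, (G5 hm).hi⟩

theorem sep_of_Sp5 {N M : ℝ} {m : ℕ} {S T : Finset ℕ}
    (h : Sp N M (lb5 m '' (S : Set ℕ)) (lb5 m '' (T : Set ℕ))) :
    Sep (fun L => pnt N M (lb5 m L)) S T := by
  obtain ⟨A0, A1, A2, B, h1, h2, h3⟩ := h
  refine ⟨fm A0 A1 A2 B, ?_, ?_, ?_⟩
  · intro r hr hr'
    show 0 < ap (fm A0 A1 A2 B) (pnt N M (lb5 m r))
    rw [ap_fm]
    refine h1 _ ⟨r, hr, rfl⟩ ?_
    rintro ⟨s, hs, e⟩
    exact hr' (lb5_inj e ▸ hs)
  · intro r hr hr'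
    show ap (fm A0 A1 A2 B) (pnt N M (lb5 m r)) < 0
    rw [ap_fm]
    refine h2 _ ⟨r, hr, rfl⟩ ?_
    rintro ⟨s, hs, e⟩
    exact hr' (lb5_inj e ▸ hs)
  · intro r hr hr'
    show ap (fm A0 A1 A2 B) (pnt N M (lb5 m r)) = 0
    rw [ap_fm]
    exact h3 _ ⟨r, hr, rfl⟩ ⟨r, hr', rfl⟩

theorem Sep.symm5 {P : ℕ → Pt} {S T : Finset ℕ} (h : Sep P S T) : Sep P T S := by
  obtain ⟨f, h1, h2, h3⟩ := h
  have hn : ∀ p : Pt, ap (⟨-f.x, -f.y, -f.w, -f.h⟩ : Pt) p = - ap f p := by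
    intro p; unfold ap; ring
  refine ⟨⟨-f.x, -f.y, -f.w, -f.h⟩, ?_, ?_, ?_⟩
  · intro r hr hr'
    rw [hn]
    have := h2 r hr hr'
    linarith
  · intro r hr hr'
    rw [hn]
    have := h1 r hr hr'
    linarith
  · intro r hr hr'
    rw [hn, h3 r hr' hr, neg_zero]

/-- the top of a corner -/
theorem mem_fix5 {m L : ℕ} (hm : 0 < m) (hL : L < 3 * m) :
    L ∈ fix5 m ↔ (lb5 m L).2 = (m : ℝ) / 2 - 1 / 6 := by
  have h1 := Nat.div_add_mod L m
  have h2 := Nat.mod_lt L hm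
  have h3 : L / m < 3 := (Nat.div_lt_iff_lt_mul hm).2 hL
  have e1 : L ∈ fix5 m ↔ L % m + 1 = m := by
    simp only [fix5, Finset.mem_insert, Finset.mem_singleton]
    generalize L / m = e at *
    generalize L % m = r at *
    interval_cases e <;> omega
  rw [e1]
  show _ ↔ ((L % m : ℕ) : ℝ) + 5 / 6 - (m : ℝ) / 2 = (m : ℝ) / 2 - 1 / 6
  constructor
  · intro h
    have : ((L % m : ℕ) : ℝ) + 1 = m := by exact_mod_cast h
    linarith
  · intro h
    have : ((L % m : ℕ) : ℝ) + 1 = m := by linarith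
    exact_mod_cast this

/-- below the top -/
theorem below5 {m L : ℕ} (hm : 0 < m) (hL : L < 3 * m) (h : L ∉ fix5 m) :
    (lb5 m L).2 ≤ (m : ℝ) / 2 - 7 / 6 := by
  have h1 := Nat.div_add_mod L m
  have h2 := Nat.mod_lt L hm
  have h3 : L / m < 3 := (Nat.div_lt_iff_lt_mul hm).2 hL
  have e1 : L % m + 2 ≤ m := by
    simp only [fix5, Finset.mem_insert, Finset.mem_singleton, not_or] at h
    generalize L / m = e at *
    generalize L % m = r at *
    interval_cases e <;> omega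
  have : ((L % m : ℕ) : ℝ) + 2 ≤ m := by exact_mod_cast e1
  show ((L % m : ℕ) : ℝ) + 5 / 6 - (m : ℝ) / 2 ≤ (m : ℝ) / 2 - 7 / 6
  linarith

theorem err5 {M x u : ℝ} (hM : 0 < M) (hx : |x| ≤ M + 1)
    (hu : 0 < u ∧ u * (1000 * (M + 1)) ≤ 1) : |x * u| ≤ 1 / 1000 := by
  rw [abs_mul, abs_of_pos hu.1]
  have h1 : |x| * u ≤ (M + 1) * u := mul_le_mul_of_nonneg_right hx hu.1.le
  linarith [hu.2]

/-- the values of a form with bounded coefficients and `B = -1` -/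
theorem val5 {N M x y z t : ℝ} (hB : Big N M) (hy : |y| ≤ M + 1)
    (hz : |z| ≤ M + 1) (ht : Ht M t) :
    x - t - 1 / 500 ≤ x + y * N ^ (t - M) + z * N ^ (-t - M) + -1 * t ∧
    x + y * N ^ (t - M) + z * N ^ (-t - M) + -1 * t ≤ x - t + 1 / 500 := by
  have h1 := abs_le.1 (err5 hB.M_pos hy (ht.up hB))
  have h2 := abs_le.1 (err5 hB.M_pos hz (ht.dn hB))
  constructor <;> linarith [h1.1, h1.2, h2.1, h2.2]

/-- the three top points against another triangle -/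
theorem sep_fix5 {m : ℕ} (hm : 0 < m) {N : ℝ} (hB : Big N ((m : ℝ) / 2)) {T : Finset ℕ}
    (hT : T ∈ F5 (3 * m)) (hne : T ≠ fix5 m) :
    Sep (fun L => pnt N ((m : ℝ) / 2) (lb5 m L)) T (fix5 m) := by
  have hM := hB.M_pos
  have hm1 : (1 : ℝ) ≤ m := by exact_mod_cast hm
  have hfixlt : ∀ k ∈ fix5 m, k < 3 * m := by
    intro k hk
    simp only [fix5, Finset.mem_insert, Finset.mem_singleton] at hk
    omega
  have hlt : ∀ k ∈ T, k < 3 * m := fun k hk => Finset.mem_range.1 (F5_sub T hT hk)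
  have hft : fix5 m ∈ F5 (3 * m) := by
    rw [mem_F5]
    have e1 : m - 1 ∉ ({2 * m - 1, 3 * m - 1} : Finset ℕ) := by
      simp only [Finset.mem_insert, Finset.mem_singleton]; omega
    have e2 : 2 * m - 1 ∉ ({3 * m - 1} : Finset ℕ) := by
      simp only [Finset.mem_singleton]; omega
    refine ⟨fun k hk => Finset.mem_range.2 (hfixlt k hk), ?_, ?_⟩
    · unfold fix5
      rw [Finset.card_insert_of_notMem e1, Finset.card_insert_of_notMem e2, Finset.card_singleton]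
    · unfold fix5
      rw [Finset.sum_insert e1, Finset.sum_insert e2, Finset.sum_singleton]
      exact ⟨2, by omega⟩
  have hcard := F5_inter T hT (fix5 m) hft hne
  obtain ⟨τ, hτ⟩ : ∃ τ : ℝ, τ = (m : ℝ) / 2 - 1 / 6 := ⟨_, rfl⟩
  have hty : |τ - 1 / 2| ≤ (m : ℝ) / 2 + 1 := by
    rw [abs_le, hτ]; constructor <;> linarith
  have hHt : Ht ((m : ℝ) / 2) τ := by
    constructor <;> linarith
  rcases Nat.eq_zero_or_pos (T ∩ fix5 m).card with h0 | h0
  · -- no common vertex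
    have hdis : ∀ k ∈ T, k ∉ fix5 m := by
      intro k hk hk'
      rw [Finset.card_eq_zero] at h0
      have : k ∈ T ∩ fix5 m := Finset.mem_inter.2 ⟨hk, hk'⟩
      rw [h0] at this
      exact absurd this (Finset.notMem_empty k)
    have hv : ∀ L, L < 3 * m →
        (τ - 1 / 2) - (lb5 m L).2 - 1 / 500 ≤
          val N ((m : ℝ) / 2) (τ - 1 / 2) (τ - 1 / 2) (τ - 1 / 2) (-1) (lb5 m L) ∧
        val N ((m : ℝ) / 2) (τ - 1 / 2) (τ - 1 / 2) (τ - 1 / 2) (-1) (lb5 m L) ≤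
          (τ - 1 / 2) - (lb5 m L).2 + 1 / 500 := by
      intro L hL
      have h1 := val5 (x := τ - 1 / 2) hB hty hty (ht5 (L := L) hm)
      unfold val
      split_ifs <;> exact h1
    refine ⟨fm (τ - 1 / 2) (τ - 1 / 2) (τ - 1 / 2) (-1), ?_, ?_, ?_⟩
    · intro r hr hr'
      show 0 < ap _ (pnt N ((m : ℝ) / 2) (lb5 m r))
      rw [ap_fm]
      have h1 := (hv r (hlt r hr)).1
      have h2 := below5 hm (hlt r hr) hr'
      linarith
    · intro r hr hr'
      show ap _ (pnt N ((m : ℝ) / 2) (lb5 m r)) < 0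
      rw [ap_fm]
      have h1 := (hv r (hfixlt r hr)).2
      have h2 := (mem_fix5 hm (hfixlt r hr)).1 hr
      linarith
    · intro r hr hr'
      exact absurd hr' (hdis r hr)
  · obtain ⟨k, hk⟩ := Finset.card_pos.1 h0
    have huniq : ∀ r, r ∈ T → r ∈ fix5 m → r = k := fun r h1 h2 =>
      Finset.card_le_one.1 hcard r (Finset.mem_inter.2 ⟨h1, h2⟩) k hk
    rw [Finset.mem_inter] at hk
    have hkl := hlt k hk.1
    have hkt := (mem_fix5 hm hkl).1 hk.2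
    have he := lb5_lt hm hkl
    obtain ⟨x, hx⟩ : ∃ x : ℝ, x = τ - (τ - 1 / 2) * N ^ (τ - (m : ℝ) / 2) -
      (τ - 1 / 2) * N ^ (-τ - (m : ℝ) / 2) := ⟨_, rfl⟩
    have hx1 := abs_le.1 (err5 hM hty (hHt.up hB))
    have hx2 := abs_le.1 (err5 hM hty (hHt.dn hB))
    have hxb : |x| ≤ (m : ℝ) / 2 + 1 := by
      rw [abs_le]; constructor <;> linarith [hx1.1, hx1.2, hx2.1, hx2.2]
    obtain ⟨a0, a1, a2, v0, v1, v2⟩ := exists_rot N ((m : ℝ) / 2) he x (τ - 1 / 2) (τ - 1 / 2) (-1)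
    -- the values in the corner of k
    have w0 : ∀ L, L < 3 * m → (lb5 m L).1 = (lb5 m k).1 →
        x - (lb5 m L).2 - 1 / 500 ≤ val N ((m : ℝ) / 2) a0 a1 a2 (-1) (lb5 m L) := by
      intro L hL h
      have e : lb5 m L = ((lb5 m k).1, (lb5 m L).2) := by rw [← h]
      rw [e, v0]
      exact (val5 (x := x) hB hty hty (ht5 (L := L) hm)).1
    have w1 : ∀ L, L < 3 * m → (lb5 m L).1 ≠ (lb5 m k).1 →
        (τ - 1 / 2) - (lb5 m L).2 - 1 / 500 ≤ val N ((m : ℝ) / 2) a0 a1 a2 (-1) (lb5 m L) ∧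
        val N ((m : ℝ) / 2) a0 a1 a2 (-1) (lb5 m L) ≤ (τ - 1 / 2) - (lb5 m L).2 + 1 / 500 := by
      intro L hL h
      have hl := lb5_lt hm hL
      have hcases : (lb5 m L).1 = ((lb5 m k).1 + 1) % 3 ∨ (lb5 m L).1 = ((lb5 m k).1 + 2) % 3 := by
        omega
      rcases hcases with h1 | h1
      · have e : lb5 m L = (((lb5 m k).1 + 1) % 3, (lb5 m L).2) := by rw [← h1]
        rw [e, v1]
        exact val5 (x := τ - 1 / 2) hB hty hxb (ht5 (L := L) hm)
      · have e : lb5 m L = (((lb5 m k).1 + 2) % 3, (lb5 m L).2) := by rw [← h1]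
        rw [e, v2]
        exact val5 (x := τ - 1 / 2) hB hxb hty (ht5 (L := L) hm)
    have hk0 : val N ((m : ℝ) / 2) a0 a1 a2 (-1) (lb5 m k) = 0 := by
      have e : lb5 m k = ((lb5 m k).1, τ) := by rw [hτ, ← hkt]
      rw [e, v0, hx]
      ring
    refine ⟨fm a0 a1 a2 (-1), ?_, ?_, ?_⟩
    · intro r hr hr'
      show 0 < ap _ (pnt N ((m : ℝ) / 2) (lb5 m r))
      rw [ap_fm]
      have h2 := below5 hm (hlt r hr) hr'
      by_cases hc : (lb5 m r).1 = (lb5 m k).1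
      · have := w0 r (hlt r hr) hc
        linarith [hx1.2, hx2.2]
      · have := (w1 r (hlt r hr) hc).1
        linarith
    · intro r hr hr'
      show ap _ (pnt N ((m : ℝ) / 2) (lb5 m r)) < 0
      rw [ap_fm]
      have h2 := (mem_fix5 hm (hfixlt r hr)).1 hr
      by_cases hc : (lb5 m r).1 = (lb5 m k).1
      · exfalso
        apply hr'
        have : lb5 m r = lb5 m k := Prod.ext hc (h2.trans hkt.symm)
        rw [lb5_inj this]
        exact hk.1
      · have := (w1 r (hfixlt r hr) hc).2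
        linarith
    · intro r hr hr'
      show ap _ (pnt N ((m : ℝ) / 2) (lb5 m r)) = 0
      rw [ap_fm, huniq r hr hr']
      exact hk0

/-- the image of a triangle -/
theorem F5_tr {m : ℕ} (hm : 0 < m) {T : Finset ℕ} {x y z : ℕ} (h : NF5 m T x y z) :
    ∃ e k a b c, e < 3 ∧ (k = 1 ∨ k = 2) ∧
      Ok3 ((m : ℝ) / 2) (fun _ => G (5 / 6) (5 / 6) ((m : ℝ) / 2)) e k a b c ∧
      a + 1 ≤ b ∧ lb5 m '' (T : Set ℕ) = tr e k a b c ∧
      lb5 m x = (e, a) ∧ lb5 m y = (e, b) ∧ lb5 m z = ((e + k) % 3, c) ∧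
      Ht ((m : ℝ) / 2) a ∧ Ht ((m : ℝ) / 2) b ∧ Ht ((m : ℝ) / 2) c := by
  obtain ⟨hT, hxy, hx, hy, hz, hc, hk3⟩ := h
  have he : x / m < 3 := (Nat.div_lt_iff_lt_mul hm).2 hx
  have d1 := Nat.div_add_mod x m
  have d2 := Nat.div_add_mod y m
  rw [← hc] at d2
  have hlt0 : x % m + 1 ≤ y % m := by omega
  have hlt1 : ((x % m : ℕ) : ℝ) + 1 ≤ ((y % m : ℕ) : ℝ) := by exact_mod_cast hlt0
  have hlt : (lb5 m x).2 + 1 ≤ (lb5 m y).2 := by
    show ((x % m : ℕ) : ℝ) + 5 / 6 - (m : ℝ) / 2 + 1 ≤ ((y % m : ℕ) : ℝ) + 5 / 6 - (m : ℝ) / 2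
    linarith
  have ex : lb5 m x = (x / m, (lb5 m x).2) := rfl
  have ey : lb5 m y = (x / m, (lb5 m y).2) := by rw [hc]; rfl
  have s3 : (lb5 m x).2 + (lb5 m y).2 + (lb5 m z).2 =
      ((x % m : ℕ) : ℝ) + ((y % m : ℕ) : ℝ) + ((z % m : ℕ) : ℝ) + 5 / 2 - 3 * (m : ℝ) / 2 := by
    show ((x % m : ℕ) : ℝ) + 5 / 6 - (m : ℝ) / 2 + (((y % m : ℕ) : ℝ) + 5 / 6 - (m : ℝ) / 2) +
      (((z % m : ℕ) : ℝ) + 5 / 6 - (m : ℝ) / 2) = _
    ring
  rcases hk3 with ⟨h1, h2⟩ | ⟨h1, h2⟩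
  · have h2' : ((x % m : ℕ) : ℝ) + ((y % m : ℕ) : ℝ) + ((z % m : ℕ) : ℝ) + 3 = 2 * m := by
      exact_mod_cast h2
    have ez : lb5 m z = ((x / m + 1) % 3, (lb5 m z).2) := by rw [← h1]; rfl
    refine ⟨x / m, 1, (lb5 m x).2, (lb5 m y).2, (lb5 m z).2, he, Or.inl rfl,
      ⟨G5 hm, G5 hm, G5 hm, by linarith, Or.inl ⟨rfl, ?_⟩⟩, hlt, ?_, ex, ey, ez,
      ht5 hm, ht5 hm, ht5 hm⟩
    · linarith
    · rw [hT]
      simp only [Finset.coe_insert, Finset.coe_singleton, Set.image_insert_eq,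
        Set.image_singleton, tr]
      rw [← ez, Nat.mod_eq_of_lt he, ← ex, ← ey]
  · have h2' : ((x % m : ℕ) : ℝ) + ((y % m : ℕ) : ℝ) + ((z % m : ℕ) : ℝ) + 3 = m := by
      exact_mod_cast h2
    have ez : lb5 m z = ((x / m + 2) % 3, (lb5 m z).2) := by rw [← h1]; rfl
    refine ⟨x / m, 2, (lb5 m x).2, (lb5 m y).2, (lb5 m z).2, he, Or.inr rfl,
      ⟨G5 hm, G5 hm, G5 hm, by linarith, Or.inr ⟨rfl, ?_⟩⟩, hlt, ?_, ex, ey, ez,
      ht5 hm, ht5 hm, ht5 hm⟩
    · linarith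
    · rw [hT]
      simp only [Finset.coe_insert, Finset.coe_singleton, Set.image_insert_eq,
        Set.image_singleton, tr]
      rw [← ez, Nat.mod_eq_of_lt he, ← ex, ← ey]

theorem sep_all5 {m : ℕ} (hm : 0 < m) {N : ℝ} (hB : Big N ((m : ℝ) / 2)) :
    ∀ S ∈ F5 (3 * m), ∀ T ∈ F5 (3 * m), S ≠ T →
      Sep (fun L => pnt N ((m : ℝ) / 2) (lb5 m L)) S T := by
  intro S hS T hT hne
  have hc : Rots N ((m : ℝ) / 2) (fun _ => G (5 / 6) (5 / 6) ((m : ℝ) / 2)) :=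
    ⟨cases3 hB _ _ _, cases3 hB _ _ _, cases3 hB _ _ _⟩
  rcases exists_nf5 hm hS with hS1 | ⟨x, y, z, hS1⟩
  · rw [hS1]
    exact Sep.symm5 (sep_fix5 hm hB hT (fun h => hne (by rw [hS1, h])))
  rcases exists_nf5 hm hT with hT1 | ⟨x', y', z', hT1⟩
  · rw [hT1]
    exact sep_fix5 hm hB hS (fun h => hne (by rw [hT1, h]))
  obtain ⟨e, k, a, b, c, he, -, ho, -, hi, ex, ey, ez, -⟩ := F5_tr hm hS1
  obtain ⟨e', k', p, q, r, he', -, ho', -, hi', ex', ey', ez', -⟩ := F5_tr hm hT1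
  apply sep_of_Sp5
  rw [hi, hi']
  apply hc.all ho ho'
  rintro ⟨h1, h2, h3, h4⟩
  apply hne
  rw [Nat.mod_eq_of_lt he, Nat.mod_eq_of_lt he'] at h1
  subst h1 h2 h3 h4
  have hcr : c = r := by
    rcases ho.2.2.2.2 with ⟨h5, h6⟩ | ⟨h5, h6⟩ <;> rcases ho'.2.2.2.2 with ⟨h7, h8⟩ | ⟨h7, h8⟩
    · linarith
    · omega
    · omega
    · linarith
  subst hcr
  have hx : x = x' := lb5_inj (ex.trans ex'.symm)
  have hy : y = y' := lb5_inj (ey.trans ey'.symm)
  have hz : z = z' := lb5_inj (ez.trans ez'.symm)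
  rw [hS1.1, hT1.1, hx, hy, hz]

/-- the triangles are not degenerate -/
theorem F5_nd {m : ℕ} (hm : 0 < m) {N : ℝ} (hB : Big N ((m : ℝ) / 2)) :
    ∀ T ∈ F5 (3 * m), ∀ k ∈ T, ∃ f : Pt, ap f (pnt N ((m : ℝ) / 2) (lb5 m k)) = 0 ∧
      ∀ t ∈ T, t ≠ k → 0 < ap f (pnt N ((m : ℝ) / 2) (lb5 m t)) := by
  intro T hT k hk
  have hM := hB.M_pos
  rcases exists_nf5 hm hT with h | ⟨x, y, z, hNF⟩
  · have hlt : ∀ k ∈ T, k < 3 * m := fun k hk => Finset.mem_range.1 (F5_sub T hT hk)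
    have hkl := hlt k hk
    have he := lb5_lt hm hkl
    have hu := (ht5 (m := m) (L := k) hm).up hB
    have hd := (ht5 (m := m) (L := k) hm).dn hB
    have hu1 := small_le hM hu.1 hu.2
    have hd1 := small_le hM hd.1 hd.2
    obtain ⟨w, hw⟩ : ∃ w : ℝ, w = -(N ^ ((lb5 m k).2 - (m : ℝ) / 2) +
      N ^ (-(lb5 m k).2 - (m : ℝ) / 2)) := ⟨_, rfl⟩
    have hwb : |w| ≤ (m : ℝ) / 2 + 1 := by
      rw [abs_le]; constructor <;> linarith [hu.1, hd.1]
    obtain ⟨a0, a1, a2, v0, v1, v2⟩ := exists_rot N ((m : ℝ) / 2) he w 1 1 0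
    refine ⟨fm a0 a1 a2 0, ?_, ?_⟩
    · rw [ap_fm]
      have e : lb5 m k = ((lb5 m k).1, (lb5 m k).2) := rfl
      rw [e, v0, hw]; ring
    · intro t ht hne
      rw [ap_fm]
      have htl := hlt t ht
      have htt := (mem_fix5 hm htl).1 (h ▸ ht)
      have hkt := (mem_fix5 hm hkl).1 (h ▸ hk)
      have hl := lb5_lt hm htl
      have hc : (lb5 m t).1 ≠ (lb5 m k).1 := fun hc =>
        hne (lb5_inj (Prod.ext hc (htt.trans hkt.symm)))
      have tu := (ht5 (m := m) (L := t) hm).up hB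
      have td := (ht5 (m := m) (L := t) hm).dn hB
      have hcases : (lb5 m t).1 = ((lb5 m k).1 + 1) % 3 ∨
          (lb5 m t).1 = ((lb5 m k).1 + 2) % 3 := by
        omega
      rcases hcases with h1 | h1
      · have e : lb5 m t = (((lb5 m k).1 + 1) % 3, (lb5 m t).2) := by rw [← h1]
        rw [e, v1]
        have := abs_le.1 (err5 hM hwb td)
        linarith [tu.1, this.1]
      · have e : lb5 m t = (((lb5 m k).1 + 2) % 3, (lb5 m t).2) := by rw [← h1]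
        rw [e, v2]
        have := abs_le.1 (err5 hM hwb tu)
        linarith [td.1, this.1]
  · obtain ⟨e, k', a, b, c, he, hk', ho, hlt, -, ex, ey, ez, ha, hb, hc⟩ := F5_tr hm hNF
    have hj : (e + k') % 3 = (e + 1) % 3 ∨ (e + k') % 3 = (e + 2) % 3 := by
      rcases hk' with rfl | rfl
      · exact Or.inl rfl
      · exact Or.inr rfl
    rw [hNF.1] at hk ⊢
    simp only [Finset.mem_insert, Finset.mem_singleton] at hk
    rcases hk with rfl | rfl | rfl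
    · obtain ⟨f, f0, f1, f2⟩ := nd_at hB he hj (s := 1) (Or.inl rfl) (by linarith) ha hb hc
      refine ⟨f, by rw [ex]; exact f0, ?_⟩
      intro t ht hne
      simp only [Finset.mem_insert, Finset.mem_singleton] at ht
      rcases ht with rfl | rfl | rfl
      · exact absurd rfl hne
      · rw [ey]; exact f1
      · rw [ez]; exact f2
    · obtain ⟨f, f0, f1, f2⟩ := nd_at hB he hj (s := -1) (Or.inr rfl) (by linarith) hb ha hc
      refine ⟨f, by rw [ey]; exact f0, ?_⟩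
      intro t ht hne
      simp only [Finset.mem_insert, Finset.mem_singleton] at ht
      rcases ht with rfl | rfl | rfl
      · rw [ex]; exact f1
      · exact absurd rfl hne
      · rw [ez]; exact f2
    · obtain ⟨f, f0, f1, f2⟩ := nd_third hB he hj ha hb hc
      refine ⟨f, by rw [ez]; exact f0, ?_⟩
      intro t ht hne
      simp only [Finset.mem_insert, Finset.mem_singleton] at ht
      rcases ht with rfl | rfl | rfl
      · rw [ex]; exact f1
      · rw [ey]; exact f2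
      · exact absurd rfl hne

/-- the points are different -/
theorem pnt5_inj {m : ℕ} (hm : 0 < m) {N : ℝ} (hB : Big N ((m : ℝ) / 2)) :
    ∀ L < 3 * m, ∀ L' < 3 * m, L ≠ L' →
    ∃ f : Pt, ap f (pnt N ((m : ℝ) / 2) (lb5 m L)) = 0 ∧
      ap f (pnt N ((m : ℝ) / 2) (lb5 m L')) ≠ 0 := by
  intro L hL L' hL' hne
  have hM := hB.M_pos
  have he := lb5_lt hm hL
  have he' := lb5_lt hm hL'
  have e : lb5 m L = ((lb5 m L).1, (lb5 m L).2) := rfl
  have hcases : (lb5 m L').1 = (lb5 m L).1 ∨ (lb5 m L').1 = ((lb5 m L).1 + 1) % 3 ∨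
      (lb5 m L').1 = ((lb5 m L).1 + 2) % 3 := by
    omega
  rcases hcases with h1 | h1 | h1
  · obtain ⟨a0, a1, a2, v0, v1, v2⟩ := exists_rot N ((m : ℝ) / 2) he (-(lb5 m L).2) 0 0 1
    refine ⟨fm a0 a1 a2 1, ?_, ?_⟩
    · rw [ap_fm, e, v0]; ring
    · have e' : lb5 m L' = ((lb5 m L).1, (lb5 m L').2) := by rw [← h1]
      rw [ap_fm, e', v0]
      intro hh
      apply hne
      apply lb5_inj (m := m)
      have : (lb5 m L).2 = (lb5 m L').2 := by linarith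
      exact Prod.ext h1.symm this
  · obtain ⟨a0, a1, a2, v0, v1, v2⟩ := exists_rot N ((m : ℝ) / 2) he
      (-N ^ ((lb5 m L).2 - (m : ℝ) / 2)) 1 0 0
    have := one_sub_pos hM ((ht5 (m := m) (L := L) hm).up hB) ((ht5 (m := m) (L := L') hm).dn hB)
    refine ⟨fm a0 a1 a2 0, ?_, ?_⟩
    · rw [ap_fm, e, v0]; ring
    · have e' : lb5 m L' = (((lb5 m L).1 + 1) % 3, (lb5 m L').2) := by rw [← h1]
      rw [ap_fm, e', v1]
      intro hh
      linarith
  · obtain ⟨a0, a1, a2, v0, v1, v2⟩ := exists_rot N ((m : ℝ) / 2) he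
      (-N ^ (-(lb5 m L).2 - (m : ℝ) / 2)) 0 1 0
    have := one_sub_pos hM ((ht5 (m := m) (L := L) hm).dn hB) ((ht5 (m := m) (L := L') hm).up hB)
    refine ⟨fm a0 a1 a2 0, ?_, ?_⟩
    · rw [ap_fm, e, v0]; ring
    · have e' : lb5 m L' = (((lb5 m L).1 + 2) % 3, (lb5 m L').2) := by rw [← h1]
      rw [ap_fm, e', v2]
      intro hh
      linarith

theorem cfg5 {m : ℕ} (hm : 0 < m) {N : ℝ} (hB : Big N ((m : ℝ) / 2)) :
    CfgC (3 * m) (fun L => pnt N ((m : ℝ) / 2) (lb5 m L)) (F5 (3 * m)) where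
  sub := F5_sub
  card := F5_card3
  inter := F5_inter
  sep := sep_all5 hm hB
  nd := F5_nd hm hB
  pos := fun _ _ => pnt_pos hB.N_pos _ _
  inj := pnt5_inj hm hB

/-- the bound for `n = 3 m` -/
theorem T_ge5 {m : ℕ} (hm : 0 < m) : (3 * m) * (3 * m) + 6 ≤ 6 * T (3 * m) + 3 * (3 * m) := by
  have hm1 : (1 : ℝ) ≤ m := by exact_mod_cast hm
  obtain ⟨N, hB⟩ := exists_Big (M := (m : ℝ) / 2) (by linarith)
  have h1 := (cfg5 hm hB).le_T
  have h2 := card_F5_ge hm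
  omega

/-- **the lower bound** `⌊n (n - 3) / 6⌋ + 1` for every `n ≥ 1` -/
theorem T_all (n : ℕ) (hn : 1 ≤ n) :
    n * n + 2 ≤ 6 * T n + 3 * n ∧ (3 ∣ n → n * n + 6 ≤ 6 * T n + 3 * n) := by
  by_cases h : 3 ∣ n
  · obtain ⟨m, rfl⟩ := h
    have h1 := T_ge5 (m := m) (by omega)
    exact ⟨by omega, fun _ => h1⟩
  · exact ⟨T_ge' n h, fun h' => absurd h' h⟩

/-- the same bound, uniform: `⌊n (n - 3) / 6⌋ + 1 ≤ T n` -/
theorem T_all' (n : ℕ) (hn : 1 ≤ n) : n * (n - 3) / 6 + 1 ≤ T n ∨ n < 3 := by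
  rcases Nat.lt_or_ge n 3 with h | h
  · exact Or.inr h
  left
  obtain ⟨h1, h2⟩ := T_all n hn
  obtain ⟨k, rfl⟩ : ∃ k, n = k + 3 := ⟨n - 3, by omega⟩
  have e : (k + 3) * (k + 3) = (k + 3) * k + 3 * (k + 3) := by ring
  rw [show k + 3 - 3 = k by omega]
  by_cases h3 : 3 ∣ k + 3
  · have := h2 h3
    omega
  · omega

end Pool.Agent.K3G
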