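import Pool.Agent.K3G.Defs

/-! The top triangle: the three points with the largest height (MP_a19305_co). -/

set_option autoImplicit false

namespace Pool.Agent.K3G

/-- the top triangle -/
def Tp (M : ℝ) : Set (ℕ × ℝ) := {(0, M - 1 / 6), (1, M - 1 / 6), (2, M - 1 / 6)}

lemma mem_Tp {M : ℝ} {v : ℕ × ℝ} :
    v ∈ Tp M ↔ (v.1 = 0 ∨ v.1 = 1 ∨ v.1 = 2) ∧ v.2 = M - 1 / 6 := by
  obtain ⟨e, t⟩ := v
  simp only [Tp, Set.mem_insert_iff, Set.mem_singleton_iff, Prod.mk.injEq]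
  tauto

lemma top_small {N M : ℝ} (hB : Big N M) (hM : 1 ≤ M) :
    0 < N ^ (M - 1 / 6 - M) ∧ 0 < N ^ (-(M - 1 / 6) - M) ∧
    (M + 1) * N ^ (M - 1 / 6 - M) ≤ 1 / 1000 ∧ (M + 1) * N ^ (-(M - 1 / 6) - M) ≤ 1 / 1000 := by
  have h1 := hB.small (x := M - 1 / 6 - M) (by linarith)
  have h2 := hB.small (x := -(M - 1 / 6) - M) (by linarith)
  exact ⟨hB.pos _, hB.pos _, by linarith, by linarith⟩

/-- no common point -/
theorem top_none {N M : ℝ} (hB : Big N M) (hM : 1 ≤ M) {T : Set (ℕ × ℝ)}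
    (hT : ∀ v ∈ T, v.2 ≤ M - 7 / 6) : Sp N M (Tp M) T := by
  obtain ⟨p1, p2, s1, s2⟩ := top_small hB hM
  refine ⟨-(M - 2 / 3), -(M - 2 / 3), -(M - 2 / 3), 1, ?_, ?_, ?_⟩
  · intro v hv _
    rw [mem_Tp] at hv
    unfold val
    rw [hv.2]
    split_ifs <;> nlinarith
  · intro v hv _
    have h1 := hT v hv
    have q1 := hB.pos (v.2 - M)
    have q2 := hB.pos (-v.2 - M)
    have r1 : 0 < (M - 2 / 3) * N ^ (v.2 - M) := mul_pos (by linarith) q1
    have r2 : 0 < (M - 2 / 3) * N ^ (-v.2 - M) := mul_pos (by linarith) q2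
    unfold val
    split_ifs <;> nlinarith
  · intro v hv hv'
    rw [mem_Tp] at hv
    have := hT v hv'
    rw [hv.2] at this
    linarith

/-- the numbers for one common point -/
lemma top_num {N M : ℝ} (hB : Big N M) (hM : 1 ≤ M) : ∃ c : ℝ, c < 0 ∧
    c + -(M - 2 / 3) * N ^ (M - 1 / 6 - M) + -(M - 2 / 3) * N ^ (-(M - 1 / 6) - M) +
      1 * (M - 1 / 6) = 0 ∧
    0 < -(M - 2 / 3) + -(M - 2 / 3) * N ^ (M - 1 / 6 - M) + c * N ^ (-(M - 1 / 6) - M) +
      1 * (M - 1 / 6) ∧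
    0 < -(M - 2 / 3) + c * N ^ (M - 1 / 6 - M) + -(M - 2 / 3) * N ^ (-(M - 1 / 6) - M) +
      1 * (M - 1 / 6) ∧
    ∀ t, t ≤ M - 7 / 6 →
      c + -(M - 2 / 3) * N ^ (t - M) + -(M - 2 / 3) * N ^ (-t - M) + 1 * t < 0 ∧
      -(M - 2 / 3) + -(M - 2 / 3) * N ^ (t - M) + c * N ^ (-t - M) + 1 * t < 0 ∧
      -(M - 2 / 3) + c * N ^ (t - M) + -(M - 2 / 3) * N ^ (-t - M) + 1 * t < 0 := by
  obtain ⟨p1, p2, s1, s2⟩ := top_small hB hM
  set u : ℝ := N ^ (M - 1 / 6 - M) with hu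
  set w : ℝ := N ^ (-(M - 1 / 6) - M) with hw
  have a1 : 0 < (M - 2 / 3) * u := mul_pos (by linarith) p1
  have a2 : 0 < (M - 2 / 3) * w := mul_pos (by linarith) p2
  have b1 : (M - 2 / 3) * u ≤ 1 / 1000 := by nlinarith
  have b2 : (M - 2 / 3) * w ≤ 1 / 1000 := by nlinarith
  have hc : -(M - 1 / 6) + (M - 2 / 3) * u + (M - 2 / 3) * w < 0 := by linarith
  have hc' : -M ≤ -(M - 1 / 6) + (M - 2 / 3) * u + (M - 2 / 3) * w := by linarith
  refine ⟨-(M - 1 / 6) + (M - 2 / 3) * u + (M - 2 / 3) * w, hc, by ring, ?_, ?_, ?_⟩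
  · have h1 : -M * w ≤ (-(M - 1 / 6) + (M - 2 / 3) * u + (M - 2 / 3) * w) * w :=
      mul_le_mul_of_nonneg_right hc' p2.le
    nlinarith
  · have h1 : -M * u ≤ (-(M - 1 / 6) + (M - 2 / 3) * u + (M - 2 / 3) * w) * u :=
      mul_le_mul_of_nonneg_right hc' p1.le
    nlinarith
  · intro t ht
    have q1 := hB.pos (t - M)
    have q2 := hB.pos (-t - M)
    have r1 : 0 < (M - 2 / 3) * N ^ (t - M) := mul_pos (by linarith) q1
    have r2 : 0 < (M - 2 / 3) * N ^ (-t - M) := mul_pos (by linarith) q2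
    have r3 : (-(M - 1 / 6) + (M - 2 / 3) * u + (M - 2 / 3) * w) * N ^ (t - M) < 0 :=
      mul_neg_of_neg_of_pos hc q1
    have r4 : (-(M - 1 / 6) + (M - 2 / 3) * u + (M - 2 / 3) * w) * N ^ (-t - M) < 0 :=
      mul_neg_of_neg_of_pos hc q2
    refine ⟨by linarith, by linarith, by linarith⟩

/-- one common point -/
theorem top_one {N M : ℝ} (hB : Big N M) (hM : 1 ≤ M) {T : Set (ℕ × ℝ)} {e : ℕ} (he : e < 3)
    (hT : ∀ v ∈ T, v = (e, M - 1 / 6) ∨ v.2 ≤ M - 7 / 6) (heT : (e, M - 1 / 6) ∈ T) :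
    Sp N M (Tp M) T := by
  obtain ⟨c, hc, h0, h1, h2, h3⟩ := top_num hB hM
  have hne : ∀ v ∈ Tp M, v ∉ T → v.1 ≠ e := by
    rintro ⟨e', t⟩ hv hv' h
    rw [mem_Tp] at hv
    simp only at hv h
    rw [h, hv.2] at hv'
    exact hv' heT
  have hlow : ∀ v ∈ T, v ∉ Tp M → v.2 ≤ M - 7 / 6 := by
    intro v hv hv'
    rcases hT v hv with h | h
    · exfalso
      apply hv'
      rw [mem_Tp, h]
      exact ⟨by omega, rfl⟩
    · exact h
  have hcom : ∀ v ∈ Tp M, v ∈ T → v = (e, M - 1 / 6) := by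
    intro v hv hv'
    rcases hT v hv' with h | h
    · exact h
    · rw [mem_Tp] at hv
      rw [hv.2] at h
      linarith
  interval_cases e
  · refine ⟨c, -(M - 2 / 3), -(M - 2 / 3), 1, ?_, ?_, ?_⟩
    · intro v hv hv'
      have h4 := hne v hv hv'
      rw [mem_Tp] at hv
      unfold val
      rw [hv.2]
      split_ifs
      · exact absurd (by assumption) h4
      · exact h1
      · exact h2
    · intro v hv hv'
      obtain ⟨g1, g2, g3⟩ := h3 _ (hlow v hv hv')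
      unfold val
      split_ifs
      · exact g1
      · exact g2
      · exact g3
    · intro v hv hv'
      rw [hcom v hv hv', val_zero]
      exact h0
  · refine ⟨-(M - 2 / 3), c, -(M - 2 / 3), 1, ?_, ?_, ?_⟩
    · intro v hv hv'
      have h4 := hne v hv hv'
      rw [mem_Tp] at hv
      unfold val
      rw [hv.2]
      split_ifs
      · exact h2
      · exact h1
    · intro v hv hv'
      obtain ⟨g1, g2, g3⟩ := h3 _ (hlow v hv hv')
      unfold val
      split_ifs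
      · exact g3
      · exact g1
      · exact g2
    · intro v hv hv'
      rw [hcom v hv hv', val_one]
      exact h0
  · refine ⟨-(M - 2 / 3), -(M - 2 / 3), c, 1, ?_, ?_, ?_⟩
    · intro v hv hv'
      have h4 := hne v hv hv'
      rw [mem_Tp] at hv
      have h5 : v.1 = 0 ∨ v.1 = 1 := by omega
      unfold val
      rw [hv.2]
      rcases h5 with h5 | h5
      · rw [h5]; simp only [if_true]
        exact h1
      · rw [h5]; simp only [one_ne_zero, if_false, if_true]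
        exact h2
    · intro v hv hv'
      obtain ⟨g1, g2, g3⟩ := h3 _ (hlow v hv hv')
      unfold val
      split_ifs
      · exact g2
      · exact g3
      · exact g1
    · intro v hv hv'
      rw [hcom v hv hv', val_two]
      exact h0

/-- the top triangle is not degenerate -/
theorem top_nd {N M : ℝ} (hB : Big N M) {e : ℕ} (he : e < 3) : ∃ A0 A1 A2 B : ℝ,
    val N M A0 A1 A2 B (e, M - 1 / 6) = 0 ∧
    ∀ v ∈ Tp M, v ≠ (e, M - 1 / 6) → 0 < val N M A0 A1 A2 B v := by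
  have hM := hB.1
  have p1 := hB.pos (M - 1 / 6 - M)
  have p2 := hB.pos (-(M - 1 / 6) - M)
  have s1 := hB.small (x := M - 1 / 6 - M) (by linarith)
  have s2 := hB.small (x := -(M - 1 / 6) - M) (by linarith)
  have u1 : N ^ (M - 1 / 6 - M) < 1 := by nlinarith
  have u2 : N ^ (-(M - 1 / 6) - M) < 1 := by nlinarith
  have q1 : 0 < (M - 1 / 6) * (1 - N ^ (M - 1 / 6 - M)) := mul_pos (by linarith) (by linarith)
  have q2 : 0 < (M - 1 / 6) * (1 - N ^ (-(M - 1 / 6) - M)) := mul_pos (by linarith) (by linarith)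
  have hv : ∀ v ∈ Tp M, v ≠ (e, M - 1 / 6) → v.1 ≠ e := by
    rintro ⟨e', t⟩ hv hv' h
    rw [mem_Tp] at hv
    simp only at hv h
    exact hv' (by rw [h, hv.2])
  interval_cases e
  · refine ⟨-(M - 1 / 6), 0, 0, 1, by rw [val_zero]; ring, ?_⟩
    intro v h1 h2
    have h3 := hv v h1 h2
    rw [mem_Tp] at h1
    have h5 : v.1 = 1 ∨ v.1 = 2 := by omega
    obtain ⟨e', t⟩ := v
    simp only at h1 h5
    rcases h5 with rfl | rfl
    · rw [h1.2, val_one]; linarith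
    · rw [h1.2, val_two]; linarith
  · refine ⟨0, -(M - 1 / 6), 0, 1, by rw [val_one]; ring, ?_⟩
    intro v h1 h2
    have h3 := hv v h1 h2
    rw [mem_Tp] at h1
    have h5 : v.1 = 0 ∨ v.1 = 2 := by omega
    obtain ⟨e', t⟩ := v
    simp only at h1 h5
    rcases h5 with rfl | rfl
    · rw [h1.2, val_zero]; linarith
    · rw [h1.2, val_two]; linarith
  · refine ⟨0, 0, -(M - 1 / 6), 1, by rw [val_two]; ring, ?_⟩
    intro v h1 h2
    have h3 := hv v h1 h2
    rw [mem_Tp] at h1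
    have h5 : v.1 = 0 ∨ v.1 = 1 := by omega
    obtain ⟨e', t⟩ := v
    simp only at h1 h5
    rcases h5 with rfl | rfl
    · rw [h1.2, val_zero]; linarith
    · rw [h1.2, val_one]; linarith

end Pool.Agent.K3G
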